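import Mathlib

/-!
# Coefficients of `exp (∑ τ_k x^k / k)`
-/

open Finset

namespace Pool.Agent.Hhelper22.Turan

/-- `Rc τ n` is the coefficient of `x^n` in `exp (∑_{k ≥ 1} τ_k x^k / k)`. -/
noncomputable def Rc (τ : ℕ → ℂ) : ℕ → ℂ
  | 0 => 1
  | (n + 1) => (1 / ((n : ℂ) + 1)) * ∑ i : Fin (n + 1), τ (i + 1) * Rc τ (n - i)
decreasing_by omega

@[simp] lemma Rc_zero (τ : ℕ → ℂ) : Rc τ 0 = 1 := by rw [Rc]

lemma Rc_succ (τ : ℕ → ℂ) (n : ℕ) :
    ((n : ℂ) + 1) * Rc τ (n + 1) = ∑ i ∈ range (n + 1), τ (i + 1) * Rc τ (n - i) := by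
  have h : ((n : ℂ) + 1) ≠ 0 := by exact_mod_cast Nat.succ_ne_zero n
  rw [Rc, ← mul_assoc, mul_one_div_cancel h, one_mul, Finset.sum_range]

lemma Rc_succ_norm_le (τ : ℕ → ℂ) (n : ℕ) :
    ((n : ℝ) + 1) * ‖Rc τ (n + 1)‖ ≤ ∑ i ∈ range (n + 1), ‖τ (i + 1)‖ * ‖Rc τ (n - i)‖ := by
  have h := congrArg norm (Rc_succ τ n)
  rw [norm_mul] at h
  have h1 : ‖((n : ℂ) + 1)‖ = (n : ℝ) + 1 := by
    have : ((n : ℂ) + 1) = ((n + 1 : ℕ) : ℂ) := by push_cast; ring
    rw [this, Complex.norm_natCast]; push_cast; ring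
  rw [h1] at h
  rw [h]
  refine (norm_sum_le _ _).trans (le_of_eq ?_)
  exact Finset.sum_congr rfl (fun i _ => norm_mul _ _)

/-- uniqueness of the solution of the recursion -/
lemma Rc_unique {τ : ℕ → ℂ} {a : ℕ → ℂ} {N : ℕ} (h0 : a 0 = 1)
    (h : ∀ n < N, ((n : ℂ) + 1) * a (n + 1) = ∑ i ∈ range (n + 1), τ (i + 1) * a (n - i)) :
    ∀ n ≤ N, a n = Rc τ n := by
  intro n
  induction n using Nat.strong_induction_on with
  | _ n ih =>
    intro hn
    rcases n with _ | n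
    · rw [h0, Rc_zero]
    · have hne : ((n : ℂ) + 1) ≠ 0 := by exact_mod_cast Nat.succ_ne_zero n
      apply mul_left_cancel₀ hne
      rw [h n (by omega), Rc_succ]
      refine Finset.sum_congr rfl (fun i hi => ?_)
      rw [ih (n - i) (by omega) (by omega)]

lemma Rc_congr {τ τ' : ℕ → ℂ} {N : ℕ} (h : ∀ k, 1 ≤ k → k ≤ N → τ k = τ' k) :
    ∀ n ≤ N, Rc τ n = Rc τ' n := by
  apply Rc_unique (Rc_zero τ)
  intro n hn
  rw [Rc_succ]
  refine Finset.sum_congr rfl (fun i hi => ?_)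
  have := Finset.mem_range.1 hi
  rw [h (i + 1) (by omega) (by omega)]

lemma sum_reflect {M : Type*} [AddCommMonoid M] (g : ℕ → M) (n : ℕ) :
    ∑ i ∈ range (n + 1), g (n - i) = ∑ i ∈ range (n + 1), g i := by
  simpa using Finset.sum_range_reflect g (n + 1)

lemma Rc_norm_le {τ : ℕ → ℂ} (hτ : ∀ k, ‖τ (k + 1)‖ ≤ 2) (n : ℕ) : ‖Rc τ n‖ ≤ n + 1 := by
  induction n using Nat.strong_induction_on with
  | _ n ih =>
    rcases n with _ | n
    · simp
    · have h1 := Rc_succ_norm_le τ n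
      have h2 : ∑ i ∈ range (n + 1), ‖τ (i + 1)‖ * ‖Rc τ (n - i)‖
          ≤ ∑ i ∈ range (n + 1), 2 * (((n - i : ℕ) : ℝ) + 1) := by
        refine Finset.sum_le_sum (fun i hi => ?_)
        exact mul_le_mul (hτ i) (ih (n - i) (by omega)) (norm_nonneg _) (by norm_num)
      have h3 : ∑ i ∈ range (n + 1), 2 * (((n - i : ℕ) : ℝ) + 1) = (n + 1) * (n + 2) := by
        rw [sum_reflect (fun j => 2 * ((j : ℝ) + 1)) n]
        clear h1 h2 ih
        induction n with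
        | zero => norm_num
        | succ n ih => rw [Finset.sum_range_succ, ih]; push_cast; ring
      have h4 : (0 : ℝ) < (n : ℝ) + 1 := by positivity
      have h5 : ((n : ℝ) + 1) * ‖Rc τ (n + 1)‖ ≤ (n + 1) * (n + 2) := by linarith
      have := le_of_mul_le_mul_left h5 h4
      push_cast; linarith

/-! ### power series with coefficients of linear growth -/

/-- the sum of a power series -/
noncomputable def PS (a : ℕ → ℂ) (x : ℂ) : ℂ := ∑' n, a n * x ^ n

lemma summable_lin_geom {C ρ : ℝ} (h0 : 0 ≤ ρ) (hρ : ρ < 1) :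
    Summable (fun n : ℕ => C * ((n : ℝ) + 1) * ρ ^ n) := by
  have h1 := summable_pow_mul_geometric_of_norm_lt_one 1 (r := ρ) (by rwa [Real.norm_of_nonneg h0])
  have h2 := summable_pow_mul_geometric_of_norm_lt_one 0 (r := ρ) (by rwa [Real.norm_of_nonneg h0])
  refine ((h1.add h2).mul_left C).congr (fun n => ?_)
  simp only [pow_one, pow_zero, one_mul]; ring

lemma summable_PS_norm {a : ℕ → ℂ} {C : ℝ} (ha : ∀ n, ‖a n‖ ≤ C * (n + 1)) {x : ℂ} (hx : ‖x‖ < 1) :
    Summable (fun n => ‖a n * x ^ n‖) := by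
  refine Summable.of_nonneg_of_le (fun n => norm_nonneg _) (fun n => ?_)
    (summable_lin_geom (C := C) (norm_nonneg x) hx)
  rw [norm_mul, norm_pow]
  exact mul_le_mul_of_nonneg_right (ha n) (by positivity)

lemma summable_PS {a : ℕ → ℂ} {C : ℝ} (ha : ∀ n, ‖a n‖ ≤ C * (n + 1)) {x : ℂ} (hx : ‖x‖ < 1) :
    Summable (fun n => a n * x ^ n) := (summable_PS_norm ha hx).of_norm

lemma hasDerivAt_PS {a : ℕ → ℂ} {C : ℝ} (ha : ∀ n, ‖a n‖ ≤ C * (n + 1)) {x : ℂ} (hx : ‖x‖ < 1) :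
    HasDerivAt (PS a) (∑' n : ℕ, ((n : ℂ) + 1) * a (n + 1) * x ^ n) x := by
  obtain ⟨ρ, hxρ, hρ⟩ := exists_between hx
  have hρ0 : 0 < ρ := (norm_nonneg x).trans_lt hxρ
  have hC : 0 ≤ C := by have := ha 0; simp at this; exact (norm_nonneg _).trans this
  set u : ℕ → ℝ := fun n => C * ((n : ℝ) + 1) * ((n : ℝ) * ρ ^ (n - 1)) with hu
  have hsum : Summable u := by
    rw [← summable_nat_add_iff 1]
    have h1 := summable_pow_mul_geometric_of_norm_lt_one 2 (r := ρ)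
      (by rwa [Real.norm_of_nonneg hρ0.le])
    have h2 := summable_pow_mul_geometric_of_norm_lt_one 1 (r := ρ)
      (by rwa [Real.norm_of_nonneg hρ0.le])
    have h3 := summable_pow_mul_geometric_of_norm_lt_one 0 (r := ρ)
      (by rwa [Real.norm_of_nonneg hρ0.le])
    refine (((h1.add (h2.mul_left 3)).add (h3.mul_left 2)).mul_left C).congr (fun n => ?_)
    simp only [hu, Nat.add_sub_cancel]; push_cast; ring
  have key := hasDerivAt_tsum_of_isPreconnected (𝕜 := ℂ) (F := ℂ) (g := fun n z => a n * z ^ n)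
    (g' := fun n z => a n * ((n : ℂ) * z ^ (n - 1))) (t := Metric.ball 0 ρ) hsum
    Metric.isOpen_ball (convex_ball (0 : ℂ) ρ).isPreconnected
    (fun n y _ => (hasDerivAt_pow n y).const_mul (a n)) (fun n y hy => ?_)
    (y₀ := x) (by simpa using hxρ) (summable_PS ha hx) (by simpa using hxρ)
  · unfold PS
    refine key.congr_deriv ?_
    have hs : Summable (fun n => a n * ((n : ℂ) * x ^ (n - 1))) := by
      refine Summable.of_norm_bounded hsum (fun n => ?_)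
      rw [norm_mul, norm_mul, norm_pow, Complex.norm_natCast]
      have : ‖x‖ ^ (n - 1) ≤ ρ ^ (n - 1) := pow_le_pow_left₀ (norm_nonneg _) hxρ.le _
      exact mul_le_mul (ha n) (mul_le_mul_of_nonneg_left this (by positivity)) (by positivity)
        (by positivity)
    rw [hs.tsum_eq_zero_add]
    simp only [Nat.cast_zero, zero_mul, mul_zero, zero_add, Nat.add_sub_cancel]
    refine tsum_congr (fun n => ?_)
    push_cast; ring
  · rw [norm_mul, norm_mul, norm_pow, Complex.norm_natCast]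
    have hy' : ‖y‖ ≤ ρ := by simpa using (Metric.mem_ball.1 hy).le
    have : ‖y‖ ^ (n - 1) ≤ ρ ^ (n - 1) := pow_le_pow_left₀ (norm_nonneg _) hy' _
    exact mul_le_mul (ha n) (mul_le_mul_of_nonneg_left this (by positivity)) (by positivity)
      (by positivity)

/-- the logarithm `∑_{k ≥ 1} τ_k x^k / k` -/
noncomputable def LL (τ : ℕ → ℂ) (x : ℂ) : ℂ := ∑' n : ℕ, τ (n + 1) * x ^ (n + 1) / ((n : ℂ) + 1)

lemma LL_eq_PS {τ : ℕ → ℂ} {B : ℝ} (hτ : ∀ k, ‖τ (k + 1)‖ ≤ B) {x : ℂ} (hx : ‖x‖ < 1) :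
    (∀ n, ‖(if n = 0 then (0 : ℂ) else τ n / n)‖ ≤ B * (n + 1)) ∧
    PS (fun n => if n = 0 then (0 : ℂ) else τ n / n) x = LL τ x := by
  have hB : 0 ≤ B := (norm_nonneg _).trans (hτ 0)
  have hb : ∀ n : ℕ, ‖(if n = 0 then (0 : ℂ) else τ n / n)‖ ≤ B * (n + 1) := by
    intro n
    rcases n with _ | n
    · simpa using hB
    · rw [if_neg (Nat.succ_ne_zero n), norm_div, Complex.norm_natCast]
      have h1 : (1 : ℝ) ≤ ((n + 1 : ℕ) : ℝ) := by push_cast; linarith [Nat.cast_nonneg (α := ℝ) n]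
      calc ‖τ (n + 1)‖ / ((n + 1 : ℕ) : ℝ) ≤ ‖τ (n + 1)‖ := div_le_self (norm_nonneg _) h1
        _ ≤ B := hτ n
        _ ≤ B * (((n + 1 : ℕ) : ℝ) + 1) := by nlinarith
  refine ⟨hb, ?_⟩
  unfold PS LL
  rw [(summable_PS hb hx).tsum_eq_zero_add]
  simp only [if_true, zero_mul, zero_add]
  refine tsum_congr (fun n => ?_)
  rw [if_neg (Nat.succ_ne_zero n)]
  push_cast; ring

lemma hasDerivAt_LL {τ : ℕ → ℂ} {B : ℝ} (hτ : ∀ k, ‖τ (k + 1)‖ ≤ B) {x : ℂ} (hx : ‖x‖ < 1) :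
    HasDerivAt (LL τ) (∑' n, τ (n + 1) * x ^ n) x := by
  have h1 := hasDerivAt_PS (LL_eq_PS hτ hx).1 hx
  have h2 : LL τ =ᶠ[nhds x] PS (fun n => if n = 0 then (0 : ℂ) else τ n / n) := by
    have : Metric.ball (0 : ℂ) 1 ∈ nhds x := Metric.isOpen_ball.mem_nhds (by simpa using hx)
    filter_upwards [this] with y hy
    exact ((LL_eq_PS hτ (x := y) (by simpa using hy)).2).symm
  refine (h1.congr_of_eventuallyEq h2).congr_deriv ?_
  refine tsum_congr (fun n => ?_)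
  rw [if_neg (Nat.succ_ne_zero n)]
  have h : ((n : ℂ) + 1) ≠ 0 := by exact_mod_cast Nat.succ_ne_zero n
  push_cast; field_simp

lemma LL_zero (τ : ℕ → ℂ) : LL τ 0 = 0 := by
  unfold LL; simp

lemma PS_Rc {τ : ℕ → ℂ} (hτ : ∀ k, ‖τ (k + 1)‖ ≤ 2) {x : ℂ} (hx : ‖x‖ < 1) :
    PS (Rc τ) x = Complex.exp (LL τ x) := by
  have hR : ∀ n, ‖Rc τ n‖ ≤ 1 * ((n : ℝ) + 1) := fun n => by rw [one_mul]; exact Rc_norm_le hτ n
  have hτ' : ∀ n, ‖τ (n + 1)‖ ≤ 2 * ((n : ℝ) + 1) := fun n =>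
    (hτ n).trans (by nlinarith [Nat.cast_nonneg (α := ℝ) n])
  have hder : ∀ y ∈ Metric.ball (0 : ℂ) 1,
      HasDerivAt (fun z => PS (Rc τ) z * Complex.exp (-(LL τ z))) 0 y := by
    intro y hy
    have hy' : ‖y‖ < 1 := by simpa using hy
    have h1 := hasDerivAt_PS hR hy'
    have h2 := (hasDerivAt_LL hτ hy').neg.cexp
    have h3 : ∑' n : ℕ, ((n : ℂ) + 1) * Rc τ (n + 1) * y ^ n
        = (∑' n, τ (n + 1) * y ^ n) * PS (Rc τ) y := by
      unfold PS
      rw [tsum_mul_tsum_eq_tsum_sum_range_of_summable_norm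
        (summable_PS_norm (a := fun n => τ (n + 1)) hτ' hy') (summable_PS_norm hR hy')]
      refine tsum_congr (fun n => ?_)
      rw [Rc_succ, Finset.sum_mul]
      refine Finset.sum_congr rfl (fun i hi => ?_)
      have : i + (n - i) = n := by have := Finset.mem_range.1 hi; omega
      calc τ (i + 1) * Rc τ (n - i) * y ^ n = τ (i + 1) * Rc τ (n - i) * (y ^ i * y ^ (n - i)) := by
            rw [← pow_add, this]
        _ = _ := by ring
    refine (h1.mul h2).congr_deriv ?_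
    rw [h3]; ring
  have hconst := Metric.isOpen_ball.is_const_of_deriv_eq_zero
    (convex_ball (0 : ℂ) 1).isPreconnected
    (fun y hy => (hder y hy).differentiableAt.differentiableWithinAt)
    (fun y hy => (hder y hy).deriv) (x := x) (y := 0) (by simpa using hx) (by simp)
  have h0 : PS (Rc τ) 0 = 1 := by
    unfold PS
    rw [tsum_eq_single 0]
    · simp
    · intro n hn; simp [hn]
  rw [h0, LL_zero, neg_zero, Complex.exp_zero, mul_one] at hconst
  have := congrArg (· * Complex.exp (LL τ x)) hconst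
  simp only [mul_assoc, ← Complex.exp_add, neg_add_cancel, Complex.exp_zero, mul_one, one_mul] at this
  exact this

end Pool.Agent.Hhelper22.Turan
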