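import Mathlib
import Pool.Agent.Hhelper22.Turan.Basic

/-!
# Sup bounds for `exp (-∑ s_k x^k / k) / (1 - x)` on circles
-/

open Finset

namespace Pool.Agent.Hhelper22.Turan

lemma norm_pow_sub_one_le {z : ℂ} (hz : ‖z‖ = 1) (k : ℕ) : ‖z ^ k - 1‖ ≤ k * ‖z - 1‖ := by
  induction k with
  | zero => simp
  | succ k ih =>
    have e : z ^ (k + 1) - 1 = z * (z ^ k - 1) + (z - 1) := by ring
    rw [e]
    calc ‖z * (z ^ k - 1) + (z - 1)‖ ≤ ‖z * (z ^ k - 1)‖ + ‖z - 1‖ := norm_add_le _ _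
      _ = ‖z ^ k - 1‖ + ‖z - 1‖ := by rw [norm_mul, hz, one_mul]
      _ ≤ k * ‖z - 1‖ + ‖z - 1‖ := by linarith
      _ = _ := by push_cast; ring

lemma norm_sub_one_sq {w : ℂ} (hw : ‖w‖ = 1) : ‖w - 1‖ ^ 2 = 2 - 2 * w.re := by
  have h1 : ‖w‖ ^ 2 = w.re ^ 2 + w.im ^ 2 := by
    rw [← Complex.normSq_eq_norm_sq, Complex.normSq_apply]; ring
  have h2 : ‖w - 1‖ ^ 2 = (w.re - 1) ^ 2 + w.im ^ 2 := by
    rw [← Complex.normSq_eq_norm_sq, Complex.normSq_apply]; simp; ring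
  rw [hw] at h1
  rw [h2]; nlinarith

lemma norm_sub_one_le {w : ℂ} (hw : ‖w‖ = 1) : ‖w - 1‖ ≤ √2 - w.re / √2 := by
  have h := norm_sub_one_sq hw
  have h2 : (0:ℝ) < √2 := by positivity
  have h22 : √2 * √2 = 2 := Real.mul_self_sqrt (by norm_num)
  have e : w.re = (2 - ‖w - 1‖ ^ 2) / 2 := by linarith
  rw [e, ← sub_nonneg]
  have : √2 - (2 - ‖w - 1‖ ^ 2) / 2 / √2 - ‖w - 1‖ = (‖w - 1‖ - √2) ^ 2 / (2 * √2) := by
    field_simp
    nlinarith
  rw [this]; positivity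

/-- the weight `W(r,z) = ∑ r^k |z^k - 1| / k` -/
noncomputable def WW (r : ℝ) (z : ℂ) : ℝ := ∑' n : ℕ, r ^ (n + 1) / ((n : ℝ) + 1) * ‖z ^ (n + 1) - 1‖

section
variable {r : ℝ} {z : ℂ} (hr0 : 0 ≤ r) (hr1 : r < 1) (hz : ‖z‖ = 1)

include hr0 hr1 in
lemma norm_rz_lt (hz : ‖z‖ = 1) : ‖(r : ℂ) * z‖ < 1 := by
  rw [norm_mul, hz, mul_one, Complex.norm_real, Real.norm_of_nonneg hr0]; exact hr1

include hr0 hr1 in
lemma hasSum_geom_div : HasSum (fun n : ℕ => r ^ (n + 1) / ((n : ℝ) + 1)) (-Real.log (1 - r)) :=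
  Real.hasSum_pow_div_log_of_abs_lt_one (by rwa [abs_of_nonneg hr0])

include hr0 hr1 hz in
lemma hasSum_re_pow : HasSum (fun n : ℕ => r ^ (n + 1) / ((n : ℝ) + 1) * (z ^ (n + 1)).re)
    (-Real.log ‖1 - (r : ℂ) * z‖) := by
  have h1 := Complex.hasSum_taylorSeries_neg_log' (norm_rz_lt hr0 hr1 hz)
  have h2 := Complex.hasSum_re h1
  rw [Complex.neg_re, Complex.log_re] at h2
  have e : (fun n : ℕ => (((r : ℂ) * z) ^ (n + 1) / ((n : ℂ) + 1)).re)
      = fun n : ℕ => r ^ (n + 1) / ((n : ℝ) + 1) * (z ^ (n + 1)).re := by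
    funext n
    have : ((r : ℂ) * z) ^ (n + 1) / ((n : ℂ) + 1)
        = ((r ^ (n + 1) / ((n : ℝ) + 1) : ℝ) : ℂ) * z ^ (n + 1) := by
      push_cast; rw [mul_pow]; ring
    rw [this, Complex.re_ofReal_mul]
  rw [e] at h2
  exact h2

include hr0 hr1 hz in
lemma summable_WW : Summable (fun n : ℕ => r ^ (n + 1) / ((n : ℝ) + 1) * ‖z ^ (n + 1) - 1‖) := by
  refine Summable.of_nonneg_of_le (fun n => by positivity) (fun n => ?_)
    ((hasSum_geom_div hr0 hr1).summable.mul_right 2)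
  refine mul_le_mul_of_nonneg_left ?_ (by positivity)
  calc ‖z ^ (n + 1) - 1‖ ≤ ‖z ^ (n + 1)‖ + ‖(1 : ℂ)‖ := norm_sub_le _ _
    _ = 2 := by rw [norm_pow, hz]; norm_num

include hr0 hz in
lemma one_sub_le_norm : 1 - r ≤ ‖1 - (r : ℂ) * z‖ := by
  have h1 : ‖(r : ℂ) * z‖ = r := by
    rw [norm_mul, hz, mul_one, Complex.norm_real, Real.norm_of_nonneg hr0]
  calc 1 - r = ‖(1 : ℂ)‖ - ‖(r : ℂ) * z‖ := by rw [h1]; simp
    _ ≤ ‖1 - (r : ℂ) * z‖ := norm_sub_norm_le _ _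

include hr0 hr1 hz in
lemma norm_sub_one_le_two_mul : ‖z - 1‖ ≤ 2 * ‖1 - (r : ℂ) * z‖ := by
  have h1 := one_sub_le_norm hr0 hz
  have e : z - 1 = ((1 - r : ℝ) : ℂ) * z - (1 - (r : ℂ) * z) := by push_cast; ring
  calc ‖z - 1‖ = ‖((1 - r : ℝ) : ℂ) * z - (1 - (r : ℂ) * z)‖ := by rw [← e]
    _ ≤ ‖((1 - r : ℝ) : ℂ) * z‖ + ‖1 - (r : ℂ) * z‖ := norm_sub_le _ _
    _ = (1 - r) + ‖1 - (r : ℂ) * z‖ := by
        rw [norm_mul, hz, mul_one, Complex.norm_real, Real.norm_of_nonneg (by linarith)]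
    _ ≤ _ := by linarith

include hr0 hr1 hz in
theorem WW_le : WW r z ≤ √2 * Real.log (‖1 - (r : ℂ) * z‖ / (1 - r)) + 3 := by
  have h1r : 0 < 1 - r := by linarith
  have hX := one_sub_le_norm hr0 hz
  have hX0 : 0 < ‖1 - (r : ℂ) * z‖ := h1r.trans_le hX
  have hs2 : (0:ℝ) < √2 := by positivity
  have hs22 : √2 * √2 = 2 := Real.mul_self_sqrt (by norm_num)
  have hlog0 : 0 ≤ Real.log (‖1 - (r : ℂ) * z‖ / (1 - r)) :=
    Real.log_nonneg ((one_le_div h1r).2 hX)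
  set u := ‖z - 1‖ with hu
  have hu0 : 0 ≤ u := norm_nonneg _
  have hwu : ∀ n : ℕ, r ^ (n + 1) / ((n : ℝ) + 1) * ‖z ^ (n + 1) - 1‖ ≤ r ^ (n + 1) * u := by
    intro n
    have h1 := norm_pow_sub_one_le hz (n + 1)
    have hn : (0:ℝ) < (n : ℝ) + 1 := by positivity
    calc r ^ (n + 1) / ((n : ℝ) + 1) * ‖z ^ (n + 1) - 1‖
        ≤ r ^ (n + 1) / ((n : ℝ) + 1) * (((n + 1 : ℕ) : ℝ) * u) :=
          mul_le_mul_of_nonneg_left h1 (by positivity)
      _ = r ^ (n + 1) * u := by push_cast; field_simp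
  have hW := (summable_WW hr0 hr1 hz).hasSum
  rcases le_or_gt u (1 - r) with hcase | hcase
  · -- easy case
    have hsum : HasSum (fun n : ℕ => r ^ (n + 1) * u) ((1 - r)⁻¹ * r * u) := by
      have h3 := ((hasSum_geometric_of_lt_one hr0 hr1).mul_right r).mul_right u
      have e : (fun n : ℕ => r ^ n * r * u) = fun n : ℕ => r ^ (n + 1) * u := by
        funext n; rw [pow_succ]
      rw [e] at h3; exact h3
    have h2 : WW r z ≤ (1 - r)⁻¹ * r * u := hasSum_le hwu hW hsum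
    have h3 : (1 - r)⁻¹ * r * u ≤ 1 := by
      have : (1 - r)⁻¹ * r * u ≤ (1 - r)⁻¹ * 1 * (1 - r) := by gcongr
      rw [mul_one, inv_mul_cancel₀ h1r.ne'] at this
      exact this
    have : 0 ≤ √2 * Real.log (‖1 - (r : ℂ) * z‖ / (1 - r)) := by positivity
    linarith
  · have hu1 : 0 < u := h1r.trans hcase
    set K := ⌊1 / u⌋₊ with hK
    have hKu : (K : ℝ) * u ≤ 1 := by
      have := Nat.floor_le (show 0 ≤ 1 / u by positivity)
      calc (K : ℝ) * u ≤ (1 / u) * u := by gcongr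
        _ = 1 := by field_simp
    have hK1 : 1 / u < (K : ℝ) + 1 := Nat.lt_floor_add_one _
    set G : ℕ → ℝ := fun n => r ^ (n + 1) / ((n : ℝ) + 1) * (√2 - (z ^ (n + 1)).re / √2) with hG
    have hGsum : HasSum G (√2 * (-Real.log (1 - r)) - (-Real.log ‖1 - (r : ℂ) * z‖) / √2) := by
      have h3 := ((hasSum_geom_div hr0 hr1).mul_left √2).sub ((hasSum_re_pow hr0 hr1 hz).div_const √2)
      have e : (fun n : ℕ => √2 * (r ^ (n + 1) / ((n : ℝ) + 1))
          - r ^ (n + 1) / ((n : ℝ) + 1) * (z ^ (n + 1)).re / √2) = G := by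
        funext n; simp only [hG]; ring
      rw [e] at h3; exact h3
    have hwG : ∀ n : ℕ, r ^ (n + 1) / ((n : ℝ) + 1) * ‖z ^ (n + 1) - 1‖ ≤ G n := by
      intro n
      refine mul_le_mul_of_nonneg_left (norm_sub_one_le (by rw [norm_pow, hz, one_pow])) ?_
      positivity
    have hdiff : ∑ n ∈ range K, (G n - r ^ (n + 1) / ((n : ℝ) + 1) * ‖z ^ (n + 1) - 1‖)
        ≤ (√2 * (-Real.log (1 - r)) - (-Real.log ‖1 - (r : ℂ) * z‖) / √2) - WW r z :=
      sum_le_hasSum _ (fun n _ => sub_nonneg.2 (hwG n)) (hGsum.sub hW)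
    rw [Finset.sum_sub_distrib] at hdiff
    have hw1 : ∑ n ∈ range K, r ^ (n + 1) / ((n : ℝ) + 1) * ‖z ^ (n + 1) - 1‖ ≤ 1 := by
      calc ∑ n ∈ range K, r ^ (n + 1) / ((n : ℝ) + 1) * ‖z ^ (n + 1) - 1‖
          ≤ ∑ n ∈ range K, u := by
            refine Finset.sum_le_sum (fun n _ => (hwu n).trans ?_)
            have : r ^ (n + 1) ≤ 1 := pow_le_one₀ hr0 hr1.le
            nlinarith
        _ = K * u := by rw [Finset.sum_const, Finset.card_range, nsmul_eq_mul]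
        _ ≤ 1 := hKu
    have hG1 : (Real.log (1 / u) - 1) / √2 ≤ ∑ n ∈ range K, G n := by
      have h4 : ∀ n ∈ range K, (1 / ((n : ℝ) + 1) - (1 - r)) / √2 ≤ G n := by
        intro n _
        have hn : (0:ℝ) < (n : ℝ) + 1 := by positivity
        have hb : 1 + ((n + 1 : ℕ) : ℝ) * (r - 1) ≤ (1 + (r - 1)) ^ (n + 1) :=
          one_add_mul_le_pow (by linarith) (n + 1)
        have hb' : 1 - ((n : ℝ) + 1) * (1 - r) ≤ r ^ (n + 1) := by
          have e : (1 + (r - 1)) = r := by ring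
          rw [e] at hb; push_cast at hb; linarith
        have hre : (z ^ (n + 1)).re ≤ 1 := by
          calc (z ^ (n + 1)).re ≤ ‖z ^ (n + 1)‖ := Complex.re_le_norm _
            _ = 1 := by rw [norm_pow, hz, one_pow]
        have h5 : 1 / √2 ≤ √2 - (z ^ (n + 1)).re / √2 := by
          have e : √2 = 2 / √2 := by field_simp; linarith
          have : √2 - (z ^ (n + 1)).re / √2 - 1 / √2 = (1 - (z ^ (n + 1)).re) / √2 := by
            nth_rewrite 1 [e]; ring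
          have h6 : 0 ≤ (1 - (z ^ (n + 1)).re) / √2 := div_nonneg (by linarith) hs2.le
          linarith
        have h7 : 1 / ((n : ℝ) + 1) - (1 - r) ≤ r ^ (n + 1) / ((n : ℝ) + 1) := by
          rw [le_div_iff₀ hn]
          have : (1 / ((n : ℝ) + 1) - (1 - r)) * ((n : ℝ) + 1) = 1 - ((n : ℝ) + 1) * (1 - r) := by
            field_simp
          linarith
        calc (1 / ((n : ℝ) + 1) - (1 - r)) / √2 ≤ (r ^ (n + 1) / ((n : ℝ) + 1)) / √2 := by gcongr
          _ = (r ^ (n + 1) / ((n : ℝ) + 1)) * (1 / √2) := by ring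
          _ ≤ G n := mul_le_mul_of_nonneg_left h5 (by positivity)
      refine le_trans ?_ (Finset.sum_le_sum h4)
      rw [← Finset.sum_div]
      refine div_le_div_of_nonneg_right ?_ hs2.le
      rw [Finset.sum_sub_distrib, Finset.sum_const, Finset.card_range, nsmul_eq_mul]
      have hh := log_add_one_le_harmonic K
      have hh2 : ((harmonic K : ℚ) : ℝ) = ∑ n ∈ range K, 1 / ((n : ℝ) + 1) := by
        unfold harmonic
        push_cast
        exact Finset.sum_congr rfl (fun n _ => by rw [one_div])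
      rw [hh2] at hh
      have h8 : Real.log (1 / u) ≤ Real.log ((K : ℝ) + 1) :=
        Real.log_le_log (by positivity) hK1.le
      have h9 : (K : ℝ) * (1 - r) ≤ 1 := by
        calc (K : ℝ) * (1 - r) ≤ K * u := by gcongr
          _ ≤ 1 := hKu
      have hh3 : Real.log ((K : ℝ) + 1) ≤ ∑ n ∈ range K, 1 / ((n : ℝ) + 1) := by
        exact_mod_cast hh
      linarith
    -- assemble
    have hlogu : Real.log u ≤ Real.log 2 + Real.log ‖1 - (r : ℂ) * z‖ := by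
      rw [← Real.log_mul (by norm_num) hX0.ne']
      exact Real.log_le_log hu1 (norm_sub_one_le_two_mul hr0 hr1 hz)
    have hlog1u : Real.log (1 / u) = - Real.log u := by rw [one_div, Real.log_inv]
    have hlogdiv : Real.log (‖1 - (r : ℂ) * z‖ / (1 - r))
        = Real.log ‖1 - (r : ℂ) * z‖ - Real.log (1 - r) := Real.log_div hX0.ne' h1r.ne'
    rw [hlogdiv]
    rw [hlog1u] at hG1
    have hl2 : Real.log 2 < 0.7 := by linarith [Real.log_two_lt_d9]
    set X := Real.log ‖1 - (r : ℂ) * z‖ with hXdef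
    set Y := Real.log (1 - r) with hYdef
    have e1 : X / √2 + X / √2 = √2 * X := by
      field_simp
      rw [Real.sq_sqrt (by norm_num)]; ring
    have e2 : (-(Real.log u) - 1) / √2 ≥ (-(0.7 + X) - 1) / √2 := by
      apply div_le_div_of_nonneg_right _ hs2.le
      linarith
    have e3 : (-(0.7 + X) - 1) / √2 = - (X / √2) - 1.7 / √2 := by ring
    have e4 : 1.7 / √2 ≤ 1.7 := by
      apply div_le_self (by norm_num)
      have : (1:ℝ) ≤ √2 := by
        rw [show (1:ℝ) = √1 by simp]; exact Real.sqrt_le_sqrt (by norm_num)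
      exact this
    have e5 : √2 * (-Y) - (-X) / √2 = X / √2 - √2 * Y := by ring
    rw [e5] at hdiff
    linarith

end

end Pool.Agent.Hhelper22.Turan
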