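import Mathlib
import Pool.Agent.Hhelper22.Turan.SupBound

/-!
# Sup bounds for the generating function
-/

open Finset

namespace Pool.Agent.Hhelper22.Turan

/-- the sequence `T(s)`: coefficients of `exp (-∑ s_k x^k / k) / (1 - x)` -/
noncomputable def TT (s : ℕ → ℂ) : ℕ → ℂ := Rc (fun k => 1 - s k)

/-- `s` is bounded by `σ` (at the indices that matter) -/
def Bdd (s : ℕ → ℂ) (σ : ℝ) : Prop := ∀ k, ‖s (k + 1)‖ ≤ σ

section
variable {s : ℕ → ℂ} {σ : ℝ}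

lemma Bdd.nonneg (hs : Bdd s σ) : 0 ≤ σ := (norm_nonneg _).trans (hs 0)

lemma Bdd.two (hs : Bdd s σ) (hσ : σ ≤ 1) : ∀ k, ‖(fun k => 1 - s k) (k + 1)‖ ≤ 2 := by
  intro k
  calc ‖1 - s (k + 1)‖ ≤ ‖(1 : ℂ)‖ + ‖s (k + 1)‖ := norm_sub_le _ _
    _ ≤ 1 + 1 := by rw [norm_one]; linarith [hs k]
    _ = 2 := by norm_num

lemma norm_natCast_add_one (n : ℕ) : ‖((n : ℂ) + 1)‖ = (n : ℝ) + 1 := by
  have : ((n : ℂ) + 1) = ((n + 1 : ℕ) : ℂ) := by push_cast; ring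
  rw [this, Complex.norm_natCast]; push_cast; ring

lemma summable_LL (hs : Bdd s σ) {x : ℂ} (hx : ‖x‖ < 1) :
    Summable (fun n : ℕ => s (n + 1) * x ^ (n + 1) / ((n : ℂ) + 1)) := by
  apply Summable.of_norm_bounded (g := fun n : ℕ => σ * (‖x‖ ^ (n + 1) / ((n : ℝ) + 1)))
    ((hasSum_geom_div (norm_nonneg x) hx).summable.mul_left σ)
  intro n
  rw [norm_div, norm_mul, norm_pow, norm_natCast_add_one, mul_div_assoc]
  exact mul_le_mul_of_nonneg_right (hs n) (by positivity)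

lemma LL_one {x : ℂ} (hx : ‖x‖ < 1) : LL (fun _ => 1) x = -Complex.log (1 - x) := by
  unfold LL
  rw [← (Complex.hasSum_taylorSeries_neg_log' hx).tsum_eq]
  refine tsum_congr (fun n => by rw [one_mul])

lemma LL_one_sub (hs : Bdd s σ) {x : ℂ} (hx : ‖x‖ < 1) :
    LL (fun k => 1 - s k) x = -Complex.log (1 - x) - LL s x := by
  rw [← LL_one hx]
  unfold LL
  rw [← Summable.tsum_sub (summable_LL (s := fun _ => 1) (σ := 1) (fun k => by simp) hx)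
    (summable_LL hs hx)]
  refine tsum_congr (fun n => by ring)

lemma PS_TT (hs : Bdd s σ) (hσ : σ ≤ 1) {x : ℂ} (hx : ‖x‖ < 1) :
    PS (TT s) x = (1 - x)⁻¹ * Complex.exp (-(LL s x)) := by
  unfold TT
  rw [PS_Rc (hs.two hσ) hx, LL_one_sub hs hx, sub_eq_add_neg, Complex.exp_add, Complex.exp_neg,
    Complex.exp_log]
  intro h
  have : x = 1 := by linear_combination -h
  rw [this, norm_one] at hx
  exact lt_irrefl _ hx

lemma norm_PS_TT (hs : Bdd s σ) (hσ : σ ≤ 1) {x : ℂ} (hx : ‖x‖ < 1) :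
    ‖PS (TT s) x‖ = Real.exp (-(LL s x).re) / ‖1 - x‖ := by
  rw [PS_TT hs hσ hx, norm_mul, norm_inv, Complex.norm_exp, Complex.neg_re]; ring

/-- `E(s,r) = |exp (-∑ s_k r^k / k)|` -/
noncomputable def EE (s : ℕ → ℂ) (r : ℝ) : ℝ := Real.exp (-(LL s (r : ℂ)).re)

/-- `m(s,r) = E(s,r) / (1 - r) = |T(s)(r)|` -/
noncomputable def mm (s : ℕ → ℂ) (r : ℝ) : ℝ := EE s r / (1 - r)

lemma EE_pos (s : ℕ → ℂ) (r : ℝ) : 0 < EE s r := Real.exp_pos _

lemma mm_pos (s : ℕ → ℂ) {r : ℝ} (hr : r < 1) : 0 < mm s r := div_pos (EE_pos s r) (by linarith)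

lemma norm_LL_sub_le (hs : Bdd s σ) {r : ℝ} (hr0 : 0 ≤ r) (hr1 : r < 1) {z : ℂ} (hz : ‖z‖ = 1) :
    ‖LL s ((r : ℂ) * z) - LL s (r : ℂ)‖ ≤ σ * WW r z := by
  have hx1 := norm_rz_lt hr0 hr1 hz
  have hx2 : ‖(r : ℂ)‖ < 1 := by rwa [Complex.norm_real, Real.norm_of_nonneg hr0]
  unfold LL WW
  rw [← Summable.tsum_sub (summable_LL hs hx1) (summable_LL hs hx2), ← tsum_mul_left]
  have hW := (summable_WW hr0 hr1 hz).mul_left σ
  refine tsum_of_norm_bounded hW.hasSum (fun n => ?_)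
  have e : s (n + 1) * ((r : ℂ) * z) ^ (n + 1) / ((n : ℂ) + 1)
      - s (n + 1) * (r : ℂ) ^ (n + 1) / ((n : ℂ) + 1)
      = s (n + 1) * ((r : ℂ) ^ (n + 1) / ((n : ℂ) + 1) * (z ^ (n + 1) - 1)) := by
    rw [mul_pow]; ring
  rw [e, norm_mul, norm_mul, norm_div, norm_pow, Complex.norm_real, Real.norm_of_nonneg hr0,
    norm_natCast_add_one]
  exact mul_le_mul_of_nonneg_right (hs n) (by positivity)

lemma abs_re_LL_sub_le (hs : Bdd s σ) {r r' : ℝ} (hr0 : 0 ≤ r) (hrr : r ≤ r') (hr1 : r' < 1) :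
    |(LL s (r' : ℂ)).re - (LL s (r : ℂ)).re| ≤ σ * Real.log ((1 - r) / (1 - r')) := by
  have hr0' : 0 ≤ r' := hr0.trans hrr
  have hx1 : ‖(r' : ℂ)‖ < 1 := by rwa [Complex.norm_real, Real.norm_of_nonneg hr0']
  have hx2 : ‖(r : ℂ)‖ < 1 := by
    rw [Complex.norm_real, Real.norm_of_nonneg hr0]; linarith
  rw [← Complex.sub_re]
  refine (Complex.abs_re_le_norm _).trans ?_
  unfold LL
  rw [← Summable.tsum_sub (summable_LL hs hx1) (summable_LL hs hx2)]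
  have h1 := (hasSum_geom_div hr0' hr1).sub (hasSum_geom_div hr0 (hrr.trans_lt hr1))
  have h2 : -Real.log (1 - r') - -Real.log (1 - r) = Real.log ((1 - r) / (1 - r')) := by
    rw [Real.log_div (by linarith) (by linarith)]; ring
  rw [h2] at h1
  refine tsum_of_norm_bounded (h1.mul_left σ) (fun n => ?_)
  have e : s (n + 1) * (r' : ℂ) ^ (n + 1) / ((n : ℂ) + 1)
      - s (n + 1) * (r : ℂ) ^ (n + 1) / ((n : ℂ) + 1)
      = s (n + 1) * ((r' ^ (n + 1) / ((n : ℝ) + 1) - r ^ (n + 1) / ((n : ℝ) + 1) : ℝ) : ℂ) := by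
    push_cast; ring
  rw [e, norm_mul, Complex.norm_real]
  have h3 : 0 ≤ r' ^ (n + 1) / ((n : ℝ) + 1) - r ^ (n + 1) / ((n : ℝ) + 1) := by
    rw [← sub_div]
    exact div_nonneg (sub_nonneg.2 (pow_le_pow_left₀ hr0 hrr _)) (by positivity)
  rw [Real.norm_of_nonneg h3]
  exact mul_le_mul_of_nonneg_right (hs n) h3

lemma LL_ofReal_zero (s : ℕ → ℂ) : LL s ((0 : ℝ) : ℂ) = 0 := by
  rw [Complex.ofReal_zero]; exact LL_zero s

/-- `E(s,r') ≤ E(s,r) ((1-r)/(1-r'))^σ` and conversely -/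
lemma EE_le (hs : Bdd s σ) {r r' : ℝ} (hr0 : 0 ≤ r) (hrr : r ≤ r') (hr1 : r' < 1) :
    EE s r' ≤ EE s r * ((1 - r) / (1 - r')) ^ σ ∧ EE s r ≤ EE s r' * ((1 - r) / (1 - r')) ^ σ := by
  have h := abs_le.1 (abs_re_LL_sub_le hs hr0 hrr hr1)
  have hpos : 0 < (1 - r) / (1 - r') := div_pos (by linarith) (by linarith)
  unfold EE
  rw [Real.rpow_def_of_pos hpos, ← Real.exp_add, ← Real.exp_add]
  constructor <;> apply Real.exp_le_exp.2 <;> nlinarith [h.1, h.2]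

lemma mm_mono (hs : Bdd s σ) {r r' : ℝ} (hr0 : 0 ≤ r) (hrr : r ≤ r') (hr1 : r' < 1) :
    mm s r ≤ mm s r' * ((1 - r') / (1 - r)) ^ (1 - σ) := by
  have h := (EE_le hs hr0 hrr hr1).2
  have h1 : 0 < 1 - r := by linarith
  have h2 : 0 < 1 - r' := by linarith
  unfold mm
  rw [Real.rpow_sub (by positivity), Real.rpow_one]
  have e : ((1 - r) / (1 - r')) ^ σ = (((1 - r') / (1 - r)) ^ σ)⁻¹ := by
    rw [← Real.inv_rpow (by positivity), inv_div]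
  rw [e] at h
  calc EE s r / (1 - r) ≤ (EE s r' * (((1 - r') / (1 - r)) ^ σ)⁻¹) / (1 - r) := by gcongr
    _ = _ := by field_simp

lemma mm_lower (hs : Bdd s σ) {r r' : ℝ} (hr0 : 0 ≤ r) (hrr : r ≤ r') (hr1 : r' < 1) :
    mm s r' * ((1 - r') / (1 - r)) ^ (1 + σ) ≤ mm s r := by
  have h := (EE_le hs hr0 hrr hr1).1
  have h1 : 0 < 1 - r := by linarith
  have h2 : 0 < 1 - r' := by linarith
  unfold mm
  rw [Real.rpow_add (by positivity), Real.rpow_one]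
  have e : ((1 - r) / (1 - r')) ^ σ = (((1 - r') / (1 - r)) ^ σ)⁻¹ := by
    rw [← Real.inv_rpow (by positivity), inv_div]
  rw [e] at h
  have hp : 0 < ((1 - r') / (1 - r)) ^ σ := by positivity
  calc EE s r' / (1 - r') * ((1 - r') / (1 - r) * ((1 - r') / (1 - r)) ^ σ)
      = EE s r' * ((1 - r') / (1 - r)) ^ σ / (1 - r) := by field_simp
    _ ≤ (EE s r * (((1 - r') / (1 - r)) ^ σ)⁻¹) * ((1 - r') / (1 - r)) ^ σ / (1 - r) := by gcongr
    _ = _ := by field_simp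

/-- main sup bound -/
lemma norm_PS_TT_le (hs : Bdd s σ) (hσ : σ ≤ 1) {c : ℝ} (hc : √2 * σ + c ≤ 1) {r : ℝ}
    (hr0 : 0 ≤ r) (hr1 : r < 1) {z : ℂ} (hz : ‖z‖ = 1) :
    ‖PS (TT s) ((r : ℂ) * z)‖ ≤
      Real.exp 3 * mm s r * (‖1 - (r : ℂ) * z‖ / (1 - r)) ^ (-c) := by
  have hx1 := norm_rz_lt hr0 hr1 hz
  have hσ0 := hs.nonneg
  have h1r : 0 < 1 - r := by linarith
  have hX := one_sub_le_norm hr0 hz
  have hX0 : 0 < ‖1 - (r : ℂ) * z‖ := h1r.trans_le hX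
  rw [norm_PS_TT hs hσ hx1]
  set X := ‖1 - (r : ℂ) * z‖ with hXdef
  have hy1 : 1 ≤ X / (1 - r) := (one_le_div h1r).2 hX
  have hlog : 0 ≤ Real.log (X / (1 - r)) := Real.log_nonneg hy1
  have h1 : -(LL s ((r : ℂ) * z)).re ≤ -(LL s (r : ℂ)).re + σ * WW r z := by
    have h2 := (abs_le.1 ((Complex.abs_re_le_norm _).trans (norm_LL_sub_le hs hr0 hr1 hz))).1
    rw [Complex.sub_re] at h2
    linarith
  have h2 := WW_le hr0 hr1 hz
  rw [← hXdef] at h2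
  have h3 : σ * WW r z ≤ √2 * σ * Real.log (X / (1 - r)) + 3 := by
    have : σ * WW r z ≤ σ * (√2 * Real.log (X / (1 - r)) + 3) := mul_le_mul_of_nonneg_left h2 hσ0
    nlinarith
  have h4 : Real.exp (-(LL s ((r : ℂ) * z)).re) ≤
      EE s r * (Real.exp 3 * (X / (1 - r)) ^ (1 - c)) := by
    rw [Real.rpow_def_of_pos (by positivity)]
    unfold EE
    rw [← Real.exp_add, ← Real.exp_add]
    apply Real.exp_le_exp.2
    have h5 : √2 * σ * Real.log (X / (1 - r)) ≤ (1 - c) * Real.log (X / (1 - r)) :=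
      mul_le_mul_of_nonneg_right (by linarith) hlog
    linarith
  unfold mm
  have e : (X / (1 - r)) ^ (1 - c) = (X / (1 - r)) * (X / (1 - r)) ^ (-c) := by
    rw [show (1 - c) = 1 + (-c) by ring, Real.rpow_add (by positivity), Real.rpow_one]
  rw [e] at h4
  calc Real.exp (-(LL s ((r : ℂ) * z)).re) / X
      ≤ EE s r * (Real.exp 3 * ((X / (1 - r)) * (X / (1 - r)) ^ (-c))) / X := by gcongr
    _ = _ := by field_simp

/-- weaker form without the decay -/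
lemma norm_PS_TT_le' (hs : Bdd s σ) (hσ : √2 * σ ≤ 1) {r : ℝ}
    (hr0 : 0 ≤ r) (hr1 : r < 1) {z : ℂ} (hz : ‖z‖ = 1) :
    ‖PS (TT s) ((r : ℂ) * z)‖ ≤ Real.exp 3 * mm s r := by
  have hσ1 : σ ≤ 1 := by
    have : (1:ℝ) ≤ √2 := by
      rw [show (1:ℝ) = √1 by simp]; exact Real.sqrt_le_sqrt (by norm_num)
    nlinarith [hs.nonneg]
  have := norm_PS_TT_le hs hσ1 (c := 0) (by linarith) hr0 hr1 hz
  simpa using this

end

end Pool.Agent.Hhelper22.Turan
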