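import Mathlib

/-!
# A convolution inequality: `‖a * b‖_{ℓ²} ≤ sup_{|z|=1} |∑ a_n z^n| ⬝ ‖b‖_{ℓ²}`
-/

open Finset MeasureTheory AddCircle

namespace Pool.Agent.Hhelper22.Turan

local instance factOnePos : Fact ((0 : ℝ) < 1) := ⟨one_pos⟩

/-- the continuous function on the circle with coefficients `a` -/
noncomputable def FF (a : ℕ → ℂ) : C(AddCircle (1 : ℝ), ℂ) := ∑' n : ℕ, a n • fourier (n : ℤ)

lemma summable_FF {a : ℕ → ℂ} (ha : Summable (fun n => ‖a n‖)) :
    Summable (fun n : ℕ => a n • (fourier (n : ℤ) : C(AddCircle (1 : ℝ), ℂ))) := by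
  apply Summable.of_norm
  refine ha.congr (fun n => ?_)
  rw [norm_smul, fourier_norm, mul_one]

/-- the coefficient functional -/
noncomputable def coefCLM (m : ℤ) : C(AddCircle (1 : ℝ), ℂ) →L[ℂ] ℂ :=
  (innerSL ℂ (fourierLp (T := (1 : ℝ)) 2 m)).comp (ContinuousMap.toLp 2 haarAddCircle ℂ)

lemma coefCLM_apply (m : ℤ) (f : C(AddCircle (1 : ℝ), ℂ)) : coefCLM m f = fourierCoeff f m := by
  rw [← fourierCoeff_toLp, ← fourierBasis_repr, HilbertBasis.repr_apply_apply, coe_fourierBasis]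
  rfl

lemma fourierCoeff_FF {a : ℕ → ℂ} (ha : Summable (fun n => ‖a n‖)) (m : ℤ) :
    fourierCoeff (FF a) m = ∑' n : ℕ, a n * (Pi.single (n : ℤ) (1 : ℂ) : ℤ → ℂ) m := by
  rw [← coefCLM_apply]
  unfold FF
  rw [(coefCLM m).map_tsum (summable_FF ha)]
  refine tsum_congr (fun n => ?_)
  rw [map_smul, coefCLM_apply, fourierCoeff_fourier, smul_eq_mul]

lemma fourierCoeff_FF_nat {a : ℕ → ℂ} (ha : Summable (fun n => ‖a n‖)) (m : ℕ) :
    fourierCoeff (FF a) (m : ℤ) = a m := by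
  rw [fourierCoeff_FF ha, tsum_eq_single m]
  · simp
  · intro n hn
    rw [Pi.single_eq_of_ne, mul_zero]
    exact_mod_cast hn.symm

lemma fourierCoeff_FF_neg {a : ℕ → ℂ} (ha : Summable (fun n => ‖a n‖)) {m : ℤ}
    (hm : ∀ n : ℕ, (n : ℤ) ≠ m) : fourierCoeff (FF a) m = 0 := by
  rw [fourierCoeff_FF ha]
  have : ∀ n : ℕ, a n * (Pi.single (n : ℤ) (1 : ℂ) : ℤ → ℂ) m = 0 := by
    intro n
    rw [Pi.single_eq_of_ne (fun h => hm n h.symm), mul_zero]
  simp only [this, tsum_zero]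

lemma parseval {a : ℕ → ℂ} (ha : Summable (fun n => ‖a n‖)) :
    HasSum (fun n => ‖a n‖ ^ 2) (∫ t : AddCircle (1 : ℝ), ‖FF a t‖ ^ 2 ∂haarAddCircle) := by
  have h := hasSum_sq_fourierCoeff (T := (1 : ℝ))
    (ContinuousMap.toLp (E := ℂ) 2 haarAddCircle ℂ (FF a))
  simp_rw [fourierCoeff_toLp] at h
  have e1 : ∫ t : AddCircle (1 : ℝ), ‖(ContinuousMap.toLp (E := ℂ) 2 haarAddCircle ℂ (FF a)) t‖ ^ 2
      ∂haarAddCircle = ∫ t : AddCircle (1 : ℝ), ‖FF a t‖ ^ 2 ∂haarAddCircle := by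
    refine integral_congr_ae ?_
    filter_upwards [ContinuousMap.coeFn_toLp (p := 2) (𝕜 := ℂ) haarAddCircle (FF a)] with t ht
    rw [ht]
  rw [e1] at h
  have hinj : Function.Injective (fun n : ℕ => (n : ℤ)) := Nat.cast_injective
  have h2 := (hinj.hasSum_iff (f := fun m : ℤ => ‖fourierCoeff (FF a) m‖ ^ 2)
    (a := ∫ t : AddCircle (1 : ℝ), ‖FF a t‖ ^ 2 ∂haarAddCircle) (fun m hm => by
      rw [fourierCoeff_FF_neg ha]
      · simp
      · intro n hn; exact hm ⟨n, hn⟩)).2 h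
  have e : ((fun m : ℤ => ‖fourierCoeff (FF a) m‖ ^ 2) ∘ fun n : ℕ => (n : ℤ))
      = fun n => ‖a n‖ ^ 2 := by
    funext n
    simp only [Function.comp, fourierCoeff_FF_nat ha]
  rw [e] at h2
  exact h2

lemma FF_apply {a : ℕ → ℂ} (ha : Summable (fun n => ‖a n‖)) (t : AddCircle (1 : ℝ)) :
    FF a t = ∑' n : ℕ, a n * (fourier 1 t : ℂ) ^ n := by
  have h := (ContinuousMap.evalCLM ℂ t).hasSum (summable_FF ha).hasSum
  have h2 := h.tsum_eq
  simp only [ContinuousMap.evalCLM_apply, ContinuousMap.smul_apply] at h2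
  unfold FF
  rw [← h2]
  refine tsum_congr (fun n => ?_)
  rw [smul_eq_mul]
  congr 1
  induction n with
  | zero => simp
  | succ n ih => rw [pow_succ, ← ih]; push_cast; rw [fourier_add]

lemma norm_fourier_one (t : AddCircle (1 : ℝ)) : ‖(fourier 1 t : ℂ)‖ = 1 := by
  rw [fourier_apply]; exact Circle.norm_coe _

/-- the convolution inequality -/
theorem conv_sq_le {a b : ℕ → ℂ} (ha : Summable (fun n => ‖a n‖)) (hb : Summable (fun n => ‖b n‖))
    {B : ℝ} (hB : ∀ z : ℂ, ‖z‖ = 1 → ‖∑' n, a n * z ^ n‖ ≤ B) :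
    Summable (fun n => ‖∑ i ∈ range (n + 1), a i * b (n - i)‖ ^ 2) ∧
    ∑' n, ‖∑ i ∈ range (n + 1), a i * b (n - i)‖ ^ 2 ≤ B ^ 2 * ∑' n, ‖b n‖ ^ 2 := by
  have hB0 : 0 ≤ B := (norm_nonneg _).trans (hB 1 (by simp))
  set c : ℕ → ℂ := fun n => ∑ i ∈ range (n + 1), a i * b (n - i) with hc
  have hcs : Summable (fun n => ‖c n‖) :=
    summable_norm_sum_mul_range_of_summable_norm ha hb
  have hprod : ∀ t, FF c t = FF a t * FF b t := by
    intro t
    rw [FF_apply ha, FF_apply hb, FF_apply hcs]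
    have hz := norm_fourier_one t
    set z : ℂ := (fourier 1 t : ℂ) with hzdef
    have ha' : Summable (fun n => ‖a n * z ^ n‖) := by
      refine ha.congr (fun n => ?_)
      rw [norm_mul, norm_pow, hz, one_pow, mul_one]
    have hb' : Summable (fun n => ‖b n * z ^ n‖) := by
      refine hb.congr (fun n => ?_)
      rw [norm_mul, norm_pow, hz, one_pow, mul_one]
    rw [tsum_mul_tsum_eq_tsum_sum_range_of_summable_norm ha' hb']
    refine tsum_congr (fun n => ?_)
    simp only [hc]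
    rw [Finset.sum_mul]
    refine Finset.sum_congr rfl (fun i hi => ?_)
    have : i + (n - i) = n := by have := Finset.mem_range.1 hi; omega
    calc a i * b (n - i) * z ^ n = a i * b (n - i) * (z ^ i * z ^ (n - i)) := by
          rw [← pow_add, this]
      _ = _ := by ring
  have hPc := parseval hcs
  have hPb := parseval hb
  refine ⟨hPc.summable, ?_⟩
  rw [hPc.tsum_eq, hPb.tsum_eq, ← integral_const_mul]
  have hcont : ∀ a : ℕ → ℂ, Integrable (fun t : AddCircle (1 : ℝ) => ‖FF a t‖ ^ 2) haarAddCircle := by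
    intro a
    exact ((FF a).continuous.norm.pow 2).integrable_of_hasCompactSupport
      (HasCompactSupport.of_compactSpace _)
  refine integral_mono (hcont c) ((hcont b).const_mul _) (fun t => ?_)
  simp only []
  rw [hprod t, norm_mul, mul_pow]
  refine mul_le_mul_of_nonneg_right ?_ (by positivity)
  refine pow_le_pow_left₀ (norm_nonneg _) ?_ 2
  rw [FF_apply ha]
  exact hB _ (norm_fourier_one t)

end Pool.Agent.Hhelper22.Turan
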