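import Mathlib
import Pool.Agent.Hhelper22.Turan.Bounds
import Pool.Agent.Hhelper22.Turan.Parseval

/-!
# `ℓ²` and `ℓ¹` bounds for the coefficients
-/

open Finset

namespace Pool.Agent.Hhelper22.Turan

/-- weighted convolution inequality -/
lemma conv_r {a τ : ℕ → ℂ} {C : ℝ} (ha : ∀ n, ‖a n‖ ≤ C * (n + 1)) {r : ℝ} (hr0 : 0 ≤ r)
    (hr1 : r < 1) {D : ℝ} (hτ : ∀ n, ‖τ n‖ ≤ D) {B Q : ℝ}
    (hB : ∀ z : ℂ, ‖z‖ = 1 → ‖PS a ((r : ℂ) * z)‖ ≤ B)
    (hQ : ∑' n, ‖τ n * (r : ℂ) ^ n‖ ^ 2 ≤ Q) (F : Finset ℕ) :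
    ∑ n ∈ F, (r ^ n * ‖∑ i ∈ range (n + 1), τ i * a (n - i)‖) ^ 2 ≤ B ^ 2 * Q := by
  have hr : ‖(r : ℂ)‖ < 1 := by rwa [Complex.norm_real, Real.norm_of_nonneg hr0]
  have h1 : Summable (fun n => ‖a n * (r : ℂ) ^ n‖) := summable_PS_norm ha hr
  have hD : 0 ≤ D := (norm_nonneg _).trans (hτ 0)
  have hτ' : ∀ n, ‖τ n‖ ≤ D * ((n : ℝ) + 1) := fun n =>
    (hτ n).trans (by nlinarith [Nat.cast_nonneg (α := ℝ) n])
  have h2 : Summable (fun n => ‖τ n * (r : ℂ) ^ n‖) := summable_PS_norm hτ' hr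
  have h3 : ∀ z : ℂ, ‖z‖ = 1 → ‖∑' n, (a n * (r : ℂ) ^ n) * z ^ n‖ ≤ B := by
    intro z hz
    have := hB z hz
    unfold PS at this
    refine le_trans (le_of_eq ?_) this
    congr 1
    exact tsum_congr (fun n => by rw [mul_pow]; ring)
  obtain ⟨h4, h5⟩ := conv_sq_le h1 h2 h3
  have h6 : ∀ n, r ^ n * ‖∑ i ∈ range (n + 1), τ i * a (n - i)‖
      = ‖∑ i ∈ range (n + 1), (a i * (r : ℂ) ^ i) * (τ (n - i) * (r : ℂ) ^ (n - i))‖ := by
    intro n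
    have e1 : ∑ i ∈ range (n + 1), (a i * (r : ℂ) ^ i) * (τ (n - i) * (r : ℂ) ^ (n - i))
        = (r : ℂ) ^ n * ∑ i ∈ range (n + 1), τ i * a (n - i) := by
      rw [← sum_reflect (fun i => τ i * a (n - i)) n, Finset.mul_sum]
      refine Finset.sum_congr rfl (fun i hi => ?_)
      have hi' := Finset.mem_range.1 hi
      have e2 : n - (n - i) = i := by omega
      have e3 : i + (n - i) = n := by omega
      rw [e2]
      calc (a i * (r : ℂ) ^ i) * (τ (n - i) * (r : ℂ) ^ (n - i))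
          = ((r : ℂ) ^ i * (r : ℂ) ^ (n - i)) * (τ (n - i) * a i) := by ring
        _ = _ := by rw [← pow_add, e3]
    rw [e1, norm_mul, norm_pow, Complex.norm_real, Real.norm_of_nonneg hr0]
  calc ∑ n ∈ F, (r ^ n * ‖∑ i ∈ range (n + 1), τ i * a (n - i)‖) ^ 2
      = ∑ n ∈ F, ‖∑ i ∈ range (n + 1), (a i * (r : ℂ) ^ i) * (τ (n - i) * (r : ℂ) ^ (n - i))‖ ^ 2 :=
        Finset.sum_congr rfl (fun n _ => by rw [h6])
    _ ≤ ∑' n, ‖∑ i ∈ range (n + 1), (a i * (r : ℂ) ^ i) * (τ (n - i) * (r : ℂ) ^ (n - i))‖ ^ 2 :=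
        h4.sum_le_tsum F (fun n _ => by positivity)
    _ ≤ B ^ 2 * ∑' n, ‖τ n * (r : ℂ) ^ n‖ ^ 2 := h5
    _ ≤ B ^ 2 * Q := mul_le_mul_of_nonneg_left hQ (by positivity)

/-- `ℓ²` norm of a bounded sequence with geometric weights -/
lemma tsum_bdd_sq_le {τ : ℕ → ℂ} {D : ℝ} (hτ : ∀ n, ‖τ n‖ ≤ D) {r : ℝ} (hr0 : 0 ≤ r) (hr1 : r < 1) :
    ∑' n, ‖τ n * (r : ℂ) ^ n‖ ^ 2 ≤ D ^ 2 / (1 - r) := by
  have hD : 0 ≤ D := (norm_nonneg _).trans (hτ 0)
  have h1 : HasSum (fun n : ℕ => D ^ 2 * r ^ n) (D ^ 2 * (1 - r)⁻¹) :=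
    (hasSum_geometric_of_lt_one hr0 hr1).mul_left _
  have h2 : ∀ n : ℕ, ‖τ n * (r : ℂ) ^ n‖ ^ 2 ≤ D ^ 2 * r ^ n := by
    intro n
    rw [norm_mul, norm_pow, Complex.norm_real, Real.norm_of_nonneg hr0, mul_pow]
    have h3 : (r ^ n) ^ 2 ≤ r ^ n := by
      have a0 : 0 ≤ r ^ n := by positivity
      have a1 : r ^ n ≤ 1 := pow_le_one₀ hr0 hr1.le
      nlinarith
    have h4 : ‖τ n‖ ^ 2 ≤ D ^ 2 := pow_le_pow_left₀ (norm_nonneg _) (hτ n) 2
    exact mul_le_mul h4 h3 (by positivity) (by positivity)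
  have h3 : Summable (fun n : ℕ => ‖τ n * (r : ℂ) ^ n‖ ^ 2) :=
    Summable.of_nonneg_of_le (fun n => by positivity) h2 h1.summable
  rw [div_eq_mul_inv]
  exact hasSum_le h2 h3.hasSum h1

/-- `τ` with the value at `0` replaced by `0` -/
noncomputable def z0 (τ : ℕ → ℂ) : ℕ → ℂ := fun k => if k = 0 then 0 else τ k

lemma sum_z0 (τ a : ℕ → ℂ) (n : ℕ) :
    ∑ i ∈ range (n + 1 + 1), z0 τ i * a (n + 1 - i) = ∑ i ∈ range (n + 1), τ (i + 1) * a (n - i) := by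
  rw [Finset.sum_range_succ']
  have : z0 τ 0 = 0 := by simp [z0]
  rw [this, zero_mul, add_zero]
  refine Finset.sum_congr rfl (fun i _ => ?_)
  have e : n + 1 - (i + 1) = n - i := by omega
  rw [e]; simp [z0]

lemma n_mul_Rc (τ : ℕ → ℂ) (n : ℕ) :
    (n : ℂ) * Rc τ n = ∑ i ∈ range (n + 1), z0 τ i * Rc τ (n - i) := by
  rcases n with _ | n
  · simp [z0]
  · rw [sum_z0, ← Rc_succ]; push_cast; ring

/-- the radius `1 - 1/J` -/
noncomputable def rr (J : ℕ) : ℝ := 1 - 1 / (J : ℝ)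

lemma one_sub_rr (J : ℕ) : 1 - rr J = 1 / (J : ℝ) := by unfold rr; ring

lemma rr_nonneg {J : ℕ} (hJ : 1 ≤ J) : 0 ≤ rr J := by
  unfold rr
  have : (1 : ℝ) ≤ J := by exact_mod_cast hJ
  have : 1 / (J : ℝ) ≤ 1 := by rw [div_le_one (by linarith)]; exact this
  linarith

lemma rr_lt_one {J : ℕ} (hJ : 1 ≤ J) : rr J < 1 := by
  unfold rr
  have : (0 : ℝ) < J := by exact_mod_cast hJ
  have : 0 < 1 / (J : ℝ) := by positivity
  linarith

lemma rr_mono {J J' : ℕ} (hJ : 1 ≤ J) (h : J ≤ J') : rr J ≤ rr J' := by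
  unfold rr
  have h1 : (0 : ℝ) < J := by exact_mod_cast hJ
  have h2 : (J : ℝ) ≤ J' := by exact_mod_cast h
  have : 1 / (J' : ℝ) ≤ 1 / (J : ℝ) := one_div_le_one_div_of_le h1 h2
  linarith

lemma rr_pow_ge {J : ℕ} (hJ : 2 ≤ J) : 1 / 8 ≤ rr J ^ J := by
  have h1 : (2 : ℝ) ≤ J := by exact_mod_cast hJ
  have hJ1 : (0:ℝ) < (J : ℝ) - 1 := by linarith
  have h2 : Real.exp (-(1 / ((J : ℝ) - 1))) ≤ rr J := by
    have h3 := Real.add_one_le_exp (1 / ((J : ℝ) - 1))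
    rw [Real.exp_neg]
    have h4 : rr J = (1 / ((J : ℝ) - 1) + 1)⁻¹ := by
      unfold rr; field_simp; ring
    rw [h4]
    exact inv_anti₀ (by positivity) h3
  calc (1:ℝ) / 8 ≤ Real.exp (-2) := by
        rw [Real.exp_neg, one_div]
        apply inv_anti₀ (Real.exp_pos _)
        have := Real.exp_one_lt_d9
        have e : Real.exp 2 = Real.exp 1 * Real.exp 1 := by rw [← Real.exp_add]; norm_num
        rw [e]; nlinarith [Real.exp_pos 1]
    _ ≤ Real.exp (J * (-(1 / ((J : ℝ) - 1)))) := by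
        apply Real.exp_le_exp.2
        have : (J : ℝ) * (1 / ((J : ℝ) - 1)) ≤ 2 := by
          rw [mul_one_div, div_le_iff₀ hJ1]; linarith
        linarith
    _ = Real.exp (-(1 / ((J : ℝ) - 1))) ^ J := by rw [← Real.exp_nat_mul]
    _ ≤ rr J ^ J := pow_le_pow_left₀ (Real.exp_pos _).le h2 J

/-- from an `ℓ²` bound to an `ℓ¹` bound on a dyadic block -/
lemma block_le {F : ℕ → ℝ} (hF : ∀ j, 0 ≤ F j) {J : ℕ} (hJ : 2 ≤ J) {Q : ℝ} (hQ0 : 0 ≤ Q)
    (hQ : ∑ j ∈ Ioc (J / 2) J, (rr J ^ j * (j * F j)) ^ 2 ≤ Q) :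
    ∑ j ∈ Ioc (J / 2) J, F j ≤ 16 * √(Q / J) := by
  have hJ0 : (0:ℝ) < J := by
    have : (2 : ℝ) ≤ J := by exact_mod_cast hJ
    linarith
  have hr0 := rr_nonneg (J := J) (by omega)
  have hr1 := rr_lt_one (J := J) (by omega)
  have h1 : ∀ j ∈ Ioc (J / 2) J, F j ≤ 16 / J * (rr J ^ j * (j * F j)) := by
    intro j hj
    obtain ⟨hj1, hj2⟩ := Finset.mem_Ioc.1 hj
    have h2 : (J : ℝ) ≤ 2 * j := by
      have : J ≤ 2 * j := by omega
      exact_mod_cast this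
    have h3 : 1 / 8 ≤ rr J ^ j :=
      (rr_pow_ge hJ).trans (pow_le_pow_of_le_one hr0 hr1.le hj2)
    have h4 : (J : ℝ) / 16 * F j ≤ rr J ^ j * (j * F j) := by
      have := hF j
      calc (J : ℝ) / 16 * F j = 1 / 8 * ((J / 2) * F j) := by ring
        _ ≤ rr J ^ j * (j * F j) := by
          apply mul_le_mul h3 _ (by positivity) (by positivity)
          apply mul_le_mul_of_nonneg_right _ this
          linarith
    calc F j = 16 / J * ((J : ℝ) / 16 * F j) := by field_simp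
      _ ≤ _ := mul_le_mul_of_nonneg_left h4 (by positivity)
  have h2 : (∑ j ∈ Ioc (J / 2) J, F j) ^ 2 ≤ (16 * √(Q / J)) ^ 2 := by
    calc (∑ j ∈ Ioc (J / 2) J, F j) ^ 2
        ≤ (∑ j ∈ Ioc (J / 2) J, 16 / J * (rr J ^ j * (j * F j))) ^ 2 :=
          pow_le_pow_left₀ (Finset.sum_nonneg fun j _ => hF j) (Finset.sum_le_sum h1) 2
      _ ≤ (#(Ioc (J / 2) J) : ℝ) * ∑ j ∈ Ioc (J / 2) J, (16 / J * (rr J ^ j * (j * F j))) ^ 2 :=
          sq_sum_le_card_mul_sum_sq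
      _ = (#(Ioc (J / 2) J) : ℝ) * ((16 / J) ^ 2 * ∑ j ∈ Ioc (J / 2) J, (rr J ^ j * (j * F j)) ^ 2) := by
          congr 1
          rw [Finset.mul_sum]
          exact Finset.sum_congr rfl (fun j _ => by rw [mul_pow])
      _ ≤ (J : ℝ) * ((16 / J) ^ 2 * Q) := by
          apply mul_le_mul _ (mul_le_mul_of_nonneg_left hQ (by positivity)) (by positivity)
            hJ0.le
          rw [Nat.card_Ioc]
          exact_mod_cast Nat.sub_le _ _
      _ = (16 * √(Q / J)) ^ 2 := by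
          rw [mul_pow, Real.sq_sqrt (by positivity)]; field_simp
  exact le_of_sq_le_sq h2 (by positivity)

/-- dyadic induction -/
lemma dyadic_induction {S G : ℕ → ℝ} {J0 J1 : ℕ} {K0 K η : ℝ} (hη : η < 1)
    (hK : 0 ≤ K) (hG : ∀ J, J0 ≤ J → 0 < G J) (hJ01 : 2 * J0 ≤ J1 + 1)
    (hbase : ∀ J, J0 ≤ J → J ≤ J1 → S J ≤ K0 * G J)
    (hstep : ∀ J, J1 < J → S J ≤ S (J / 2) + K * G J)
    (hhalf : ∀ J, J1 < J → G (J / 2) ≤ η * G J) :
    ∀ J, J0 ≤ J → S J ≤ max K0 (K / (1 - η)) * G J := by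
  intro J
  induction J using Nat.strong_induction_on with
  | _ J ih =>
    intro hJ
    rcases le_or_gt J J1 with h | h
    · exact (hbase J hJ h).trans (mul_le_mul_of_nonneg_right (le_max_left _ _) (hG J hJ).le)
    · set C := max K0 (K / (1 - η)) with hC
      have h1 : 0 < 1 - η := by linarith
      have hC0 : 0 ≤ C := (div_nonneg hK h1.le).trans (le_max_right _ _)
      have hKC : K ≤ C * (1 - η) := (div_le_iff₀ h1).1 (le_max_right K0 (K / (1 - η)))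
      have h2 := ih (J / 2) (by omega) (by omega)
      have h3 := hG J hJ
      calc S J ≤ S (J / 2) + K * G J := hstep J h
        _ ≤ C * (η * G J) + K * G J := by
            have := mul_le_mul_of_nonneg_left (hhalf J h) hC0
            linarith
        _ ≤ C * (η * G J) + C * (1 - η) * G J := by
            have := mul_le_mul_of_nonneg_right hKC h3.le
            linarith
        _ = C * G J := by ring

end Pool.Agent.Hhelper22.Turan
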