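import Mathlib
import Pool.Agent.Hhelper22.Turan.L1

/-!
# `ℓ¹` and pointwise bounds for `T(s)`
-/

open Finset

namespace Pool.Agent.Hhelper22.Turan

lemma one_le_sqrt_two : (1:ℝ) ≤ √2 := by
  rw [show (1:ℝ) = √1 by simp]; exact Real.sqrt_le_sqrt (by norm_num)

section
variable {s : ℕ → ℂ} {σ : ℝ}

lemma TT_norm_le (hs : Bdd s σ) (hσ : σ ≤ 1) (n : ℕ) : ‖TT s n‖ ≤ 1 * ((n : ℝ) + 1) := by
  rw [one_mul]; exact Rc_norm_le (hs.two hσ) n

lemma EE_zero (s : ℕ → ℂ) : EE s 0 = 1 := by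
  unfold EE
  have := LL_ofReal_zero s
  rw [this]; simp

/-- `E(s,r) ≥ (1-r)^σ` -/
lemma EE_ge (hs : Bdd s σ) {r : ℝ} (hr0 : 0 ≤ r) (hr1 : r < 1) : (1 - r) ^ σ ≤ EE s r := by
  have h := (EE_le hs le_rfl hr0 hr1).2
  rw [EE_zero, sub_zero] at h
  have h1 : 0 < 1 - r := by linarith
  have e : (1 / (1 - r)) ^ σ = ((1 - r) ^ σ)⁻¹ := by
    rw [one_div, Real.inv_rpow h1.le]
  rw [e] at h
  have hp : 0 < (1 - r) ^ σ := by positivity
  calc (1 - r) ^ σ = 1 * (1 - r) ^ σ := by ring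
    _ ≤ EE s r * ((1 - r) ^ σ)⁻¹ * (1 - r) ^ σ := mul_le_mul_of_nonneg_right h hp.le
    _ = EE s r := by field_simp

lemma mm_ge_one (hs : Bdd s σ) (hσ : σ ≤ 1) {r : ℝ} (hr0 : 0 ≤ r) (hr1 : r < 1) : 1 ≤ mm s r := by
  have h1 : 0 < 1 - r := by linarith
  have h2 := EE_ge hs hr0 hr1
  have h3 : (1 - r) ≤ (1 - r) ^ σ := by
    calc (1 - r) = (1 - r) ^ (1:ℝ) := (Real.rpow_one _).symm
      _ ≤ (1 - r) ^ σ := Real.rpow_le_rpow_of_exponent_ge h1 (by linarith) hσ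
  unfold mm
  rw [le_div_iff₀ h1]; linarith

lemma mm_eq (s : ℕ → ℂ) {J : ℕ} (hJ : 1 ≤ J) : mm s (rr J) = J * EE s (rr J) := by
  unfold mm
  rw [one_sub_rr]
  have : (J : ℝ) ≠ 0 := by
    have : J ≠ 0 := by omega
    exact_mod_cast this
  field_simp

lemma mm_half (hs : Bdd s σ) (hσ : σ ≤ 1) {J : ℕ} (hJ : 2 ≤ J) :
    mm s (rr (J / 2)) ≤ (1 / 2 : ℝ) ^ (1 - σ) * mm s (rr J) := by
  have hJ' : 1 ≤ J / 2 := by omega
  have h := mm_mono hs (rr_nonneg hJ') (rr_mono hJ' (Nat.div_le_self J 2)) (rr_lt_one (by omega))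
  rw [one_sub_rr, one_sub_rr] at h
  have h1 : (0:ℝ) < J := by
    have : 0 < J := by omega
    exact_mod_cast this
  have h2 : (0:ℝ) < (J / 2 : ℕ) := by exact_mod_cast hJ'
  have h3 : (1 / (J : ℝ)) / (1 / ((J / 2 : ℕ) : ℝ)) ≤ 1 / 2 := by
    have : ((J / 2 : ℕ) : ℝ) * 2 ≤ J := by
      have : J / 2 * 2 ≤ J := Nat.div_mul_le_self J 2
      exact_mod_cast this
    rw [div_div_eq_mul_div, div_one, one_div_mul_eq_div, div_le_div_iff₀ h1 (by norm_num)]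
    linarith
  have hpos := mm_pos s (rr_lt_one (J := J) (by omega))
  calc mm s (rr (J / 2)) ≤ mm s (rr J) * ((1 / (J : ℝ)) / (1 / ((J / 2 : ℕ) : ℝ))) ^ (1 - σ) := h
    _ ≤ mm s (rr J) * (1 / 2 : ℝ) ^ (1 - σ) := by
        apply mul_le_mul_of_nonneg_left _ hpos.le
        exact Real.rpow_le_rpow (by positivity) h3 (by linarith)
    _ = _ := by ring

/-- `ℓ²` bound for `T` -/
lemma sq_sum_TT (hs : Bdd s σ) (hσ : √2 * σ ≤ 1) {r : ℝ} (hr0 : 0 ≤ r) (hr1 : r < 1)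
    (F : Finset ℕ) :
    ∑ n ∈ F, (r ^ n * (n * ‖TT s n‖)) ^ 2 ≤ (Real.exp 3 * mm s r) ^ 2 * (4 / (1 - r)) := by
  have hσ1 : σ ≤ 1 := by nlinarith [hs.nonneg, one_le_sqrt_two]
  have hτ : ∀ n, ‖z0 (fun k => 1 - s k) n‖ ≤ 2 := by
    intro n
    rcases n with _ | n
    · simp [z0]
    · simpa [z0] using hs.two hσ1 n
  have hQ := tsum_bdd_sq_le hτ hr0 hr1
  have h22 : (2:ℝ) ^ 2 = 4 := by norm_num
  rw [h22] at hQ
  have h := conv_r (TT_norm_le hs hσ1) hr0 hr1 hτ (fun z hz => norm_PS_TT_le' hs hσ hr0 hr1 hz) hQ F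
  refine le_trans (le_of_eq ?_) h
  refine Finset.sum_congr rfl (fun n _ => ?_)
  unfold TT
  rw [← n_mul_Rc, norm_mul, Complex.norm_natCast]

lemma sum_split (f : ℕ → ℝ) (J : ℕ) :
    ∑ j ∈ range (J + 1), f j = ∑ j ∈ range (J / 2 + 1), f j + ∑ j ∈ Ioc (J / 2) J, f j := by
  have e : Ioc (J / 2) J = Ico (J / 2 + 1) (J + 1) := by
    ext x; simp only [Finset.mem_Ioc, Finset.mem_Ico]; omega
  rw [e, Finset.sum_range_add_sum_Ico f (by omega)]

end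

/-- `ℓ¹` bound: `∑_{j ≤ J} |T_j| ≤ C m(s, 1-1/J)` -/
theorem L1_TT {σ : ℝ} (hσ : √2 * σ < 1) (hσ0 : 0 ≤ σ) : ∃ C : ℝ, 0 < C ∧ ∀ s : ℕ → ℂ, Bdd s σ →
    ∀ J, 2 ≤ J → ∑ j ∈ range (J + 1), ‖TT s j‖ ≤ C * mm s (rr J) := by
  have hσ1 : σ < 1 := by nlinarith [one_le_sqrt_two]
  have hη : (1 / 2 : ℝ) ^ (1 - σ) < 1 := Real.rpow_lt_one (by norm_num) (by norm_num) (by linarith)
  refine ⟨max 10 (32 * Real.exp 3 / (1 - (1 / 2 : ℝ) ^ (1 - σ))),
    lt_max_of_lt_left (by norm_num), fun s hs => ?_⟩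
  refine dyadic_induction (S := fun J => ∑ j ∈ range (J + 1), ‖TT s j‖)
    (G := fun J => mm s (rr J)) (J0 := 2) (J1 := 3) hη (by positivity) ?_ (by norm_num) ?_ ?_ ?_
  · intro J hJ; exact mm_pos s (rr_lt_one (by omega))
  · intro J hJ hJ3
    have h1 := mm_ge_one hs hσ1.le (rr_nonneg (J := J) (by omega)) (rr_lt_one (by omega))
    have h2 : ∑ j ∈ range (J + 1), ‖TT s j‖ ≤ ∑ j ∈ range (3 + 1), (1 * ((j : ℝ) + 1)) := by
      calc ∑ j ∈ range (J + 1), ‖TT s j‖ ≤ ∑ j ∈ range (J + 1), (1 * ((j : ℝ) + 1)) :=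
            Finset.sum_le_sum (fun j _ => TT_norm_le hs hσ1.le j)
        _ ≤ _ := by
            apply Finset.sum_le_sum_of_subset_of_nonneg
            · intro x hx; rw [Finset.mem_range] at *; omega
            · intro j _ _; positivity
    have h3 : ∑ j ∈ range (3 + 1), (1 * ((j : ℝ) + 1)) = 10 := by
      simp [Finset.sum_range_succ]; norm_num
    linarith
  · intro J hJ
    rw [sum_split]
    have hJ0 : (0:ℝ) < J := by
      have : 0 < J := by omega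
      exact_mod_cast this
    have hr0 := rr_nonneg (J := J) (by omega)
    have hr1 := rr_lt_one (J := J) (by omega)
    have h1 := sq_sum_TT hs hσ.le hr0 hr1 (Ioc (J / 2) J)
    have h2 := block_le (F := fun j => ‖TT s j‖) (fun j => norm_nonneg _) (J := J) (by omega)
      (by positivity) h1
    have hm := mm_pos s hr1
    have h3 : √((Real.exp 3 * mm s (rr J)) ^ 2 * (4 / (1 - rr J)) / J) = 2 * (Real.exp 3 * mm s (rr J)) := by
      rw [one_sub_rr]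
      have e : (Real.exp 3 * mm s (rr J)) ^ 2 * (4 / (1 / (J : ℝ))) / J
          = (2 * (Real.exp 3 * mm s (rr J))) ^ 2 := by field_simp; ring
      rw [e, Real.sqrt_sq (by positivity)]
    rw [h3] at h2
    linarith
  · intro J hJ
    exact mm_half hs hσ1.le (by omega)

/-- pointwise bound -/
theorem pt_TT {σ C : ℝ} (hσ1 : σ ≤ 1) {s : ℕ → ℂ} (hs : Bdd s σ)
    (hC : ∀ J, 2 ≤ J → ∑ j ∈ range (J + 1), ‖TT s j‖ ≤ C * mm s (rr J)) {J : ℕ} (hJ : 2 ≤ J) :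
    ‖TT s J‖ ≤ 2 * C * EE s (rr J) := by
  obtain ⟨n, rfl⟩ : ∃ n, J = n + 1 := ⟨J - 1, by omega⟩
  have h1 := Rc_succ_norm_le (fun k => 1 - s k) n
  have h2 : ∑ i ∈ range (n + 1), ‖(fun k => 1 - s k) (i + 1)‖ * ‖Rc (fun k => 1 - s k) (n - i)‖
      ≤ 2 * ∑ i ∈ range (n + 1), ‖TT s i‖ := by
    rw [← sum_reflect (fun i => ‖TT s i‖) n, Finset.mul_sum]
    refine Finset.sum_le_sum (fun i _ => ?_)
    exact mul_le_mul_of_nonneg_right (hs.two hσ1 i) (norm_nonneg _)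
  have h3 : ∑ i ∈ range (n + 1), ‖TT s i‖ ≤ ∑ i ∈ range (n + 1 + 1), ‖TT s i‖ := by
    rw [Finset.sum_range_succ (fun i => ‖TT s i‖) (n + 1)]
    linarith [norm_nonneg (TT s (n + 1))]
  have h4 := hC (n + 1) hJ
  rw [mm_eq s (by omega)] at h4
  have h5 : ((n : ℝ) + 1) * ‖TT s (n + 1)‖ ≤ ((n : ℝ) + 1) * (2 * C * EE s (rr (n + 1))) := by
    calc ((n : ℝ) + 1) * ‖TT s (n + 1)‖ ≤ 2 * ∑ i ∈ range (n + 1), ‖TT s i‖ := h1.trans h2
      _ ≤ 2 * (C * ((n + 1 : ℕ) * EE s (rr (n + 1)))) := by linarith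
      _ = _ := by push_cast; ring
  exact le_of_mul_le_mul_left h5 (by positivity)

/-- weighted `ℓ¹` bound -/
theorem wL1_TT {σ C : ℝ} (hσ : √2 * σ ≤ 1) {s : ℕ → ℂ} (hs : Bdd s σ)
    (hC : ∀ J, 2 ≤ J → ∑ j ∈ range (J + 1), ‖TT s j‖ ≤ C * mm s (rr J)) {J : ℕ} (hJ : 2 ≤ J)
    (N : ℕ) : ∑ j ∈ range N, ‖TT s j‖ * rr J ^ j ≤ (C + 2 * Real.exp 3) * mm s (rr J) := by
  have hr0 := rr_nonneg (J := J) (by omega)
  have hr1 := rr_lt_one (J := J) (by omega)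
  have hm := mm_pos s hr1
  have hJ0 : (0:ℝ) < J := by
    have : 0 < J := by omega
    exact_mod_cast this
  -- enlarge the range
  have hle : ∑ j ∈ range N, ‖TT s j‖ * rr J ^ j ≤ ∑ j ∈ range (J + 1 + N), ‖TT s j‖ * rr J ^ j := by
    apply Finset.sum_le_sum_of_subset_of_nonneg
    · intro x hx; rw [Finset.mem_range] at *; omega
    · intro j _ _; positivity
  refine hle.trans ?_
  rw [← Finset.sum_range_add_sum_Ico _ (show J + 1 ≤ J + 1 + N by omega)]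
  have h1 : ∑ j ∈ range (J + 1), ‖TT s j‖ * rr J ^ j ≤ C * mm s (rr J) := by
    refine le_trans (Finset.sum_le_sum (fun j _ => ?_)) (hC J hJ)
    have : rr J ^ j ≤ 1 := pow_le_one₀ hr0 hr1.le
    nlinarith [norm_nonneg (TT s j)]
  have h2 : ∑ j ∈ Ico (J + 1) (J + 1 + N), ‖TT s j‖ * rr J ^ j ≤ 2 * Real.exp 3 * mm s (rr J) := by
    have h3 := sq_sum_TT hs hσ hr0 hr1 (Ico (J + 1) (J + 1 + N))
    rw [one_sub_rr] at h3
    have h4 : ∑ j ∈ Ico (J + 1) (J + 1 + N), ((1:ℝ) / j) ^ 2 ≤ 1 / J := by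
      have h5 : ∀ K : ℕ, J ≤ K → ∑ j ∈ Ico (J + 1) (K + 1), ((1:ℝ) / j) ^ 2 ≤ 1 / J - 1 / K := by
        intro K hK
        induction K, hK using Nat.le_induction with
        | base => simp
        | succ K hK ih =>
          rw [Finset.sum_Ico_succ_top (by omega)]
          have hK0 : (0:ℝ) < K := by
            have : 0 < K := by omega
            exact_mod_cast this
          have : ((1:ℝ) / ((K + 1 : ℕ) : ℝ)) ^ 2 ≤ 1 / K - 1 / ((K + 1 : ℕ) : ℝ) := by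
            push_cast
            rw [div_sub_div _ _ (by positivity) (by positivity), div_pow, one_pow,
              div_le_div_iff₀ (by positivity) (by positivity)]
            nlinarith
          linarith
      have h6 := h5 (J + N) (by omega)
      have e : J + 1 + N = J + N + 1 := by ring
      rw [e]
      have : 0 ≤ (1:ℝ) / ((J + N : ℕ) : ℝ) := by positivity
      linarith
    have hCS : (∑ j ∈ Ico (J + 1) (J + 1 + N), ‖TT s j‖ * rr J ^ j) ^ 2 ≤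
        (2 * Real.exp 3 * mm s (rr J)) ^ 2 := by
      have e : ∑ j ∈ Ico (J + 1) (J + 1 + N), ‖TT s j‖ * rr J ^ j
          = ∑ j ∈ Ico (J + 1) (J + 1 + N), ((1:ℝ) / j) * (rr J ^ j * (j * ‖TT s j‖)) := by
        refine Finset.sum_congr rfl (fun j hj => ?_)
        have : (j : ℝ) ≠ 0 := by
          have := (Finset.mem_Ico.1 hj).1
          have : j ≠ 0 := by omega
          exact_mod_cast this
        field_simp
      rw [e]
      calc (∑ j ∈ Ico (J + 1) (J + 1 + N), ((1:ℝ) / j) * (rr J ^ j * (j * ‖TT s j‖))) ^ 2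
          ≤ (∑ j ∈ Ico (J + 1) (J + 1 + N), ((1:ℝ) / j) ^ 2) *
            ∑ j ∈ Ico (J + 1) (J + 1 + N), (rr J ^ j * (j * ‖TT s j‖)) ^ 2 :=
            Finset.sum_mul_sq_le_sq_mul_sq _ _ _
        _ ≤ (1 / J) * ((Real.exp 3 * mm s (rr J)) ^ 2 * (4 / (1 / (J : ℝ)))) := by
            apply mul_le_mul h4 h3 (Finset.sum_nonneg fun j _ => by positivity) (by positivity)
        _ = _ := by field_simp; ring
    exact le_of_sq_le_sq hCS (by positivity)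
  calc _ ≤ C * mm s (rr J) + 2 * Real.exp 3 * mm s (rr J) := add_le_add h1 h2
    _ = _ := by ring

end Pool.Agent.Hhelper22.Turan
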