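import Mathlib
import Pool.Agent.Hhelper22.Turan.L1T

/-!
# Removing the small indices only multiplies `T_n` by a constant, up to a small error
-/

open Finset

namespace Pool.Agent.Hhelper22.Turan

/-- the sequence with the first `M` entries replaced by `0` -/
noncomputable def cutS (s : ℕ → ℂ) (M : ℕ) : ℕ → ℂ := fun k => if k ≤ M then 0 else s k

/-- `∑_{k ≤ M} s_k x^k / k` -/
noncomputable def LM (s : ℕ → ℂ) (M : ℕ) (x : ℂ) : ℂ :=
  ∑ k ∈ range M, s (k + 1) * x ^ (k + 1) / ((k : ℂ) + 1)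

noncomputable def E1 (s : ℕ → ℂ) (M : ℕ) : ℂ := Complex.exp (-(LM s M 1))

lemma E1_norm_pos (s : ℕ → ℂ) (M : ℕ) : 0 < ‖E1 s M‖ := by
  unfold E1; rw [norm_pos_iff]; exact Complex.exp_ne_zero _

/-- the difference -/
noncomputable def Wd (s : ℕ → ℂ) (M : ℕ) : ℕ → ℂ := fun n => TT s n - E1 s M * TT (cutS s M) n

section
variable {s : ℕ → ℂ} {σ : ℝ} {M : ℕ}

lemma cutS_bdd (hs : Bdd s σ) (M : ℕ) : Bdd (cutS s M) σ := by
  intro k
  unfold cutS
  split_ifs
  · simpa using hs.nonneg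
  · exact hs k

lemma norm_pow_sub_one_le' {x : ℂ} (hx : ‖x‖ ≤ 1) (k : ℕ) : ‖x ^ k - 1‖ ≤ k * ‖1 - x‖ := by
  induction k with
  | zero => simp
  | succ k ih =>
    have e : x ^ (k + 1) - 1 = x * (x ^ k - 1) - (1 - x) := by ring
    rw [e]
    calc ‖x * (x ^ k - 1) - (1 - x)‖ ≤ ‖x * (x ^ k - 1)‖ + ‖1 - x‖ := norm_sub_le _ _
      _ ≤ 1 * ‖x ^ k - 1‖ + ‖1 - x‖ := by
          rw [norm_mul]
          have := mul_le_mul_of_nonneg_right hx (norm_nonneg (x ^ k - 1))
          linarith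
      _ ≤ k * ‖1 - x‖ + ‖1 - x‖ := by linarith
      _ = _ := by push_cast; ring

lemma LM_sub_le (hs : Bdd s σ) {x : ℂ} (hx : ‖x‖ ≤ 1) :
    ‖LM s M x - LM s M 1‖ ≤ σ * M * ‖1 - x‖ := by
  unfold LM
  rw [← Finset.sum_sub_distrib]
  refine (norm_sum_le _ _).trans ?_
  calc ∑ k ∈ range M, ‖s (k + 1) * x ^ (k + 1) / ((k : ℂ) + 1) - s (k + 1) * 1 ^ (k + 1) / ((k : ℂ) + 1)‖
      ≤ ∑ k ∈ range M, σ * ‖1 - x‖ := by
        refine Finset.sum_le_sum (fun k _ => ?_)
        have e : s (k + 1) * x ^ (k + 1) / ((k : ℂ) + 1) - s (k + 1) * 1 ^ (k + 1) / ((k : ℂ) + 1)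
            = s (k + 1) * ((x ^ (k + 1) - 1) / ((k : ℂ) + 1)) := by rw [one_pow]; ring
        rw [e, norm_mul, norm_div, norm_natCast_add_one]
        have h1 := norm_pow_sub_one_le' hx (k + 1)
        have h2 : ‖x ^ (k + 1) - 1‖ / ((k : ℝ) + 1) ≤ ‖1 - x‖ := by
          rw [div_le_iff₀ (by positivity)]
          push_cast at h1; linarith
        exact mul_le_mul (hs k) h2 (by positivity) hs.nonneg
    _ = _ := by rw [Finset.sum_const, Finset.card_range, nsmul_eq_mul]; ring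

lemma LL_split (hs : Bdd s σ) (M : ℕ) {x : ℂ} (hx : ‖x‖ < 1) :
    LL s x = LL (cutS s M) x + LM s M x := by
  have h1 := summable_LL hs hx
  have h2 := summable_LL (cutS_bdd hs M) hx
  have h3 : LL s x - LL (cutS s M) x = LM s M x := by
    unfold LL
    rw [← Summable.tsum_sub h1 h2]
    unfold LM
    rw [tsum_eq_sum (s := range M)]
    · refine Finset.sum_congr rfl (fun k hk => ?_)
      have := Finset.mem_range.1 hk
      unfold cutS
      rw [if_pos (by omega)]; ring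
    · intro k hk
      have : ¬ k < M := fun h => hk (Finset.mem_range.2 h)
      unfold cutS
      rw [if_neg (by omega)]; ring
  rw [← h3]; ring

lemma PS_TT_cut (hs : Bdd s σ) (hσ : σ ≤ 1) (M : ℕ) {x : ℂ} (hx : ‖x‖ < 1) :
    PS (TT s) x = PS (TT (cutS s M)) x * Complex.exp (-(LM s M x)) := by
  rw [PS_TT hs hσ hx, PS_TT (cutS_bdd hs M) hσ hx, LL_split hs M hx, neg_add, Complex.exp_add]
  ring

lemma PS_Wd (hs : Bdd s σ) (hσ : σ ≤ 1) (M : ℕ) {x : ℂ} (hx : ‖x‖ < 1) :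
    PS (Wd s M) x = PS (TT s) x - E1 s M * PS (TT (cutS s M)) x := by
  have h1 := summable_PS (TT_norm_le hs hσ) hx
  have h2 := summable_PS (TT_norm_le (cutS_bdd hs M) hσ) hx
  unfold PS
  rw [← tsum_mul_left, ← Summable.tsum_sub h1 (h2.mul_left _)]
  refine tsum_congr (fun n => ?_)
  unfold Wd; ring

lemma mm_le_cut (hs : Bdd s σ) (hσ : σ ≤ 1) {r : ℝ} (hr0 : 0 ≤ r) (hr1 : r < 1)
    (hM : (M : ℝ) * (1 - r) ≤ 1) :
    mm s r ≤ 3 * (‖E1 s M‖ * mm (cutS s M) r) := by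
  have hx : ‖(r : ℂ)‖ < 1 := by rwa [Complex.norm_real, Real.norm_of_nonneg hr0]
  have h1r : 0 < 1 - r := by linarith
  have h1 : EE s r ≤ 3 * (‖E1 s M‖ * EE (cutS s M) r) := by
    unfold EE E1
    rw [LL_split hs M hx, Complex.norm_exp, Complex.neg_re, Complex.add_re, neg_add, Real.exp_add]
    have h2 := (abs_le.1 ((Complex.abs_re_le_norm _).trans (LM_sub_le (M := M) hs hx.le))).1
    rw [Complex.sub_re] at h2
    have h3 : ‖1 - (r : ℂ)‖ = 1 - r := by
      have : (1 - (r : ℂ)) = ((1 - r : ℝ) : ℂ) := by push_cast; ring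
      rw [this, Complex.norm_real, Real.norm_of_nonneg h1r.le]
    rw [h3] at h2
    have h4 : σ * M * (1 - r) ≤ 1 := by
      have : σ * M * (1 - r) ≤ 1 * (M * (1 - r)) := by
        rw [mul_assoc]
        exact mul_le_mul_of_nonneg_right hσ (by positivity)
      linarith
    have h5 : Real.exp (-(LM s M (r : ℂ)).re) ≤ 3 * Real.exp (-(LM s M 1).re) := by
      calc Real.exp (-(LM s M (r : ℂ)).re) ≤ Real.exp (1 + -(LM s M 1).re) := by
            apply Real.exp_le_exp.2; linarith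
        _ = Real.exp 1 * Real.exp (-(LM s M 1).re) := Real.exp_add _ _
        _ ≤ 3 * Real.exp (-(LM s M 1).re) := by
            apply mul_le_mul_of_nonneg_right _ (Real.exp_pos _).le
            linarith [Real.exp_one_lt_d9]
    calc Real.exp (-(LL (cutS s M) (r : ℂ)).re) * Real.exp (-(LM s M (r : ℂ)).re)
        ≤ Real.exp (-(LL (cutS s M) (r : ℂ)).re) * (3 * Real.exp (-(LM s M 1).re)) :=
          mul_le_mul_of_nonneg_left h5 (Real.exp_pos _).le
      _ = _ := by ring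
  unfold mm
  calc EE s r / (1 - r) ≤ (3 * (‖E1 s M‖ * EE (cutS s M) r)) / (1 - r) := by gcongr
    _ = _ := by ring

/-- sup bound for the difference -/
lemma norm_PS_Wd_le (hs : Bdd s σ) {c : ℝ} (hc0 : 0 ≤ c) (hc1 : c ≤ 1) (hc : √2 * σ + c ≤ 1)
    {J : ℕ} (hM : 1 ≤ M) (hJ : M ≤ J) {z : ℂ} (hz : ‖z‖ = 1) :
    ‖PS (Wd s M) ((rr J : ℂ) * z)‖ ≤
      4 * Real.exp 3 * (‖E1 s M‖ * mm (cutS s M) (rr J) * ((M : ℝ) / J) ^ c) := by
  have hσ0 := hs.nonneg
  have hσ1 : σ ≤ 1 := by nlinarith [one_le_sqrt_two]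
  have hr0 := rr_nonneg (J := J) (by omega)
  have hr1 := rr_lt_one (J := J) (by omega)
  have hx1 := norm_rz_lt hr0 hr1 hz
  have hM0 : (0:ℝ) < M := by exact_mod_cast hM
  have hJ0 : (0:ℝ) < J := by
    have : 0 < J := by omega
    exact_mod_cast this
  have hMJ : (M : ℝ) ≤ J := by exact_mod_cast hJ
  have h1r : 0 < 1 - rr J := by linarith
  have hX := one_sub_le_norm hr0 hz
  have hE := E1_norm_pos s M
  have hmV := mm_pos (cutS s M) hr1
  set x : ℂ := (rr J : ℂ) * z with hx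
  set X := ‖1 - x‖ with hXdef
  have hX0 : 0 < X := h1r.trans_le hX
  have hy : X / (1 - rr J) = J * X := by rw [one_sub_rr]; field_simp
  have hVb := norm_PS_TT_le (cutS_bdd hs M) hσ1 hc hr0 hr1 hz
  rw [← hx, ← hXdef, hy] at hVb
  rw [PS_Wd hs hσ1 M hx1]
  rcases le_or_gt (M * X) 1 with h | h
  · rw [PS_TT_cut hs hσ1 M hx1]
    have e : PS (TT (cutS s M)) x * Complex.exp (-(LM s M x)) - E1 s M * PS (TT (cutS s M)) x
        = PS (TT (cutS s M)) x * (E1 s M * (Complex.exp (-(LM s M x - LM s M 1)) - 1)) := by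
      unfold E1
      have : Complex.exp (-(LM s M x)) =
          Complex.exp (-(LM s M 1)) * Complex.exp (-(LM s M x - LM s M 1)) := by
        rw [← Complex.exp_add]; congr 1; ring
      rw [this]; ring
    rw [e, norm_mul, norm_mul]
    have hd := LM_sub_le (M := M) hs hx1.le
    rw [← hXdef] at hd
    have hd1 : ‖LM s M x - LM s M 1‖ ≤ M * X := by
      calc _ ≤ σ * M * X := hd
        _ ≤ 1 * M * X := by gcongr
        _ = M * X := by ring
    have hexp : ‖Complex.exp (-(LM s M x - LM s M 1)) - 1‖ ≤ 2 * (M * X) := by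
      have := Complex.norm_exp_sub_one_le (x := -(LM s M x - LM s M 1))
        (by rw [norm_neg]; exact hd1.trans h)
      rw [norm_neg] at this
      linarith
    have hpow : (M * X) * (J * X) ^ (-c) ≤ ((M : ℝ) / J) ^ c := by
      have e1 : (M * X) = (M / J) * (J * X) := by field_simp
      rw [e1, mul_assoc]
      have e2 : (J * X) * (J * X) ^ (-c) = (J * X) ^ (1 - c) := by
        rw [show (1 - c) = 1 + (-c) by ring, Real.rpow_add (by positivity), Real.rpow_one]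
      rw [e2]
      have e3 : (J * X) ^ (1 - c) ≤ ((J : ℝ) / M) ^ (1 - c) := by
        apply Real.rpow_le_rpow (by positivity) _ (by linarith)
        rw [le_div_iff₀ hM0]; nlinarith
      have e4 : ((M : ℝ) / J) * ((J : ℝ) / M) ^ (1 - c) = ((M : ℝ) / J) ^ c := by
        have : ((J : ℝ) / M) = ((M : ℝ) / J)⁻¹ := by rw [inv_div]
        rw [this, Real.inv_rpow (by positivity), ← Real.rpow_neg (by positivity)]
        nth_rewrite 1 [← Real.rpow_one ((M : ℝ) / J)]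
        rw [← Real.rpow_add (by positivity)]
        congr 1; ring
      calc _ ≤ ((M : ℝ) / J) * ((J : ℝ) / M) ^ (1 - c) :=
            mul_le_mul_of_nonneg_left e3 (by positivity)
        _ = _ := e4
    calc ‖PS (TT (cutS s M)) x‖ * (‖E1 s M‖ * ‖Complex.exp (-(LM s M x - LM s M 1)) - 1‖)
        ≤ (Real.exp 3 * mm (cutS s M) (rr J) * (J * X) ^ (-c)) * (‖E1 s M‖ * (2 * (M * X))) := by
          gcongr
      _ = 2 * Real.exp 3 * (‖E1 s M‖ * mm (cutS s M) (rr J) * ((M * X) * (J * X) ^ (-c))) := by ring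
      _ ≤ 2 * Real.exp 3 * (‖E1 s M‖ * mm (cutS s M) (rr J) * ((M : ℝ) / J) ^ c) := by gcongr
      _ ≤ 4 * Real.exp 3 * (‖E1 s M‖ * mm (cutS s M) (rr J) * ((M : ℝ) / J) ^ c) := by
          gcongr; norm_num
  · have hTb := norm_PS_TT_le hs hσ1 hc hr0 hr1 hz
    rw [← hx, ← hXdef, hy] at hTb
    have hm := mm_le_cut (M := M) hs hσ1 hr0 hr1 (by
      rw [one_sub_rr, mul_one_div, div_le_one hJ0]; exact hMJ)
    have hpow : (J * X) ^ (-c) ≤ ((M : ℝ) / J) ^ c := by
      have h1 : (J : ℝ) / M ≤ J * X := by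
        rw [div_le_iff₀ hM0]; nlinarith
      calc (J * X) ^ (-c) ≤ ((J : ℝ) / M) ^ (-c) :=
            Real.rpow_le_rpow_of_nonpos (by positivity) h1 (by linarith)
        _ = ((M : ℝ) / J) ^ c := by
            rw [Real.rpow_neg (by positivity), ← Real.inv_rpow (by positivity), inv_div]
    calc ‖PS (TT s) x - E1 s M * PS (TT (cutS s M)) x‖
        ≤ ‖PS (TT s) x‖ + ‖E1 s M‖ * ‖PS (TT (cutS s M)) x‖ := by
          rw [← norm_mul]; exact norm_sub_le _ _
      _ ≤ Real.exp 3 * mm s (rr J) * (J * X) ^ (-c)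
          + ‖E1 s M‖ * (Real.exp 3 * mm (cutS s M) (rr J) * (J * X) ^ (-c)) := by gcongr
      _ ≤ Real.exp 3 * (3 * (‖E1 s M‖ * mm (cutS s M) (rr J))) * (J * X) ^ (-c)
          + ‖E1 s M‖ * (Real.exp 3 * mm (cutS s M) (rr J) * (J * X) ^ (-c)) := by gcongr
      _ = 4 * Real.exp 3 * (‖E1 s M‖ * mm (cutS s M) (rr J) * (J * X) ^ (-c)) := by ring
      _ ≤ _ := by gcongr

end

end Pool.Agent.Hhelper22.Turan
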