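import Mathlib
import Pool.Agent.Hhelper22.Turan.Cut

/-!
# Consequences of the sup bound for the difference
-/

open Finset

namespace Pool.Agent.Hhelper22.Turan

/-- the removed entries -/
noncomputable def tauM (s : ℕ → ℂ) (M : ℕ) : ℕ → ℂ := fun i => if i = 0 then 0 else if i ≤ M then s i else 0

section
variable {s : ℕ → ℂ} {σ : ℝ} {M : ℕ}

lemma n_mul_Wd (s : ℕ → ℂ) (M n : ℕ) :
    (n : ℂ) * Wd s M n = ∑ i ∈ range (n + 1), z0 (fun k => 1 - s k) i * Wd s M (n - i)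
      - E1 s M * ∑ i ∈ range (n + 1), tauM s M i * TT (cutS s M) (n - i) := by
  have h1 := n_mul_Rc (fun k => 1 - s k) n
  have h2 := n_mul_Rc (fun k => 1 - cutS s M k) n
  have h3 : ∀ i, z0 (fun k => 1 - cutS s M k) i = z0 (fun k => 1 - s k) i + tauM s M i := by
    intro i
    by_cases hi : i = 0
    · simp [z0, tauM, hi]
    · by_cases hiM : i ≤ M
      · simp [z0, tauM, cutS, hi, hiM]
      · simp [z0, tauM, cutS, hi, hiM]
  unfold Wd
  rw [mul_sub]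
  have e1 : (n : ℂ) * TT s n = ∑ i ∈ range (n + 1), z0 (fun k => 1 - s k) i * TT s (n - i) := h1
  have e2 : (n : ℂ) * TT (cutS s M) n
      = ∑ i ∈ range (n + 1), z0 (fun k => 1 - cutS s M k) i * TT (cutS s M) (n - i) := h2
  rw [e1, show (n : ℂ) * (E1 s M * TT (cutS s M) n) = E1 s M * ((n : ℂ) * TT (cutS s M) n) by ring,
    e2, Finset.mul_sum, Finset.mul_sum, ← Finset.sum_sub_distrib, ← Finset.sum_sub_distrib]
  refine Finset.sum_congr rfl (fun i _ => ?_)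
  rw [h3]; ring

lemma tauM_norm_le (hs : Bdd s σ) (hσ : σ ≤ 1) (M n : ℕ) : ‖tauM s M n‖ ≤ 1 := by
  unfold tauM
  rcases n with _ | n
  · simp
  · rw [if_neg (Nat.succ_ne_zero n)]
    split_ifs
    · exact (hs n).trans hσ
    · simp

lemma tsum_tauM_le (hs : Bdd s σ) (hσ : σ ≤ 1) (M : ℕ) {r : ℝ} (hr0 : 0 ≤ r) (hr1 : r < 1) :
    ∑' n, ‖tauM s M n * (r : ℂ) ^ n‖ ^ 2 ≤ M := by
  rw [tsum_eq_sum (s := Ioc 0 M)]
  · calc ∑ n ∈ Ioc 0 M, ‖tauM s M n * (r : ℂ) ^ n‖ ^ 2 ≤ ∑ n ∈ Ioc 0 M, (1:ℝ) := by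
          refine Finset.sum_le_sum (fun n _ => ?_)
          rw [norm_mul, norm_pow, Complex.norm_real, Real.norm_of_nonneg hr0]
          have h1 := tauM_norm_le hs hσ M n
          have h2 : r ^ n ≤ 1 := pow_le_one₀ hr0 hr1.le
          have h3 : 0 ≤ r ^ n := by positivity
          have h4 : ‖tauM s M n‖ * r ^ n ≤ 1 := by nlinarith [norm_nonneg (tauM s M n)]
          exact pow_le_one₀ (by positivity) h4
      _ = M := by simp
  · intro n hn
    have : tauM s M n = 0 := by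
      unfold tauM
      rw [Finset.mem_Ioc, not_and_or] at hn
      split_ifs with h1 h2
      · rfl
      · omega
      · rfl
    rw [this]; simp

/-- the comparison quantity -/
noncomputable def GG (s : ℕ → ℂ) (M : ℕ) (c : ℝ) (J : ℕ) : ℝ :=
  ‖E1 s M‖ * mm (cutS s M) (rr J) * ((M : ℝ) / J) ^ c

lemma GG_pos (s : ℕ → ℂ) {c : ℝ} {J : ℕ} (hM : 1 ≤ M) (hJ : 1 ≤ J) : 0 < GG s M c J := by
  have h1 : (0:ℝ) < M := by exact_mod_cast hM
  have h2 : (0:ℝ) < J := by exact_mod_cast hJ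
  exact mul_pos (mul_pos (E1_norm_pos s M) (mm_pos _ (rr_lt_one hJ))) (by positivity)

lemma sq_sum_Wd (hs : Bdd s σ) {c : ℝ} (hc0 : 0 ≤ c) (hc1 : c ≤ 1 / 2) (hc : √2 * σ + c ≤ 1)
    {J : ℕ} (hM : 1 ≤ M) (hJ : M ≤ J) (F : Finset ℕ) :
    ∑ n ∈ F, (rr J ^ n * (n * ‖Wd s M n‖)) ^ 2 ≤ (12 * Real.exp 3 * GG s M c J) ^ 2 * J := by
  have hσ0 := hs.nonneg
  have hσ1 : σ ≤ 1 := by nlinarith [one_le_sqrt_two]
  have hr0 := rr_nonneg (J := J) (by omega)
  have hr1 := rr_lt_one (J := J) (by omega)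
  have hM0 : (0:ℝ) < M := by exact_mod_cast hM
  have hJ0 : (0:ℝ) < J := by
    have : 0 < J := by omega
    exact_mod_cast this
  have hMJ : (M : ℝ) ≤ J := by exact_mod_cast hJ
  have hG := GG_pos s (c := c) hM (J := J) (by omega)
  set r := rr J with hr
  have hW : ∀ n, ‖Wd s M n‖ ≤ (1 + ‖E1 s M‖) * ((n : ℝ) + 1) := by
    intro n
    have h1 := TT_norm_le hs hσ1 n
    have h2 := TT_norm_le (cutS_bdd hs M) hσ1 n
    calc ‖Wd s M n‖ ≤ ‖TT s n‖ + ‖E1 s M‖ * ‖TT (cutS s M) n‖ := by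
          unfold Wd; rw [← norm_mul]; exact norm_sub_le _ _
      _ ≤ 1 * ((n : ℝ) + 1) + ‖E1 s M‖ * (1 * ((n : ℝ) + 1)) := by gcongr
      _ = _ := by ring
  have hτ : ∀ n, ‖z0 (fun k => 1 - s k) n‖ ≤ 2 := by
    intro n
    rcases n with _ | n
    · simp [z0]
    · simpa [z0] using hs.two hσ1 n
  have hQ := tsum_bdd_sq_le hτ hr0 hr1
  have first := conv_r hW hr0 hr1 hτ
    (fun z hz => norm_PS_Wd_le (M := M) hs hc0 (by linarith) hc hM hJ hz) hQ F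
  have second := conv_r (TT_norm_le (cutS_bdd hs M) hσ1) hr0 hr1 (tauM_norm_le hs hσ1 M)
    (fun z hz => norm_PS_TT_le' (cutS_bdd hs M) (by linarith) hr0 hr1 hz)
    (tsum_tauM_le hs hσ1 M hr0 hr1) F
  have e1 : 1 - r = 1 / (J : ℝ) := one_sub_rr J
  have key : ∀ n, (r ^ n * (n * ‖Wd s M n‖)) ^ 2 ≤
      2 * (r ^ n * ‖∑ i ∈ range (n + 1), z0 (fun k => 1 - s k) i * Wd s M (n - i)‖) ^ 2
      + 2 * (‖E1 s M‖ ^ 2 * (r ^ n * ‖∑ i ∈ range (n + 1), tauM s M i * TT (cutS s M) (n - i)‖) ^ 2) := by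
    intro n
    have h1 : (n : ℝ) * ‖Wd s M n‖ ≤
        ‖∑ i ∈ range (n + 1), z0 (fun k => 1 - s k) i * Wd s M (n - i)‖
        + ‖E1 s M‖ * ‖∑ i ∈ range (n + 1), tauM s M i * TT (cutS s M) (n - i)‖ := by
      calc (n : ℝ) * ‖Wd s M n‖ = ‖(n : ℂ) * Wd s M n‖ := by rw [norm_mul, Complex.norm_natCast]
        _ ≤ _ := by rw [n_mul_Wd, ← norm_mul]; exact norm_sub_le _ _
    set a := ‖∑ i ∈ range (n + 1), z0 (fun k => 1 - s k) i * Wd s M (n - i)‖
    set b := ‖∑ i ∈ range (n + 1), tauM s M i * TT (cutS s M) (n - i)‖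
    have hrn : 0 ≤ r ^ n := by positivity
    have h2 : r ^ n * (n * ‖Wd s M n‖) ≤ r ^ n * a + ‖E1 s M‖ * (r ^ n * b) := by
      calc _ ≤ r ^ n * (a + ‖E1 s M‖ * b) := mul_le_mul_of_nonneg_left h1 hrn
        _ = _ := by ring
    calc (r ^ n * (n * ‖Wd s M n‖)) ^ 2 ≤ (r ^ n * a + ‖E1 s M‖ * (r ^ n * b)) ^ 2 :=
          pow_le_pow_left₀ (by positivity) h2 2
      _ ≤ _ := by nlinarith [sq_nonneg (r ^ n * a - ‖E1 s M‖ * (r ^ n * b))]
  have hMc : (M : ℝ) ≤ J * (((M : ℝ) / J) ^ c) ^ 2 := by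
    have h1 : (M : ℝ) / J ≤ (((M : ℝ) / J) ^ c) ^ 2 := by
      rw [← Real.rpow_natCast, ← Real.rpow_mul (by positivity)]
      calc (M : ℝ) / J = ((M : ℝ) / J) ^ (1:ℝ) := (Real.rpow_one _).symm
        _ ≤ _ := by
          apply Real.rpow_le_rpow_of_exponent_ge (by positivity) ((div_le_one hJ0).2 hMJ)
          push_cast; linarith
    calc (M : ℝ) = J * ((M : ℝ) / J) := by field_simp
      _ ≤ _ := mul_le_mul_of_nonneg_left h1 hJ0.le
  calc ∑ n ∈ F, (r ^ n * (n * ‖Wd s M n‖)) ^ 2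
      ≤ ∑ n ∈ F, (2 * (r ^ n * ‖∑ i ∈ range (n + 1), z0 (fun k => 1 - s k) i * Wd s M (n - i)‖) ^ 2
      + 2 * (‖E1 s M‖ ^ 2 * (r ^ n * ‖∑ i ∈ range (n + 1), tauM s M i * TT (cutS s M) (n - i)‖) ^ 2)) :=
        Finset.sum_le_sum (fun n _ => key n)
    _ = 2 * ∑ n ∈ F, (r ^ n * ‖∑ i ∈ range (n + 1), z0 (fun k => 1 - s k) i * Wd s M (n - i)‖) ^ 2
      + 2 * (‖E1 s M‖ ^ 2 * ∑ n ∈ F, (r ^ n * ‖∑ i ∈ range (n + 1), tauM s M i * TT (cutS s M) (n - i)‖) ^ 2) := by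
        rw [Finset.sum_add_distrib, ← Finset.mul_sum, ← Finset.mul_sum, ← Finset.mul_sum]
    _ ≤ 2 * ((4 * Real.exp 3 * (‖E1 s M‖ * mm (cutS s M) r * ((M : ℝ) / J) ^ c)) ^ 2 * (2 ^ 2 / (1 - r)))
      + 2 * (‖E1 s M‖ ^ 2 * ((Real.exp 3 * mm (cutS s M) r) ^ 2 * M)) := by gcongr
    _ ≤ 2 * ((4 * Real.exp 3 * (‖E1 s M‖ * mm (cutS s M) r * ((M : ℝ) / J) ^ c)) ^ 2 * (2 ^ 2 / (1 - r)))
      + 2 * (‖E1 s M‖ ^ 2 * ((Real.exp 3 * mm (cutS s M) r) ^ 2 * (J * (((M : ℝ) / J) ^ c) ^ 2))) := by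
        gcongr
    _ = 130 * (Real.exp 3 * GG s M c J) ^ 2 * J := by
        rw [e1]; unfold GG; rw [← hr]; field_simp; ring
    _ ≤ (12 * Real.exp 3 * GG s M c J) ^ 2 * J := by
        have : (12 * Real.exp 3 * GG s M c J) ^ 2 = 144 * (Real.exp 3 * GG s M c J) ^ 2 := by ring
        rw [this]; gcongr; norm_num

lemma GG_half (hs : Bdd s σ) {c : ℝ} (hc : c ≤ 1 - σ) {J : ℕ} (hM : 1 ≤ M)
    (hJ : 2 ≤ J) : GG s M c (J / 2) ≤ (1 / 2 : ℝ) ^ (1 - σ - c) * GG s M c J := by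
  have hJ' : 1 ≤ J / 2 := by omega
  have h := mm_mono (cutS_bdd hs M) (rr_nonneg hJ') (rr_mono hJ' (Nat.div_le_self J 2))
    (rr_lt_one (by omega))
  rw [one_sub_rr, one_sub_rr] at h
  have hM0 : (0:ℝ) < M := by exact_mod_cast hM
  have h1 : (0:ℝ) < J := by
    have : 0 < J := by omega
    exact_mod_cast this
  have h2 : (0:ℝ) < (J / 2 : ℕ) := by exact_mod_cast hJ'
  have e0 : (1 / (J : ℝ)) / (1 / ((J / 2 : ℕ) : ℝ)) = ((J / 2 : ℕ) : ℝ) / J := by field_simp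
  rw [e0] at h
  have h3 : ((J / 2 : ℕ) : ℝ) / J ≤ 1 / 2 := by
    have : ((J / 2 : ℕ) : ℝ) * 2 ≤ J := by
      have : J / 2 * 2 ≤ J := Nat.div_mul_le_self J 2
      exact_mod_cast this
    rw [div_le_div_iff₀ h1 (by norm_num)]
    linarith
  have hpos := mm_pos (cutS s M) (rr_lt_one (J := J) (by omega))
  have hE := E1_norm_pos s M
  have e1 : ((M : ℝ) / ((J / 2 : ℕ) : ℝ)) ^ c
      = ((M : ℝ) / J) ^ c * (((J / 2 : ℕ) : ℝ) / J) ^ (-c) := by
    rw [Real.rpow_neg (by positivity), ← Real.inv_rpow (by positivity),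
      ← Real.mul_rpow (by positivity) (by positivity)]
    congr 1
    field_simp
  unfold GG
  rw [e1]
  calc ‖E1 s M‖ * mm (cutS s M) (rr (J / 2)) *
        (((M : ℝ) / J) ^ c * (((J / 2 : ℕ) : ℝ) / J) ^ (-c))
      ≤ ‖E1 s M‖ * (mm (cutS s M) (rr J) * (((J / 2 : ℕ) : ℝ) / J) ^ (1 - σ)) *
        (((M : ℝ) / J) ^ c * (((J / 2 : ℕ) : ℝ) / J) ^ (-c)) := by gcongr
    _ = (‖E1 s M‖ * mm (cutS s M) (rr J) * ((M : ℝ) / J) ^ c) *
        ((((J / 2 : ℕ) : ℝ) / J) ^ (1 - σ) * (((J / 2 : ℕ) : ℝ) / J) ^ (-c)) := by ring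
    _ = (‖E1 s M‖ * mm (cutS s M) (rr J) * ((M : ℝ) / J) ^ c) *
        (((J / 2 : ℕ) : ℝ) / J) ^ (1 - σ - c) := by
        rw [← Real.rpow_add (by positivity)]; congr 2
    _ ≤ (‖E1 s M‖ * mm (cutS s M) (rr J) * ((M : ℝ) / J) ^ c) * (1 / 2 : ℝ) ^ (1 - σ - c) := by
        apply mul_le_mul_of_nonneg_left _ (by positivity)
        exact Real.rpow_le_rpow (by positivity) h3 (by linarith)
    _ = _ := by ring

end

/-- `ℓ¹` bound for the difference -/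
theorem L1_Wd {σ c : ℝ} (hσ0 : 0 ≤ σ) (hc0 : 0 ≤ c) (hc1 : c ≤ 1 / 2) (hc : √2 * σ + c ≤ 1)
    (hc2 : σ + c < 1) (hσ : √2 * σ < 1) :
    ∃ C : ℝ, 0 < C ∧ ∀ s : ℕ → ℂ, Bdd s σ → ∀ M, 2 ≤ M → ∀ J, M ≤ J →
      ∑ j ∈ range (J + 1), ‖Wd s M j‖ ≤ C * GG s M c J := by
  obtain ⟨C1, hC1, hT⟩ := L1_TT hσ hσ0
  have hσ1 : σ ≤ 1 := by nlinarith [one_le_sqrt_two]
  have hη : (1 / 2 : ℝ) ^ (1 - σ - c) < 1 := Real.rpow_lt_one (by norm_num) (by norm_num) (by linarith)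
  refine ⟨max (8 * C1) (192 * Real.exp 3 / (1 - (1 / 2 : ℝ) ^ (1 - σ - c))),
    lt_max_of_lt_left (by positivity), fun s hs M hM => ?_⟩
  refine dyadic_induction (S := fun J => ∑ j ∈ range (J + 1), ‖Wd s M j‖)
    (G := fun J => GG s M c J) (J0 := M) (J1 := 2 * M - 1) hη (by positivity) ?_ (by omega) ?_ ?_ ?_
  · intro J hJ; exact GG_pos s (by omega) (by omega)
  · intro J hJ hJ2
    have hM0 : (0:ℝ) < M := by
      have : 0 < M := by omega
      exact_mod_cast this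
    have hJ0 : (0:ℝ) < J := by
      have : 0 < J := by omega
      exact_mod_cast this
    have hMJ : (M : ℝ) ≤ J := by exact_mod_cast hJ
    have hr0 := rr_nonneg (J := J) (by omega)
    have hr1 := rr_lt_one (J := J) (by omega)
    have h1 := hT s hs J (by omega)
    have h2 := hT (cutS s M) (cutS_bdd hs M) J (by omega)
    have h3 := mm_le_cut (M := M) hs hσ1 hr0 hr1 (by
      rw [one_sub_rr, mul_one_div, div_le_one hJ0]; exact hMJ)
    have h4 : (1:ℝ) / 2 ≤ ((M : ℝ) / J) ^ c := by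
      have h5 : (1:ℝ) / 2 ≤ (M : ℝ) / J := by
        rw [div_le_div_iff₀ (by norm_num) hJ0]
        have : J ≤ 2 * M := by omega
        have : (J : ℝ) ≤ 2 * M := by exact_mod_cast this
        linarith
      calc (1:ℝ) / 2 ≤ ((M : ℝ) / J) ^ (1:ℝ) := by rw [Real.rpow_one]; exact h5
        _ ≤ ((M : ℝ) / J) ^ c := by
          apply Real.rpow_le_rpow_of_exponent_ge (by positivity) ((div_le_one hJ0).2 hMJ)
          linarith
    have hE := E1_norm_pos s M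
    have hmV := mm_pos (cutS s M) hr1
    have h6 : ∑ j ∈ range (J + 1), ‖Wd s M j‖ ≤
        ∑ j ∈ range (J + 1), ‖TT s j‖ + ‖E1 s M‖ * ∑ j ∈ range (J + 1), ‖TT (cutS s M) j‖ := by
      rw [Finset.mul_sum, ← Finset.sum_add_distrib]
      refine Finset.sum_le_sum (fun j _ => ?_)
      unfold Wd; rw [← norm_mul]; exact norm_sub_le _ _
    set X := ‖E1 s M‖ * mm (cutS s M) (rr J) with hX
    have hX0 : 0 < X := mul_pos hE hmV
    have h7 : ‖E1 s M‖ * ∑ j ∈ range (J + 1), ‖TT (cutS s M) j‖ ≤ C1 * X := by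
      calc _ ≤ ‖E1 s M‖ * (C1 * mm (cutS s M) (rr J)) := mul_le_mul_of_nonneg_left h2 hE.le
        _ = _ := by rw [hX]; ring
    have h8 : ∑ j ∈ range (J + 1), ‖TT s j‖ ≤ C1 * (3 * X) :=
      h1.trans (mul_le_mul_of_nonneg_left h3 hC1.le)
    have h9 : 4 * C1 * X ≤ 8 * C1 * GG s M c J := by
      unfold GG
      rw [← hX]
      have : X * (1 / 2) ≤ X * ((M : ℝ) / J) ^ c := mul_le_mul_of_nonneg_left h4 hX0.le
      nlinarith
    linarith
  · intro J hJ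
    have hJ0 : (0:ℝ) < J := by
      have : 0 < J := by omega
      exact_mod_cast this
    rw [sum_split]
    have h1 := sq_sum_Wd hs hc0 hc1 hc (M := M) (J := J) (by omega) (by omega) (Ioc (J / 2) J)
    have h2 := block_le (F := fun j => ‖Wd s M j‖) (fun j => norm_nonneg _) (J := J) (by omega)
      (by positivity) h1
    have hG := GG_pos s (c := c) (M := M) (J := J) (by omega) (by omega)
    have h3 : √((12 * Real.exp 3 * GG s M c J) ^ 2 * J / J) = 12 * Real.exp 3 * GG s M c J := by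
      have e : (12 * Real.exp 3 * GG s M c J) ^ 2 * J / J = (12 * Real.exp 3 * GG s M c J) ^ 2 := by
        field_simp
      rw [e, Real.sqrt_sq (by positivity)]
    rw [h3] at h2
    linarith
  · intro J hJ
    exact GG_half hs (by linarith) (by omega) (by omega)

/-- **Cutting the small indices.** -/
theorem cut_bound {σ c : ℝ} (hσ0 : 0 ≤ σ) (hc0 : 0 ≤ c) (hc1 : c ≤ 1 / 2) (hc : √2 * σ + c ≤ 1)
    (hc2 : σ + c < 1) (hσ : √2 * σ < 1) :
    ∃ C : ℝ, 0 < C ∧ ∀ s : ℕ → ℂ, Bdd s σ → ∀ M, 2 ≤ M → ∀ n, 2 * M ≤ n → TT s n = 0 →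
      ‖TT (cutS s M) n‖ ≤ C * ((M : ℝ) / n) ^ c * EE (cutS s M) (rr n) := by
  obtain ⟨C1, hC1, hT⟩ := L1_TT hσ hσ0
  obtain ⟨C2, hC2, hW⟩ := L1_Wd hσ0 hc0 hc1 hc hc2 hσ
  have hσ1 : σ ≤ 1 := by nlinarith [one_le_sqrt_two]
  refine ⟨2 * C2 + 4 * C1, by positivity, fun s hs M hM n hn hT0 => ?_⟩
  have hM0 : (0:ℝ) < M := by
    have : 0 < M := by omega
    exact_mod_cast this
  have hn0 : (0:ℝ) < n := by
    have : 0 < n := by omega
    exact_mod_cast this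
  have hMn : (M : ℝ) ≤ n := by
    have : M ≤ n := by omega
    exact_mod_cast this
  have hE := E1_norm_pos s M
  have hEE := EE_pos (cutS s M) (rr n)
  set V := TT (cutS s M) with hV
  set P := ((M : ℝ) / n) ^ c with hP
  have hPpos : 0 < P := by positivity
  -- the recursion
  have h1 : (n : ℝ) * ‖Wd s M n‖ ≤ 2 * ∑ j ∈ range (n + 1), ‖Wd s M j‖ - 2 * ‖Wd s M n‖
      + ‖E1 s M‖ * ∑ i ∈ Ioc 0 M, ‖V (n - i)‖ := by
    have h2 : (n : ℝ) * ‖Wd s M n‖ ≤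
        ‖∑ i ∈ range (n + 1), z0 (fun k => 1 - s k) i * Wd s M (n - i)‖
        + ‖E1 s M‖ * ‖∑ i ∈ range (n + 1), tauM s M i * V (n - i)‖ := by
      calc (n : ℝ) * ‖Wd s M n‖ = ‖(n : ℂ) * Wd s M n‖ := by rw [norm_mul, Complex.norm_natCast]
        _ ≤ _ := by rw [n_mul_Wd, ← norm_mul]; exact norm_sub_le _ _
    have h3 : ‖∑ i ∈ range (n + 1), z0 (fun k => 1 - s k) i * Wd s M (n - i)‖
        ≤ 2 * ∑ j ∈ range (n + 1), ‖Wd s M j‖ - 2 * ‖Wd s M n‖ := by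
      rw [Finset.sum_range_succ']
      have e0 : z0 (fun k => 1 - s k) 0 = 0 := by simp [z0]
      rw [e0, zero_mul, add_zero]
      obtain ⟨m, rfl⟩ : ∃ m, n = m + 1 := ⟨n - 1, by omega⟩
      rw [Finset.sum_range_succ (fun j => ‖Wd s M j‖) (m + 1)]
      have e1 : 2 * (∑ j ∈ range (m + 1), ‖Wd s M j‖ + ‖Wd s M (m + 1)‖) - 2 * ‖Wd s M (m + 1)‖
          = 2 * ∑ j ∈ range (m + 1), ‖Wd s M j‖ := by ring
      rw [e1, ← sum_reflect (fun j => ‖Wd s M j‖) m, Finset.mul_sum]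
      refine (norm_sum_le _ _).trans (Finset.sum_le_sum (fun i _ => ?_))
      rw [norm_mul]
      have e2 : m + 1 - (i + 1) = m - i := by omega
      rw [e2]
      apply mul_le_mul_of_nonneg_right _ (norm_nonneg _)
      simpa [z0] using hs.two hσ1 i
    have h4 : ‖∑ i ∈ range (n + 1), tauM s M i * V (n - i)‖ ≤ ∑ i ∈ Ioc 0 M, ‖V (n - i)‖ := by
      have e : ∑ i ∈ range (n + 1), tauM s M i * V (n - i) = ∑ i ∈ Ioc 0 M, tauM s M i * V (n - i) := by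
        symm
        apply Finset.sum_subset
        · intro i hi
          have := Finset.mem_Ioc.1 hi
          exact Finset.mem_range.2 (by omega)
        · intro i _ hi
          have : tauM s M i = 0 := by
            unfold tauM
            rw [Finset.mem_Ioc, not_and_or] at hi
            split_ifs with h1 h2
            · rfl
            · omega
            · rfl
          rw [this, zero_mul]
      rw [e]
      refine (norm_sum_le _ _).trans (Finset.sum_le_sum (fun i _ => ?_))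
      rw [norm_mul]
      calc ‖tauM s M i‖ * ‖V (n - i)‖ ≤ 1 * ‖V (n - i)‖ :=
            mul_le_mul_of_nonneg_right (tauM_norm_le hs hσ1 M i) (norm_nonneg _)
        _ = _ := one_mul _
    have := mul_le_mul_of_nonneg_left h4 hE.le
    linarith
  have h2 : ∑ i ∈ Ioc 0 M, ‖V (n - i)‖ ≤ M * (4 * C1 * EE (cutS s M) (rr n)) := by
    calc ∑ i ∈ Ioc 0 M, ‖V (n - i)‖ ≤ ∑ i ∈ Ioc 0 M, 4 * C1 * EE (cutS s M) (rr n) := by
          refine Finset.sum_le_sum (fun i hi => ?_)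
          have hi' := Finset.mem_Ioc.1 hi
          have hj : 2 ≤ n - i := by omega
          have h3 := pt_TT hσ1 (cutS_bdd hs M) (hT (cutS s M) (cutS_bdd hs M)) hj
          have h4 := (EE_le (cutS_bdd hs M) (rr_nonneg (J := n - i) (by omega))
            (rr_mono (by omega) (Nat.sub_le n i)) (rr_lt_one (J := n) (by omega))).2
          rw [one_sub_rr, one_sub_rr] at h4
          have hj0 : (0:ℝ) < ((n - i : ℕ) : ℝ) := by
            have : 0 < n - i := by omega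
            exact_mod_cast this
          have h5 : ((1:ℝ) / ((n - i : ℕ) : ℝ)) / (1 / n) ≤ 2 := by
            rw [div_div_eq_mul_div, div_one, one_div_mul_eq_div, div_le_iff₀ hj0]
            have : n ≤ 2 * (n - i) := by omega
            exact_mod_cast this
          have h6 : (((1:ℝ) / ((n - i : ℕ) : ℝ)) / (1 / n)) ^ σ ≤ 2 := by
            calc _ ≤ (2:ℝ) ^ σ := Real.rpow_le_rpow (by positivity) h5 hσ0
              _ ≤ (2:ℝ) ^ (1:ℝ) := Real.rpow_le_rpow_of_exponent_le (by norm_num) hσ1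
              _ = 2 := Real.rpow_one 2
          have h7 : EE (cutS s M) (rr (n - i)) ≤ EE (cutS s M) (rr n) * 2 :=
            h4.trans (mul_le_mul_of_nonneg_left h6 hEE.le)
          calc ‖V (n - i)‖ ≤ 2 * C1 * EE (cutS s M) (rr (n - i)) := h3
            _ ≤ 2 * C1 * (EE (cutS s M) (rr n) * 2) := mul_le_mul_of_nonneg_left h7 (by positivity)
            _ = _ := by ring
      _ = _ := by simp
  have h3 := hW s hs M hM n (by omega)
  have h4 : GG s M c n = n * (‖E1 s M‖ * EE (cutS s M) (rr n) * P) := by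
    unfold GG; rw [mm_eq _ (by omega)]; ring
  rw [h4] at h3
  have hMP : (M : ℝ) ≤ n * P := by
    have h5 : (M : ℝ) / n ≤ P := by
      calc (M : ℝ) / n = ((M : ℝ) / n) ^ (1:ℝ) := (Real.rpow_one _).symm
        _ ≤ _ := Real.rpow_le_rpow_of_exponent_ge (by positivity) ((div_le_one hn0).2 hMn) (by linarith)
    calc (M : ℝ) = n * ((M : ℝ) / n) := by field_simp
      _ ≤ _ := mul_le_mul_of_nonneg_left h5 hn0.le
  have h5 : (n : ℝ) * ‖Wd s M n‖ ≤
      n * (‖E1 s M‖ * ((2 * C2 + 4 * C1) * P * EE (cutS s M) (rr n))) := by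
    have h6 : ‖E1 s M‖ * ∑ i ∈ Ioc 0 M, ‖V (n - i)‖ ≤
        ‖E1 s M‖ * ((n * P) * (4 * C1 * EE (cutS s M) (rr n))) := by
      apply mul_le_mul_of_nonneg_left _ hE.le
      exact h2.trans (mul_le_mul_of_nonneg_right hMP (by positivity))
    have h7 : 0 ≤ ‖Wd s M n‖ := norm_nonneg _
    calc (n : ℝ) * ‖Wd s M n‖ ≤ 2 * (C2 * (n * (‖E1 s M‖ * EE (cutS s M) (rr n) * P)))
          + ‖E1 s M‖ * ((n * P) * (4 * C1 * EE (cutS s M) (rr n))) := by linarith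
      _ = _ := by ring
  have h6 := le_of_mul_le_mul_left h5 hn0
  have h7 : ‖Wd s M n‖ = ‖E1 s M‖ * ‖V n‖ := by
    unfold Wd; rw [hT0, zero_sub, norm_neg, norm_mul]
  rw [h7] at h6
  exact le_of_mul_le_mul_left h6 hE

end Pool.Agent.Hhelper22.Turan
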