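import Mathlib
import Pool.Agent.Hhelper22.Turan.Cut2

/-!
# A lower bound for the `ℓ¹` norm over the first half
-/

open Finset

namespace Pool.Agent.Hhelper22.Turan

section
variable {s : ℕ → ℂ} {σ : ℝ}

lemma mm_eq_norm (hs : Bdd s σ) (hσ : σ ≤ 1) {r : ℝ} (hr0 : 0 ≤ r) (hr1 : r < 1) :
    mm s r = ‖PS (TT s) (r : ℂ)‖ := by
  have hx : ‖(r : ℂ)‖ < 1 := by rwa [Complex.norm_real, Real.norm_of_nonneg hr0]
  rw [norm_PS_TT hs hσ hx]
  have : ‖(1 : ℂ) - r‖ = 1 - r := by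
    rw [show (1 : ℂ) - r = ((1 - r : ℝ) : ℂ) by push_cast; ring, Complex.norm_real,
      Real.norm_of_nonneg (by linarith)]
  rw [this]; rfl

lemma rr_pow_half_le {J : ℕ} (hJ : 2 ≤ J) : rr J ^ (J / 2) ≤ Real.exp (-(1 / 3 : ℝ)) := by
  have hJ0 : (0:ℝ) < J := by
    have : 0 < J := by omega
    exact_mod_cast this
  have h1 : rr J ≤ Real.exp (-(1 / (J : ℝ))) := by
    unfold rr
    have := Real.add_one_le_exp (-(1 / (J : ℝ)))
    linarith
  calc rr J ^ (J / 2) ≤ Real.exp (-(1 / (J : ℝ))) ^ (J / 2) :=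
        pow_le_pow_left₀ (rr_nonneg (by omega)) h1 _
    _ = Real.exp (-(((J / 2 : ℕ) : ℝ) / J)) := by
        rw [← Real.exp_nat_mul]; congr 1; ring
    _ ≤ Real.exp (-(1 / 3 : ℝ)) := by
        apply Real.exp_le_exp.2
        have : (J : ℝ) ≤ 3 * ((J / 2 : ℕ) : ℝ) := by
          have : J ≤ 3 * (J / 2) := by omega
          exact_mod_cast this
        have : (1:ℝ) / 3 ≤ ((J / 2 : ℕ) : ℝ) / J := by
          rw [div_le_div_iff₀ (by norm_num) hJ0]; linarith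
        linarith

/-- the basic inequality -/
lemma lower_aux {C : ℝ} (hσ : √2 * σ ≤ 1) (hs : Bdd s σ)
    (hC : ∀ J, 2 ≤ J → ∑ j ∈ range (J + 1), ‖TT s j‖ ≤ C * mm s (rr J)) {J : ℕ} (hJ : 2 ≤ J)
    {l : ℕ} :
    mm s (rr J) * (1 / ((l : ℝ) + 1)) ^ (2:ℝ) ≤ ∑ j ∈ range (J / 2), ‖TT s j‖
      + Real.exp (-(1 / 3 : ℝ)) ^ l * ((C + 2 * Real.exp 3) * mm s (rr J)) := by
  have hσ0 := hs.nonneg
  have hσ1 : σ ≤ 1 := by nlinarith [one_le_sqrt_two]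
  have hr0 := rr_nonneg (J := J) (by omega)
  have hr1 := rr_lt_one (J := J) (by omega)
  have h1r : 0 < 1 - rr J := by linarith
  set ρ := rr J with hρ
  have hρl0 : 0 ≤ ρ ^ (l + 1) := by positivity
  have hρl1 : ρ ^ (l + 1) ≤ ρ := by
    calc ρ ^ (l + 1) ≤ ρ ^ 1 := pow_le_pow_of_le_one hr0 hr1.le (by omega)
      _ = ρ := pow_one ρ
  have hm := mm_pos s hr1
  -- lower bound for `mm` at the power
  have h1 : mm s ρ * (1 / ((l : ℝ) + 1)) ^ (2:ℝ) ≤ mm s (ρ ^ (l + 1)) := by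
    have h2 := mm_lower hs hρl0 hρl1 hr1
    refine le_trans (mul_le_mul_of_nonneg_left ?_ hm.le) h2
    have h3 : 1 / ((l : ℝ) + 1) ≤ (1 - ρ) / (1 - ρ ^ (l + 1)) := by
      have h4 : 1 - ρ ^ (l + 1) ≤ ((l : ℝ) + 1) * (1 - ρ) := by
        have := one_add_mul_le_pow (a := ρ - 1) (by linarith) (l + 1)
        rw [show 1 + (ρ - 1) = ρ by ring] at this
        push_cast at this
        linarith
      have h5 : 0 < 1 - ρ ^ (l + 1) := by linarith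
      rw [div_le_div_iff₀ (by positivity) h5]
      linarith
    have h6 : (1 - ρ) / (1 - ρ ^ (l + 1)) ≤ 1 := by
      rw [div_le_one (by linarith)]; linarith
    calc (1 / ((l : ℝ) + 1)) ^ (2:ℝ) ≤ ((1 - ρ) / (1 - ρ ^ (l + 1))) ^ (2:ℝ) :=
          Real.rpow_le_rpow (by positivity) h3 (by norm_num)
      _ ≤ ((1 - ρ) / (1 - ρ ^ (l + 1))) ^ (1 + σ) := by
          apply Real.rpow_le_rpow_of_exponent_ge _ h6 (by linarith)
          exact div_pos h1r (by linarith)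
  refine h1.trans ?_
  -- upper bound through the series
  have hx : ‖((ρ ^ (l + 1) : ℝ) : ℂ)‖ < 1 := by
    rw [Complex.norm_real, Real.norm_of_nonneg hρl0]; linarith
  rw [mm_eq_norm hs hσ1 hρl0 (by linarith)]
  have hsum := summable_PS_norm (TT_norm_le hs hσ1) hx
  unfold PS
  refine (norm_tsum_le_tsum_norm hsum).trans ?_
  refine hsum.tsum_le_of_sum_range_le (fun N => ?_)
  have hle : ∑ i ∈ range N, ‖TT s i * ((ρ ^ (l + 1) : ℝ) : ℂ) ^ i‖ ≤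
      ∑ i ∈ range (J / 2 + N), ‖TT s i * ((ρ ^ (l + 1) : ℝ) : ℂ) ^ i‖ := by
    apply Finset.sum_le_sum_of_subset_of_nonneg
    · intro x hx; rw [Finset.mem_range] at *; omega
    · intro j _ _; positivity
  refine hle.trans ?_
  have e : ∀ i, ‖TT s i * ((ρ ^ (l + 1) : ℝ) : ℂ) ^ i‖ = ‖TT s i‖ * ρ ^ i * (ρ ^ i) ^ l := by
    intro i
    rw [norm_mul, norm_pow, Complex.norm_real, Real.norm_of_nonneg hρl0, mul_assoc, ← pow_mul,
      ← pow_mul, ← pow_add]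
    congr 2; ring
  simp_rw [e]
  rw [← Finset.sum_range_add_sum_Ico _ (show J / 2 ≤ J / 2 + N by omega)]
  apply add_le_add
  · refine Finset.sum_le_sum (fun i _ => ?_)
    have h3 : ρ ^ i ≤ 1 := pow_le_one₀ hr0 hr1.le
    have h4 : 0 ≤ ρ ^ i := by positivity
    have h5 : (ρ ^ i) ^ l ≤ 1 := pow_le_one₀ h4 h3
    calc ‖TT s i‖ * ρ ^ i * (ρ ^ i) ^ l ≤ ‖TT s i‖ * 1 * 1 := by gcongr
      _ = _ := by ring
  · calc ∑ i ∈ Ico (J / 2) (J / 2 + N), ‖TT s i‖ * ρ ^ i * (ρ ^ i) ^ l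
        ≤ ∑ i ∈ Ico (J / 2) (J / 2 + N), Real.exp (-(1 / 3 : ℝ)) ^ l * (‖TT s i‖ * ρ ^ i) := by
          refine Finset.sum_le_sum (fun i hi => ?_)
          have hi' := (Finset.mem_Ico.1 hi).1
          have h3 : ρ ^ i ≤ Real.exp (-(1 / 3 : ℝ)) :=
            (pow_le_pow_of_le_one hr0 hr1.le hi').trans (rr_pow_half_le hJ)
          rw [mul_comm]
          gcongr
      _ = Real.exp (-(1 / 3 : ℝ)) ^ l * ∑ i ∈ Ico (J / 2) (J / 2 + N), (‖TT s i‖ * ρ ^ i) := by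
          rw [Finset.mul_sum]
      _ ≤ Real.exp (-(1 / 3 : ℝ)) ^ l * ((C + 2 * Real.exp 3) * mm s (rr J)) := by
          apply mul_le_mul_of_nonneg_left _ (by positivity)
          refine le_trans ?_ (wL1_TT hσ hs hC hJ (J / 2 + N))
          apply Finset.sum_le_sum_of_subset_of_nonneg
          · intro x hx
            have := (Finset.mem_Ico.1 hx).2
            exact Finset.mem_range.2 this
          · intro j _ _; positivity

end

/-- lower bound for the first half -/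
theorem lower_TT {σ : ℝ} (hσ : √2 * σ < 1) (hσ0 : 0 ≤ σ) : ∃ c : ℝ, 0 < c ∧ ∀ s : ℕ → ℂ, Bdd s σ →
    ∀ J, 2 ≤ J → c * mm s (rr J) ≤ ∑ j ∈ range (J / 2), ‖TT s j‖ := by
  obtain ⟨C, hC, hT⟩ := L1_TT hσ hσ0
  have hlim : Filter.Tendsto (fun l : ℕ => (C + 2 * Real.exp 3) *
      (((l : ℝ) ^ 2 * Real.exp (-(1 / 3 : ℝ)) ^ l) +
        2 * ((l : ℝ) ^ 1 * Real.exp (-(1 / 3 : ℝ)) ^ l) + ((l : ℝ) ^ 0 * Real.exp (-(1 / 3 : ℝ)) ^ l)))
      Filter.atTop (nhds ((C + 2 * Real.exp 3) * (0 + 2 * 0 + 0))) := by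
    have he : |Real.exp (-(1 / 3 : ℝ))| < 1 := by
      rw [abs_of_pos (Real.exp_pos _)]
      exact Real.exp_lt_one_iff.2 (by norm_num)
    have h0 := tendsto_pow_const_mul_const_pow_of_abs_lt_one 0 he
    have h1 := tendsto_pow_const_mul_const_pow_of_abs_lt_one 1 he
    have h2 := tendsto_pow_const_mul_const_pow_of_abs_lt_one 2 he
    exact ((h2.add (h1.const_mul 2)).add h0).const_mul _
  rw [show (C + 2 * Real.exp 3) * (0 + 2 * 0 + 0) = 0 by ring] at hlim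
  obtain ⟨l, hl⟩ := (hlim.eventually (gt_mem_nhds (show (0:ℝ) < 1 / 2 by norm_num))).exists
  refine ⟨1 / 2 * (1 / ((l : ℝ) + 1)) ^ (2:ℝ), by positivity, fun s hs J hJ => ?_⟩
  have h := lower_aux hσ.le hs (hT s hs) hJ (l := l)
  have hm := mm_pos s (rr_lt_one (J := J) (by omega))
  have h1 : Real.exp (-(1 / 3 : ℝ)) ^ l * ((C + 2 * Real.exp 3) * mm s (rr J)) ≤
      1 / 2 * (1 / ((l : ℝ) + 1)) ^ (2:ℝ) * mm s (rr J) := by
    have h2 : Real.exp (-(1 / 3 : ℝ)) ^ l * (C + 2 * Real.exp 3) ≤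
        1 / 2 * (1 / ((l : ℝ) + 1)) ^ (2:ℝ) := by
      have e : (1 / ((l : ℝ) + 1)) ^ (2:ℝ) = 1 / ((l : ℝ) + 1) ^ 2 := by
        rw [show (2:ℝ) = ((2 : ℕ) : ℝ) by norm_num, Real.rpow_natCast, div_pow, one_pow]
      rw [e, mul_one_div, le_div_iff₀ (by positivity)]
      calc _ = (C + 2 * Real.exp 3) *
          (((l : ℝ) ^ 2 * Real.exp (-(1 / 3 : ℝ)) ^ l) +
          2 * ((l : ℝ) ^ 1 * Real.exp (-(1 / 3 : ℝ)) ^ l) +
          ((l : ℝ) ^ 0 * Real.exp (-(1 / 3 : ℝ)) ^ l)) := by ring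
        _ ≤ 1 / 2 := hl.le
    calc _ = Real.exp (-(1 / 3 : ℝ)) ^ l * (C + 2 * Real.exp 3) * mm s (rr J) := by ring
      _ ≤ _ := mul_le_mul_of_nonneg_right h2 hm.le
  linarith

end Pool.Agent.Hhelper22.Turan
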