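import Mathlib
import Pool.Agent.Hhelper22.Turan.Lower

/-!
# Dilation of a sequence
-/

open Finset

namespace Pool.Agent.Hhelper22.Turan

lemma Rc_rec (τ : ℕ → ℂ) (J : ℕ) :
    (J : ℂ) * Rc τ J = ∑ i ∈ range J, τ (i + 1) * Rc τ (J - 1 - i) := by
  rcases J with _ | J
  · simp
  · push_cast
    rw [Rc_succ]

/-- the coefficients of `exp (-∑ s_k x^k / k)` -/
noncomputable def cc (s : ℕ → ℂ) : ℕ → ℂ := Rc (fun k => -s k)

lemma cc_zero (s : ℕ → ℂ) : cc s 0 = 1 := Rc_zero _

lemma TT_zero (s : ℕ → ℂ) : TT s 0 = 1 := Rc_zero _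

lemma cc_succ (s : ℕ → ℂ) (n : ℕ) :
    ((n : ℂ) + 1) * cc s (n + 1) = -∑ i ∈ range (n + 1), s (i + 1) * cc s (n - i) := by
  unfold cc
  rw [Rc_succ, ← Finset.sum_neg_distrib]
  exact Finset.sum_congr rfl (fun i _ => by ring)

lemma sum_cc_eq (s : ℕ → ℂ) (n : ℕ) : ∑ i ∈ range (n + 1), cc s i = TT s n := by
  have key : ∀ n : ℕ, ((n : ℂ) + 1) * ∑ i ∈ range (n + 1 + 1), cc s i
      = ∑ i ∈ range (n + 1), (1 - s (i + 1)) * ∑ j ∈ range (n - i + 1), cc s j := by
    intro n
    induction n with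
    | zero =>
      have h := cc_succ s 0
      simp only [Nat.cast_zero, zero_add, Finset.sum_range_one, Nat.sub_self] at h
      rw [Finset.sum_range_succ, Finset.sum_range_one, Finset.sum_range_one, cc_zero]
      simp only [Nat.cast_zero, zero_add, Nat.sub_self, Finset.sum_range_one, cc_zero]
      rw [cc_zero] at h
      linear_combination h
    | succ n ih =>
      have h := cc_succ s (n + 1)
      have e1 : ∑ i ∈ range (n + 1 + 1), (1 - s (i + 1)) * ∑ j ∈ range (n + 1 - i + 1), cc s j
          = ∑ i ∈ range (n + 1), (1 - s (i + 1)) * ∑ j ∈ range (n - i + 1), cc s j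
            + ∑ i ∈ range (n + 1 + 1), (1 - s (i + 1)) * cc s (n + 1 - i) := by
        rw [Finset.sum_range_succ, Finset.sum_range_succ (fun i => (1 - s (i + 1)) * cc s (n + 1 - i)),
          ← add_assoc, ← Finset.sum_add_distrib]
        congr 1
        · refine Finset.sum_congr rfl (fun i hi => ?_)
          have hi' := Finset.mem_range.1 hi
          have e : n + 1 - i = n - i + 1 := by omega
          rw [e, Finset.sum_range_succ (fun j => cc s j) (n - i + 1)]
          ring
        · simp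
      have e2 : ∑ i ∈ range (n + 1 + 1), (1 - s (i + 1)) * cc s (n + 1 - i)
          = ∑ i ∈ range (n + 1 + 1), cc s i - ∑ i ∈ range (n + 1 + 1), s (i + 1) * cc s (n + 1 - i) := by
        rw [← sum_reflect (fun i => cc s i) (n + 1), ← Finset.sum_sub_distrib]
        exact Finset.sum_congr rfl (fun i _ => by ring)
      rw [e1, ← ih, e2, Finset.sum_range_succ (fun i => cc s i) (n + 1 + 1)]
      push_cast at h ⊢
      linear_combination h
  have h2 := Rc_unique (τ := fun k => 1 - s k) (a := fun n => ∑ i ∈ range (n + 1), cc s i) (N := n)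
    (by simp [cc_zero]) (fun m _ => key m) n le_rfl
  exact h2

lemma TT_succ_sub (s : ℕ → ℂ) (n : ℕ) : TT s (n + 1) - TT s n = cc s (n + 1) := by
  rw [← sum_cc_eq, ← sum_cc_eq, Finset.sum_range_succ (fun i => cc s i) (n + 1)]; ring

/-- coefficients vanish up to `M` when `s` does -/
lemma cc_eq_zero {s : ℕ → ℂ} {M : ℕ} (h0 : ∀ k, 1 ≤ k → k ≤ M → s k = 0) {m : ℕ} (hm : m + 1 ≤ M) :
    cc s (m + 1) = 0 := by
  have h := cc_succ s m
  rw [Finset.sum_eq_zero] at h
  · have : ((m : ℂ) + 1) ≠ 0 := by exact_mod_cast Nat.succ_ne_zero m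
    rw [neg_zero] at h
    exact (mul_eq_zero.1 h).resolve_left this
  · intro i hi
    have := Finset.mem_range.1 hi
    rw [h0 (i + 1) (by omega) (by omega), zero_mul]

/-- `|c_m| ≤ 1/(M+1)` -/
lemma cc_norm_le {s : ℕ → ℂ} {M : ℕ} (hs : Bdd s 1) (h0 : ∀ k, 1 ≤ k → k ≤ M → s k = 0) (m : ℕ) :
    ‖cc s (m + 1)‖ ≤ 1 / ((M : ℝ) + 1) := by
  induction m using Nat.strong_induction_on with
  | _ m ih =>
    rcases Nat.lt_or_ge m M with hm | hm
    · rw [cc_eq_zero h0 (by omega), norm_zero]; positivity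
    · have h := congrArg norm (cc_succ s m)
      rw [norm_mul, norm_natCast_add_one, norm_neg] at h
      have h1 : ‖∑ i ∈ range (m + 1), s (i + 1) * cc s (m - i)‖ ≤
          ∑ i ∈ Ico M (m + 1), ‖cc s (m - i)‖ := by
        have e : ∑ i ∈ range (m + 1), s (i + 1) * cc s (m - i)
            = ∑ i ∈ Ico M (m + 1), s (i + 1) * cc s (m - i) := by
          rw [← Finset.sum_range_add_sum_Ico _ (show M ≤ m + 1 by omega), Finset.sum_eq_zero, zero_add]
          intro i hi
          have := Finset.mem_range.1 hi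
          rw [h0 (i + 1) (by omega) (by omega), zero_mul]
        rw [e]
        refine (norm_sum_le _ _).trans (Finset.sum_le_sum (fun i _ => ?_))
        rw [norm_mul]
        calc ‖s (i + 1)‖ * ‖cc s (m - i)‖ ≤ 1 * ‖cc s (m - i)‖ :=
              mul_le_mul_of_nonneg_right (hs i) (norm_nonneg _)
          _ = _ := one_mul _
      have h2 : ∑ i ∈ Ico M (m + 1), ‖cc s (m - i)‖ ≤ ((m : ℝ) + 1) * (1 / ((M : ℝ) + 1)) := by
        rw [Finset.sum_Ico_succ_top hm, Nat.sub_self, cc_zero, norm_one]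
        have h3 : ∑ i ∈ Ico M m, ‖cc s (m - i)‖ ≤ ∑ i ∈ Ico M m, 1 / ((M : ℝ) + 1) := by
          refine Finset.sum_le_sum (fun i hi => ?_)
          have hi' := Finset.mem_Ico.1 hi
          obtain ⟨j, hj⟩ : ∃ j, m - i = j + 1 := ⟨m - i - 1, by omega⟩
          rw [hj]
          exact ih j (by omega)
        rw [Finset.sum_const, Nat.card_Ico, nsmul_eq_mul, Nat.cast_sub hm] at h3
        have e : ((m : ℝ) + 1) * (1 / ((M : ℝ) + 1)) = ((m : ℝ) - M) * (1 / ((M : ℝ) + 1)) + 1 := by
          field_simp; ring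
        rw [e]
        linarith
      have h3 : ((m : ℝ) + 1) * ‖cc s (m + 1)‖ ≤ ((m : ℝ) + 1) * (1 / ((M : ℝ) + 1)) := by
        rw [h]; exact h1.trans h2
      exact le_of_mul_le_mul_left h3 (by positivity)

/-- the dilated sequence `s'_K = s_{⌈K/D⌉}` -/
def dil (s : ℕ → ℂ) (D : ℕ) : ℕ → ℂ := fun K => s ((K - 1) / D + 1)

lemma dil_succ (s : ℕ → ℂ) (D K : ℕ) : dil s D (K + 1) = s (K / D + 1) := rfl

lemma dil_bdd {s : ℕ → ℂ} {σ : ℝ} (hs : Bdd s σ) (D : ℕ) : Bdd (dil s D) σ := fun _ => hs _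

lemma dil_eq_zero {s : ℕ → ℂ} {M D : ℕ} (hD : 1 ≤ D) (h0 : ∀ k, 1 ≤ k → k ≤ M → s k = 0) :
    ∀ k, 1 ≤ k → k ≤ M * D → dil s D k = 0 := by
  intro k hk1 hk
  obtain ⟨k, rfl⟩ : ∃ j, k = j + 1 := ⟨k - 1, by omega⟩
  rw [dil_succ]
  have : k / D < M := by
    rw [Nat.div_lt_iff_lt_mul (by omega)]; omega
  exact h0 _ (Nat.le_add_left 1 _) this

/-- sum over a block -/
lemma sum_block (g : ℕ → ℂ) {D q : ℕ} (hq : q ≤ D) (l : ℕ) :
    ∑ p ∈ range D, g (((l + 1) * D + q - 1 - p) / D) = q * g (l + 1) + ((D : ℂ) - q) * g l := by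
  rcases Nat.eq_zero_or_pos D with hD | hD
  · subst hD
    have : q = 0 := by omega
    subst this; simp
  rw [← Finset.sum_range_add_sum_Ico _ hq]
  have h1 : ∑ p ∈ range q, g (((l + 1) * D + q - 1 - p) / D) = ∑ p ∈ range q, g (l + 1) := by
    refine Finset.sum_congr rfl (fun p hp => ?_)
    have hp' := Finset.mem_range.1 hp
    congr 1
    have e : (l + 1) * D + q - 1 - p = D * (l + 1) + (q - 1 - p) := by
      have : (l + 1) * D = D * (l + 1) := mul_comm _ _
      omega
    rw [e, Nat.mul_add_div hD, Nat.div_eq_of_lt (by omega), add_zero]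
  have h2 : ∑ p ∈ Ico q D, g (((l + 1) * D + q - 1 - p) / D) = ∑ p ∈ Ico q D, g l := by
    refine Finset.sum_congr rfl (fun p hp => ?_)
    have hp' := Finset.mem_Ico.1 hp
    congr 1
    have e : (l + 1) * D + q - 1 - p = D * l + (D + q - 1 - p) := by
      have : (l + 1) * D = D * l + D := by ring
      omega
    rw [e, Nat.mul_add_div hD, Nat.div_eq_of_lt (by omega), add_zero]
  rw [h1, h2]
  simp only [Finset.sum_const, Finset.card_range, Nat.card_Ico, nsmul_eq_mul]
  rw [Nat.cast_sub hq]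

/-- convolution of dilated sequences -/
lemma conv_dil (f g : ℕ → ℂ) {D : ℕ} (hD : 1 ≤ D) (m : ℕ) {q : ℕ} (hq : q ≤ D) :
    ∑ i ∈ range (m * D + q), f (i / D) * g ((m * D + q - 1 - i) / D)
      = q * ∑ k ∈ range (m + 1), f k * g (m - k)
        + ((D : ℂ) - q) * ∑ k ∈ range m, f k * g (m - 1 - k) := by
  have hsplit : ∀ m' (h : ℕ → ℂ), ∑ i ∈ range (m' * D), h i
      = ∑ k ∈ range m', ∑ p ∈ range D, h (k * D + p) := by
    intro m' h
    induction m' with
    | zero => simp
    | succ m' ih =>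
      rw [Finset.sum_range_succ, ← ih, Nat.succ_mul, Finset.sum_range_add]
  rw [Finset.sum_range_add, hsplit]
  have h1 : ∑ k ∈ range m, ∑ p ∈ range D, f ((k * D + p) / D) * g ((m * D + q - 1 - (k * D + p)) / D)
      = ∑ k ∈ range m, f k * (q * g (m - k) + ((D : ℂ) - q) * g (m - 1 - k)) := by
    refine Finset.sum_congr rfl (fun k hk => ?_)
    have hk' := Finset.mem_range.1 hk
    obtain ⟨l, rfl⟩ : ∃ l, m = k + l + 1 := ⟨m - k - 1, by omega⟩
    have e1 : k + l + 1 - k = l + 1 := by omega
    have e2 : k + l + 1 - 1 - k = l := by omega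
    rw [e1, e2, ← sum_block g hq l, Finset.mul_sum]
    refine Finset.sum_congr rfl (fun p hp => ?_)
    have hp' := Finset.mem_range.1 hp
    have e3 : (k * D + p) / D = k := by
      rw [mul_comm, Nat.mul_add_div (by omega), Nat.div_eq_of_lt hp', add_zero]
    have e4 : (k + l + 1) * D + q - 1 - (k * D + p) = (l + 1) * D + q - 1 - p := by
      have : (k + l + 1) * D = k * D + (l + 1) * D := by ring
      omega
    rw [e3, e4]
  have h2 : ∑ x ∈ range q, f ((m * D + x) / D) * g ((m * D + q - 1 - (m * D + x)) / D)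
      = q * (f m * g 0) := by
    have : ∀ x ∈ range q, f ((m * D + x) / D) * g ((m * D + q - 1 - (m * D + x)) / D) = f m * g 0 := by
      intro x hx
      have hx' := Finset.mem_range.1 hx
      have e3 : (m * D + x) / D = m := by
        rw [mul_comm, Nat.mul_add_div (by omega), Nat.div_eq_of_lt (by omega), add_zero]
      have e4 : (m * D + q - 1 - (m * D + x)) / D = 0 := by
        apply Nat.div_eq_of_lt; omega
      rw [e3, e4]
    rw [Finset.sum_congr rfl this]; simp
  rw [h1, h2, Finset.sum_range_succ (fun k => f k * g (m - k)), Nat.sub_self, mul_add,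
    Finset.mul_sum, Finset.mul_sum, add_right_comm, ← Finset.sum_add_distrib]
  congr 1
  refine Finset.sum_congr rfl (fun k _ => by ring)

/-- exact recursion for the difference -/
lemma dil_diff (s : ℕ → ℂ) {D : ℕ} (hD : 1 ≤ D) (m : ℕ) {q : ℕ} (hq : q < D) :
    ((m * D + q : ℕ) : ℂ) * (TT (dil s D) (m * D + q) - TT s m)
      = ∑ i ∈ range (m * D + q), (1 - dil s D (i + 1)) *
          (TT (dil s D) (m * D + q - 1 - i) - TT s ((m * D + q - 1 - i) / D))
        + q * (((m : ℂ) + 1) * cc s (m + 1)) := by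
  have h1 : ((m * D + q : ℕ) : ℂ) * TT (dil s D) (m * D + q)
      = ∑ i ∈ range (m * D + q), (1 - dil s D (i + 1)) * TT (dil s D) (m * D + q - 1 - i) :=
    Rc_rec _ _
  have h2 : ∑ i ∈ range (m * D + q), (1 - dil s D (i + 1)) * TT s ((m * D + q - 1 - i) / D)
      = q * (((m : ℂ) + 1) * TT s (m + 1)) + ((D : ℂ) - q) * ((m : ℂ) * TT s m) := by
    have h3 := conv_dil (fun k => 1 - s (k + 1)) (TT s) hD m hq.le
    have h4 : ((m : ℂ) + 1) * TT s (m + 1) = ∑ k ∈ range (m + 1), (1 - s (k + 1)) * TT s (m - k) :=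
      Rc_succ _ _
    have h5 : (m : ℂ) * TT s m = ∑ k ∈ range m, (1 - s (k + 1)) * TT s (m - 1 - k) := Rc_rec _ _
    rw [h4, h5, ← h3]
    rfl
  have h3 := TT_succ_sub s m
  simp only [mul_sub, Finset.sum_sub_distrib]
  rw [h1, h2, ← h3]
  push_cast
  ring

/-- **dilation estimate** -/
theorem dil_bound {s : ℕ → ℂ} (hs : Bdd s 1) {M n D : ℕ} (hM : 1 ≤ M) (hMn : M ≤ n) (hD : 1 ≤ D)
    (h0 : ∀ k, 1 ≤ k → k ≤ M → s k = 0) :
    ∀ j, j ≤ n * D → ‖TT (dil s D) j - TT s (j / D)‖ ≤ (n : ℝ) / ((M : ℝ) ^ 3 * D) * ((j : ℝ) + 1) := by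
  have hM0 : (0:ℝ) < M := by exact_mod_cast hM
  have hD0 : (0:ℝ) < D := by exact_mod_cast hD
  have hn0 : (0:ℝ) < n := by
    have : 0 < n := by omega
    exact_mod_cast this
  intro j
  induction j using Nat.strong_induction_on with
  | _ j ih =>
    intro hj
    rcases Nat.lt_or_ge j (M * D) with hjM | hjM
    · -- everything is 1
      have hone : ∀ (u : ℕ → ℂ) (L : ℕ), (∀ k, 1 ≤ k → k ≤ L → u k = 0) → TT u L = 1 := by
        intro u L hu
        rw [← sum_cc_eq, Finset.sum_range_succ', cc_zero, Finset.sum_eq_zero, zero_add]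
        intro i hi
        exact cc_eq_zero hu (by have := Finset.mem_range.1 hi; omega)
      have e1 : TT (dil s D) j = 1 :=
        hone _ _ (fun k hk1 hk => dil_eq_zero hD h0 k hk1 (by omega))
      have e2 : TT s (j / D) = 1 := by
        apply hone
        intro k hk1 hk
        apply h0 k hk1
        have : j / D < M := by rw [Nat.div_lt_iff_lt_mul (by omega)]; exact hjM
        omega
      rw [e1, e2, sub_self, norm_zero]; positivity
    · obtain ⟨m, q, hq, rfl⟩ : ∃ m q, q < D ∧ j = m * D + q :=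
        ⟨j / D, j % D, Nat.mod_lt _ (by omega), by rw [mul_comm]; exact (Nat.div_add_mod j D).symm⟩
      have e1 : (m * D + q) / D = m := by
        rw [mul_comm, Nat.mul_add_div (by omega), Nat.div_eq_of_lt hq, add_zero]
      have hd := congrArg norm (dil_diff s hD m hq)
      rw [norm_mul, Complex.norm_natCast] at hd
      rw [e1]
      set B := (n : ℝ) / ((M : ℝ) ^ 3 * D) with hB
      have hB0 : 0 < B := by positivity
      have hJpos : 0 < m * D + q := by
        have : 0 < M * D := by positivity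
        omega
      -- the convolution part
      have h1 : ‖∑ i ∈ range (m * D + q), (1 - dil s D (i + 1)) *
          (TT (dil s D) (m * D + q - 1 - i) - TT s ((m * D + q - 1 - i) / D))‖
          ≤ 2 * ∑ i ∈ Ico (M * D) (m * D + q), (B * ((i : ℝ) + 1)) := by
        have h2 : ‖∑ i ∈ range (m * D + q), (1 - dil s D (i + 1)) *
          (TT (dil s D) (m * D + q - 1 - i) - TT s ((m * D + q - 1 - i) / D))‖
          ≤ ∑ i ∈ range (m * D + q), 2 *
            ‖TT (dil s D) (m * D + q - 1 - i) - TT s ((m * D + q - 1 - i) / D)‖ := by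
          refine (norm_sum_le _ _).trans (Finset.sum_le_sum (fun i _ => ?_))
          rw [norm_mul]
          exact mul_le_mul_of_nonneg_right ((dil_bdd hs D).two le_rfl i) (norm_nonneg _)
        refine h2.trans ?_
        rw [← Finset.mul_sum, Finset.sum_range_reflect (fun i => ‖TT (dil s D) i - TT s (i / D)‖)
          (m * D + q), ← Finset.sum_range_add_sum_Ico _ hjM]
        have h3 : ∑ i ∈ range (M * D), ‖TT (dil s D) i - TT s (i / D)‖ = 0 := by
          apply Finset.sum_eq_zero
          intro i hi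
          have hi' := Finset.mem_range.1 hi
          have hone : ∀ (u : ℕ → ℂ) (L : ℕ), (∀ k, 1 ≤ k → k ≤ L → u k = 0) → TT u L = 1 := by
            intro u L hu
            rw [← sum_cc_eq, Finset.sum_range_succ', cc_zero, Finset.sum_eq_zero, zero_add]
            intro i hi
            exact cc_eq_zero hu (by have := Finset.mem_range.1 hi; omega)
          have e1 : TT (dil s D) i = 1 :=
            hone _ _ (fun k hk1 hk => dil_eq_zero hD h0 k hk1 (by omega))
          have e2 : TT s (i / D) = 1 := by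
            apply hone
            intro k hk1 hk
            apply h0 k hk1
            have : i / D < M := by rw [Nat.div_lt_iff_lt_mul (by omega)]; exact hi'
            omega
          rw [e1, e2, sub_self, norm_zero]
        rw [h3, zero_add]
        apply mul_le_mul_of_nonneg_left _ (by norm_num)
        refine Finset.sum_le_sum (fun i hi => ?_)
        have hi' := Finset.mem_Ico.1 hi
        exact ih i (by omega) (by omega)
      have hgauss : ∀ a b : ℕ, a ≤ b → 2 * ∑ i ∈ Ico a b, (B * ((i : ℝ) + 1))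
          = B * (b * (b + 1) - a * (a + 1)) := by
        intro a b hab
        induction b, hab using Nat.le_induction with
        | base => simp
        | succ b hab ih =>
          rw [Finset.sum_Ico_succ_top hab, mul_add, ih]; push_cast; ring
      rw [hgauss _ _ hjM] at h1
      -- the inhomogeneous part
      have h2 : ‖(q : ℂ) * (((m : ℂ) + 1) * cc s (m + 1))‖ ≤ D * (n / ((M : ℝ) + 1)) := by
        rcases Nat.eq_zero_or_pos q with hq0 | hq0
        · subst hq0; simp; positivity
        · rw [norm_mul, norm_mul, Complex.norm_natCast, norm_natCast_add_one]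
          have hmn : m + 1 ≤ n := by
            by_contra hcon
            have : n ≤ m := by omega
            have : n * D ≤ m * D := Nat.mul_le_mul_right D this
            omega
          have hmn' : (m : ℝ) + 1 ≤ n := by exact_mod_cast hmn
          have hqD : (q : ℝ) ≤ D := by exact_mod_cast hq.le
          have hc := cc_norm_le hs h0 m
          calc (q : ℝ) * (((m : ℝ) + 1) * ‖cc s (m + 1)‖) ≤ D * (n * (1 / ((M : ℝ) + 1))) := by
                gcongr
            _ = _ := by ring
      have h3 := hd.le.trans ((norm_add_le _ _).trans (add_le_add h1 h2))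
      have hJ0 : (0:ℝ) < ((m * D + q : ℕ) : ℝ) := by exact_mod_cast hJpos
      have h4 : (D : ℝ) * (n / ((M : ℝ) + 1)) ≤ B * (((M * D : ℕ) : ℝ) * (((M * D : ℕ) : ℝ) + 1)) := by
        rw [hB]
        push_cast
        have e : (n : ℝ) / ((M : ℝ) ^ 3 * D) * ((M : ℝ) * D * ((M : ℝ) * D + 1))
            = n * (M * D + 1) / (M : ℝ) ^ 2 := by field_simp
        rw [e, mul_div_assoc', div_le_div_iff₀ (by positivity) (by positivity)]
        have h5 : (D : ℝ) * n * (M : ℝ) ^ 2 ≤ n * (M * D) * (M + 1) := by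
          have : (D : ℝ) * n * (M : ℝ) ^ 2 = n * (M * D) * M := by ring
          rw [this]
          apply mul_le_mul_of_nonneg_left _ (by positivity)
          linarith
        have h6 : (n : ℝ) * (M * D) * (M + 1) ≤ n * (M * D + 1) * (M + 1) := by
          apply mul_le_mul_of_nonneg_right _ (by positivity)
          apply mul_le_mul_of_nonneg_left _ hn0.le
          linarith
        linarith
      have h5 : ((m * D + q : ℕ) : ℝ) * ‖TT (dil s D) (m * D + q) - TT s m‖
          ≤ ((m * D + q : ℕ) : ℝ) * (B * (((m * D + q : ℕ) : ℝ) + 1)) := by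
        calc _ ≤ _ := h3
          _ ≤ B * (((m * D + q : ℕ) : ℝ) * (((m * D + q : ℕ) : ℝ) + 1) -
              ((M * D : ℕ) : ℝ) * (((M * D : ℕ) : ℝ) + 1)) +
              B * (((M * D : ℕ) : ℝ) * (((M * D : ℕ) : ℝ) + 1)) := add_le_add_right h4 _
          _ = _ := by ring
      exact le_of_mul_le_mul_left h5 hJ0

end Pool.Agent.Hhelper22.Turan
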