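import Mathlib
import Pool.Agent.Hhelper22.Turan.Dil

/-!
# Perturbing the second half of the sequence
-/

open Finset PowerSeries

namespace Pool.Agent.Hhelper22.Turan

/-- `Rc τ` as a formal power series -/
noncomputable def RS (τ : ℕ → ℂ) : ℂ⟦X⟧ := PowerSeries.mk (Rc τ)

/-- `τ` as a formal power series (shifted) -/
noncomputable def GS (τ : ℕ → ℂ) : ℂ⟦X⟧ := PowerSeries.mk (fun n => τ (n + 1))

lemma coeff_GS_mul (τ : ℕ → ℂ) (W : ℂ⟦X⟧) (n : ℕ) :
    PowerSeries.coeff n (GS τ * W) = ∑ i ∈ range (n + 1), τ (i + 1) * PowerSeries.coeff (n - i) W := by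
  rw [PowerSeries.coeff_mul, Finset.Nat.sum_antidiagonal_eq_sum_range_succ_mk]
  refine Finset.sum_congr rfl (fun i _ => ?_)
  simp [GS]

lemma deriv_RS (τ : ℕ → ℂ) : PowerSeries.derivative ℂ (RS τ) = GS τ * RS τ := by
  ext n
  rw [coeff_GS_mul]
  simp only [PowerSeries.coeff_derivative, RS, PowerSeries.coeff_mk]
  rw [mul_comm, Rc_succ]

lemma RS_unique {τ : ℕ → ℂ} {W : ℂ⟦X⟧} {N : ℕ} (h0 : PowerSeries.coeff 0 W = 1)
    (h : ∀ n < N, PowerSeries.coeff n (PowerSeries.derivative ℂ W) = PowerSeries.coeff n (GS τ * W)) :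
    ∀ n ≤ N, PowerSeries.coeff n W = Rc τ n := by
  refine Rc_unique (a := fun n => PowerSeries.coeff n W) h0 (fun n hn => ?_)
  have := h n hn
  rw [PowerSeries.coeff_derivative, coeff_GS_mul] at this
  rw [mul_comm]; exact this

/-- changing the entries of index `> N/2` -/
lemma Rc_pert (τ η : ℕ → ℂ) {N : ℕ} (hη : ∀ k, 2 * k ≤ N → η k = 0) :
    Rc (fun k => τ k - η k) N = Rc τ N - ∑ k ∈ Ioc (N / 2) N, η k / k * Rc τ (N - k) := by
  set Q : ℂ⟦X⟧ := PowerSeries.mk (fun k => if k = 0 then 0 else η k / k) with hQ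
  have hQ' : PowerSeries.derivative ℂ Q = GS η := by
    ext n
    simp only [PowerSeries.coeff_derivative, hQ, GS, PowerSeries.coeff_mk]
    rw [if_neg (Nat.succ_ne_zero n)]
    have : ((n : ℂ) + 1) ≠ 0 := by exact_mod_cast Nat.succ_ne_zero n
    push_cast
    field_simp
  have hG : GS (fun k => τ k - η k) = GS τ - GS η := by
    ext n; simp [GS]
  have h := RS_unique (τ := fun k => τ k - η k) (W := RS τ * (1 - Q)) (N := N) ?_ ?_ N le_rfl
  · rw [← h, mul_sub, mul_one, map_sub, PowerSeries.coeff_mul, sub_eq_sub_iff_sub_eq_sub]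
    have h1 : PowerSeries.coeff N (RS τ) = Rc τ N := by simp [RS]
    rw [h1, sub_self]
    symm
    rw [sub_eq_zero, Finset.Nat.sum_antidiagonal_eq_sum_range_succ_mk,
      ← sum_reflect]
    rw [← Finset.sum_range_add_sum_Ico _ (show N / 2 + 1 ≤ N + 1 by omega), Finset.sum_eq_zero,
      zero_add]
    · have e : Ioc (N / 2) N = Ico (N / 2 + 1) (N + 1) := by
        ext x; simp only [Finset.mem_Ioc, Finset.mem_Ico]; omega
      rw [e]
      refine Finset.sum_congr rfl (fun i hi => ?_)
      have hi' := Finset.mem_Ico.1 hi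
      have e1 : N - (N - i) = i := by omega
      simp only [RS, hQ, PowerSeries.coeff_mk, e1]
      rw [if_neg (by omega)]; ring
    · intro i hi
      have hi' := Finset.mem_range.1 hi
      have e1 : N - (N - i) = i := by omega
      simp only [RS, hQ, PowerSeries.coeff_mk, e1]
      rcases Nat.eq_zero_or_pos i with h0 | h0
      · rw [if_pos h0, mul_zero]
      · rw [if_neg (by omega), hη i (by omega)]; simp
  · rw [PowerSeries.coeff_zero_eq_constantCoeff_apply, map_mul, map_sub, map_one,
      ← PowerSeries.coeff_zero_eq_constantCoeff_apply, ← PowerSeries.coeff_zero_eq_constantCoeff_apply]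
    simp [RS, hQ, Rc_zero]
  · intro n hn
    have h1 : PowerSeries.derivative ℂ (RS τ * (1 - Q))
        = GS (fun k => τ k - η k) * (RS τ * (1 - Q)) - GS η * Q * RS τ := by
      rw [Derivation.leibniz, map_sub, hQ', deriv_RS, hG]
      simp only [smul_eq_mul, Derivation.map_one_eq_zero]
      ring
    rw [h1, map_sub]
    have h2 : PowerSeries.coeff n (GS η * Q * RS τ) = 0 := by
      rw [PowerSeries.coeff_mul]
      apply Finset.sum_eq_zero
      intro p hp
      rw [Finset.HasAntidiagonal.mem_antidiagonal] at hp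
      have h3 : PowerSeries.coeff p.1 (GS η * Q) = 0 := by
        rw [PowerSeries.coeff_mul]
        apply Finset.sum_eq_zero
        intro p' hp'
        rw [Finset.HasAntidiagonal.mem_antidiagonal] at hp'
        simp only [GS, hQ, PowerSeries.coeff_mk]
        rcases Nat.lt_or_ge N (2 * (p'.1 + 1)) with h4 | h4
        · split_ifs with h5
          · simp
          · rw [hη p'.2 (by omega)]; simp
        · rw [hη _ h4]; simp
      rw [h3, zero_mul]
    rw [h2, sub_zero]

end Pool.Agent.Hhelper22.Turan
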