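import Mathlib
import Pool.Agent.Hhelper22.Turan.Pert

/-!
# Transfer of near-optimal sequences to all large sizes
-/

open Finset

namespace Pool.Agent.Hhelper22.Turan

lemma TT_pert (s η : ℕ → ℂ) {N : ℕ} (hη : ∀ k, 2 * k ≤ N → η k = 0) :
    TT (fun k => s k + η k) N = TT s N - ∑ k ∈ Ioc (N / 2) N, η k * (TT s (N - k) / k) := by
  have h := Rc_pert (fun k => 1 - s k) η hη
  unfold TT
  rw [show (fun k => 1 - (s k + η k)) = (fun k => (1 - s k) - η k) by ext k; ring, h]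
  congr 1
  exact Finset.sum_congr rfl (fun k _ => by ring)

/-- alignment of phases -/
lemma align (F : Finset ℕ) (w : ℕ → ℂ) {y : ℂ} {B : ℝ} (hB : 0 ≤ B)
    (hy : ‖y‖ ≤ B * ∑ k ∈ F, ‖w k‖) :
    ∃ θ : ℕ → ℂ, (∀ k, ‖θ k‖ ≤ B) ∧ ∑ k ∈ F, θ k * w k = y := by
  rcases eq_or_lt_of_le (Finset.sum_nonneg (fun k (_ : k ∈ F) => norm_nonneg (w k))) with h | h
  · refine ⟨fun _ => 0, fun k => by simpa using hB, ?_⟩
    rw [← h, mul_zero] at hy
    have : y = 0 := norm_le_zero_iff.1 hy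
    simp [this]
  · set S := ∑ k ∈ F, ‖w k‖ with hS
    refine ⟨fun k => (y / S) * ((starRingEnd ℂ) (w k) / ‖w k‖), fun k => ?_, ?_⟩
    · rw [norm_mul, norm_div, norm_div, Complex.norm_conj]
      have h1 : ‖((S : ℝ) : ℂ)‖ = S := by rw [Complex.norm_real, Real.norm_of_nonneg h.le]
      have h2 : ‖((‖w k‖ : ℝ) : ℂ)‖ = ‖w k‖ := by
        rw [Complex.norm_real, Real.norm_of_nonneg (norm_nonneg _)]
      rw [h1, h2]
      have h3 : ‖w k‖ / ‖w k‖ ≤ 1 := div_self_le_one _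
      have h4 : ‖y‖ / S ≤ B := by rw [div_le_iff₀ h]; exact hy
      calc ‖y‖ / S * (‖w k‖ / ‖w k‖) ≤ B * 1 := by gcongr
        _ = B := mul_one B
    · have h1 : ∀ k ∈ F, (y / S) * ((starRingEnd ℂ) (w k) / ‖w k‖) * w k = (y / S) * (‖w k‖ : ℂ) := by
        intro k _
        rcases eq_or_ne (w k) 0 with h0 | h0
        · simp [h0]
        · have h2 : ((‖w k‖ : ℝ) : ℂ) ≠ 0 := by
            rw [Complex.ofReal_ne_zero]; exact norm_ne_zero_iff.2 h0
          have h3 : (starRingEnd ℂ) (w k) * w k = (‖w k‖ : ℂ) ^ 2 := by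
            rw [mul_comm, Complex.mul_conj, Complex.normSq_eq_norm_sq]; push_cast; ring
          have h4 : (starRingEnd ℂ) (w k) / (‖w k‖ : ℂ) * w k = (‖w k‖ : ℂ) := by
            rw [div_mul_eq_mul_div, h3, pow_two, mul_div_assoc, div_self h2, mul_one]
          rw [mul_assoc, h4]
      rw [Finset.sum_congr rfl h1, ← Finset.mul_sum, ← Complex.ofReal_sum, ← hS]
      have : ((S : ℝ) : ℂ) ≠ 0 := by rw [Complex.ofReal_ne_zero]; exact h.ne'
      field_simp

lemma TT_congr {s s' : ℕ → ℂ} {n : ℕ} (h : ∀ k, 1 ≤ k → k ≤ n → s k = s' k) : TT s n = TT s' n :=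
  Rc_congr (N := n) (fun k hk1 hk => by rw [h k hk1 hk]) n le_rfl

lemma TT_sub_le {s : ℕ → ℂ} {M : ℕ} (hs : Bdd s 1) (h0 : ∀ k, 1 ≤ k → k ≤ M → s k = 0) (a i : ℕ) :
    ‖TT s (a + i) - TT s a‖ ≤ i * (1 / ((M : ℝ) + 1)) := by
  induction i with
  | zero => simp
  | succ i ih =>
    have h1 := TT_succ_sub s (a + i)
    have h2 := cc_norm_le hs h0 (a + i)
    calc ‖TT s (a + (i + 1)) - TT s a‖ = ‖(TT s (a + i + 1) - TT s (a + i)) + (TT s (a + i) - TT s a)‖ := by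
          congr 1; rw [← add_assoc]; ring
      _ ≤ 1 / ((M : ℝ) + 1) + i * (1 / ((M : ℝ) + 1)) := by
          rw [h1]; exact (norm_add_le _ _).trans (add_le_add h2 ih)
      _ = _ := by push_cast; ring

lemma cutS_zero (s : ℕ → ℂ) (M : ℕ) : ∀ k, 1 ≤ k → k ≤ M → cutS s M k = 0 := by
  intro k _ hk; simp [cutS, hk]

/-- one transfer step, all quantities explicit -/
lemma transfer_step {σ ε c₁ E : ℝ} (hε : 0 < ε) (hσ1 : σ ≤ 1) (hc₁ : 0 < c₁)
    (hE : 0 < E) {u : ℕ → ℂ} (hu : Bdd u σ) {M n : ℕ} (hM : 1 ≤ M) (hMn : M ≤ n) (hn : 2 ≤ n)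
    (h0 : ∀ k, 1 ≤ k → k ≤ M → u k = 0)
    (hlow : c₁ * (n * E) ≤ ∑ j ∈ range (n / 2), ‖TT u j‖)
    (hV : ‖TT u n‖ ≤ ε * c₁ / 16 * E)
    (he1 : (n : ℝ) ^ 2 / (M : ℝ) ^ 3 ≤ c₁ / 4 * E)
    (he2 : (n : ℝ) ^ 2 / (M : ℝ) ^ 3 ≤ ε * c₁ / 64 * E) {D i : ℕ} (hD : 1 ≤ D) (hi : i < n)
    (he3 : (n : ℝ) / (M * D) ≤ ε * c₁ / 64 * E) :
    ∃ s' : ℕ → ℂ, Bdd s' (σ + ε) ∧ TT s' (n * D + i) = 0 := by
  have hM0 : (0:ℝ) < M := by exact_mod_cast hM
  have hD0 : (0:ℝ) < D := by exact_mod_cast hD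
  have hD1 : (1:ℝ) ≤ D := by exact_mod_cast hD
  have hn0 : (0:ℝ) < n := by
    have : 0 < n := by omega
    exact_mod_cast this
  have hn1 : (1:ℝ) ≤ n := by
    have : 1 ≤ n := by omega
    exact_mod_cast this
  have hu1 : Bdd u 1 := fun k => (hu k).trans hσ1
  have hdil := dil_bound hu1 hM hMn hD h0
  set N := n * D + i with hN
  set v := dil u D with hv
  have hvb : Bdd v σ := dil_bdd hu D
  set X := (n : ℝ) ^ 2 / (M : ℝ) ^ 3 with hX
  have hX0 : 0 < X := by positivity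
  -- upper bound at `N`
  have h1 : ‖TT v (n * D)‖ ≤ ε * c₁ / 16 * E + 2 * X := by
    have h2 := hdil (n * D) le_rfl
    rw [Nat.mul_div_cancel _ (by omega)] at h2
    have h3 : (n : ℝ) / ((M : ℝ) ^ 3 * D) * (((n * D : ℕ) : ℝ) + 1) ≤ 2 * X := by
      rw [hX]
      push_cast
      rw [div_mul_eq_mul_div, mul_div_assoc', div_le_div_iff₀ (by positivity) (by positivity)]
      have h4 : (n : ℝ) * D + 1 ≤ 2 * (n * D) := by nlinarith
      calc (n : ℝ) * (n * D + 1) * (M : ℝ) ^ 3 ≤ n * (2 * (n * D)) * (M : ℝ) ^ 3 := by gcongr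
        _ = _ := by ring
    calc ‖TT v (n * D)‖ = ‖(TT v (n * D) - TT u n) + TT u n‖ := by congr 1; ring
      _ ≤ 2 * X + ε * c₁ / 16 * E := (norm_add_le _ _).trans (add_le_add (h2.trans h3) hV)
      _ = _ := by ring
  have h2 : ‖TT v N - TT v (n * D)‖ ≤ ε * c₁ / 64 * E := by
    have hvb1 : Bdd v 1 := dil_bdd hu1 D
    have h3 := TT_sub_le hvb1 (dil_eq_zero hD h0) (n * D) i
    refine h3.trans (le_trans ?_ he3)
    have hin : (i : ℝ) ≤ n := by exact_mod_cast hi.le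
    rw [mul_one_div]
    push_cast
    exact div_le_div₀ hn0.le hin (by positivity) (by linarith)
  have h3 : ‖TT v N‖ ≤ ε * (c₁ * E / 4) := by
    have h4 : ‖TT v N‖ ≤ ‖TT v N - TT v (n * D)‖ + ‖TT v (n * D)‖ := by
      calc ‖TT v N‖ = ‖(TT v N - TT v (n * D)) + TT v (n * D)‖ := by congr 1; ring
        _ ≤ _ := norm_add_le _ _
    have : 0 ≤ ε * c₁ * E := by positivity
    linarith
  -- lower bound for the sum
  have h4 : c₁ * E / 4 ≤ ∑ k ∈ Ioc (N / 2) N, ‖TT v (N - k) / k‖ := by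
    have hN0 : (0:ℝ) < N := by
      have : 0 < N := by
        have : 0 < n * D := by positivity
        omega
      exact_mod_cast this
    have h5 : ∑ k ∈ Ioc (N / 2) N, ‖TT v (N - k)‖ / N ≤ ∑ k ∈ Ioc (N / 2) N, ‖TT v (N - k) / k‖ := by
      refine Finset.sum_le_sum (fun k hk => ?_)
      have hk' := Finset.mem_Ioc.1 hk
      rw [norm_div, Complex.norm_natCast]
      have hk0 : (0:ℝ) < k := by
        have : 0 < k := by omega
        exact_mod_cast this
      have hkN : (k : ℝ) ≤ N := by exact_mod_cast hk'.2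
      exact div_le_div_of_nonneg_left (norm_nonneg _) hk0 hkN
    have h6 : ∑ j ∈ range (n / 2 * D), ‖TT v j‖ ≤ ∑ k ∈ Ioc (N / 2) N, ‖TT v (N - k)‖ := by
      have e : ∑ k ∈ Ioc (N / 2) N, ‖TT v (N - k)‖ = ∑ j ∈ range (N - N / 2), ‖TT v j‖ := by
        apply Finset.sum_nbij' (fun k => N - k) (fun j => N - j)
        · intro k hk
          have := Finset.mem_Ioc.1 hk
          exact Finset.mem_range.2 (by omega)
        · intro j hj
          have := Finset.mem_range.1 hj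
          exact Finset.mem_Ioc.2 ⟨by omega, by omega⟩
        · intro k hk
          have := Finset.mem_Ioc.1 hk
          omega
        · intro j hj
          have := Finset.mem_range.1 hj
          omega
        · intro k hk; rfl
      rw [e]
      apply Finset.sum_le_sum_of_subset_of_nonneg
      · intro j hj
        rw [Finset.mem_range] at *
        have : n / 2 * D * 2 ≤ n * D := by
          calc n / 2 * D * 2 = (n / 2 * 2) * D := by ring
            _ ≤ n * D := Nat.mul_le_mul_right D (Nat.div_mul_le_self n 2)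
        omega
      · intro j _ _; exact norm_nonneg _
    have h7 : (D : ℝ) * (c₁ * (n * E)) - (n / 2 : ℝ) * D * X ≤ ∑ j ∈ range (n / 2 * D), ‖TT v j‖ := by
      have hsplit : ∀ m' (h : ℕ → ℝ), ∑ i ∈ range (m' * D), h i
          = ∑ k ∈ range m', ∑ p ∈ range D, h (k * D + p) := by
        intro m' h
        induction m' with
        | zero => simp
        | succ m' ih =>
          rw [Finset.sum_range_succ, ← ih, Nat.succ_mul, Finset.sum_range_add]
      have h8 : ∀ j ∈ range (n / 2 * D), ‖TT u (j / D)‖ - X ≤ ‖TT v j‖ := by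
        intro j hj
        have hj' := Finset.mem_range.1 hj
        have hjn : j + 1 ≤ n * D := by
          have : n / 2 * D ≤ n * D := Nat.mul_le_mul_right D (Nat.div_le_self n 2)
          omega
        have h9 := hdil j (by omega)
        have h10 : (n : ℝ) / ((M : ℝ) ^ 3 * D) * ((j : ℝ) + 1) ≤ X := by
          have : (j : ℝ) + 1 ≤ n * D := by exact_mod_cast hjn
          calc (n : ℝ) / ((M : ℝ) ^ 3 * D) * ((j : ℝ) + 1) ≤ (n : ℝ) / ((M : ℝ) ^ 3 * D) * (n * D) := by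
                gcongr
            _ = X := by rw [hX]; field_simp
        have h11 : ‖TT u (j / D)‖ ≤ ‖TT v j‖ + ‖TT v j - TT u (j / D)‖ := by
          calc ‖TT u (j / D)‖ = ‖TT v j - (TT v j - TT u (j / D))‖ := by congr 1; ring
            _ ≤ _ := norm_sub_le _ _
        linarith
      have h9 := Finset.sum_le_sum h8
      rw [Finset.sum_sub_distrib, hsplit (n / 2) (fun j => ‖TT u (j / D)‖)] at h9
      have h10 : ∑ k ∈ range (n / 2), ∑ p ∈ range D, ‖TT u ((k * D + p) / D)‖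
          = D * ∑ k ∈ range (n / 2), ‖TT u k‖ := by
        rw [Finset.mul_sum]
        refine Finset.sum_congr rfl (fun k _ => ?_)
        have : ∀ p ∈ range D, ‖TT u ((k * D + p) / D)‖ = ‖TT u k‖ := by
          intro p hp
          have hp' := Finset.mem_range.1 hp
          rw [mul_comm k D, Nat.mul_add_div (by omega), Nat.div_eq_of_lt hp', add_zero]
        rw [Finset.sum_congr rfl this]; simp
      rw [h10, Finset.sum_const, Finset.card_range, nsmul_eq_mul] at h9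
      have h11 : ((n / 2 * D : ℕ) : ℝ) * X ≤ (n / 2 : ℝ) * D * X := by
        have : ((n / 2 * D : ℕ) : ℝ) ≤ (n / 2 : ℝ) * D := by
          push_cast
          have h12 : ((n / 2 : ℕ) : ℝ) ≤ (n : ℝ) / 2 := Nat.cast_div_le
          gcongr
        gcongr
      have h12 : (D : ℝ) * (c₁ * (n * E)) ≤ D * ∑ k ∈ range (n / 2), ‖TT u k‖ := by gcongr
      linarith
    have h8 : c₁ * E / 4 ≤ ((D : ℝ) * (c₁ * (n * E)) - (n / 2 : ℝ) * D * X) / N := by
      rw [le_div_iff₀ hN0]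
      have hNle : (N : ℝ) ≤ 2 * (n * D) := by
        have h9 : N ≤ 2 * (n * D) := by
          have : n * 1 ≤ n * D := Nat.mul_le_mul_left n hD
          omega
        exact_mod_cast h9
      have hcE : 0 < c₁ * E := by positivity
      have h9 : c₁ * E / 4 * N ≤ c₁ * E / 4 * (2 * (n * D)) := by gcongr
      have h10 : (n / 2 : ℝ) * D * X ≤ (n / 2 : ℝ) * D * (c₁ / 4 * E) := by gcongr
      have h11 : 0 < c₁ * E * (n * D) := by positivity
      nlinarith
    have h9 : (∑ k ∈ Ioc (N / 2) N, ‖TT v (N - k)‖) / N ≤ ∑ k ∈ Ioc (N / 2) N, ‖TT v (N - k) / k‖ := by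
      rw [Finset.sum_div]; exact h5
    refine h8.trans (le_trans ?_ h9)
    gcongr
    exact h7.trans h6
  -- choose the perturbation
  have h5 : ‖TT v N‖ ≤ ε * ∑ k ∈ Ioc (N / 2) N, ‖TT v (N - k) / k‖ :=
    h3.trans (mul_le_mul_of_nonneg_left h4 hε.le)
  obtain ⟨θ, hθ1, hθ2⟩ := align (Ioc (N / 2) N) (fun k => TT v (N - k) / k) hε.le h5
  refine ⟨fun k => v k + (if 2 * k ≤ N then 0 else θ k), fun k => ?_, ?_⟩
  · refine (norm_add_le _ _).trans (add_le_add (hvb k) ?_)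
    split_ifs
    · simpa using hε.le
    · exact hθ1 _
  · rw [TT_pert v (fun k => if 2 * k ≤ N then 0 else θ k) (fun k hk => if_pos hk)]
    have : ∑ k ∈ Ioc (N / 2) N, (if 2 * k ≤ N then 0 else θ k) * (TT v (N - k) / k)
        = ∑ k ∈ Ioc (N / 2) N, θ k * (TT v (N - k) / k) := by
      refine Finset.sum_congr rfl (fun k hk => ?_)
      have := Finset.mem_Ioc.1 hk
      rw [if_neg (by omega)]
    rw [this, hθ2, sub_self]

/-- **Transfer theorem.** -/
theorem transfer {σ ε : ℝ} (hσ0 : 0 ≤ σ) (hσ : √2 * σ < 1) (hε : 0 < ε) :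
    ∃ n₀ : ℕ, ∀ n ≥ n₀, (∃ s : ℕ → ℂ, (∀ k, 1 ≤ k → k ≤ n → ‖s k‖ ≤ σ) ∧ TT s n = 0) →
      ∃ N₀ : ℕ, ∀ N ≥ N₀, ∃ s' : ℕ → ℂ, Bdd s' (σ + ε) ∧ TT s' N = 0 := by
  have hσ1 : σ < 1 := by nlinarith [one_le_sqrt_two]
  set c := min (1 / 2) (min (1 - √2 * σ) ((1 - σ) / 2)) with hc
  have hc0 : 0 < c := by
    refine lt_min (by norm_num) (lt_min (by linarith) (by linarith))
  have hca : c ≤ 1 / 2 := min_le_left _ _
  have hcb : c ≤ 1 - √2 * σ := (min_le_right _ _).trans (min_le_left _ _)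
  have hcc : c ≤ (1 - σ) / 2 := (min_le_right _ _).trans (min_le_right _ _)
  obtain ⟨CA, hCA, hcut⟩ := cut_bound hσ0 hc0.le hca (by linarith) (by linarith) hσ
  obtain ⟨c₁, hc₁, hlow⟩ := lower_TT hσ hσ0
  set δ := min (1 / 2) ((ε * c₁ / (16 * CA)) ^ (1 / c)) with hδ
  have hδ0 : 0 < δ := lt_min (by norm_num) (by positivity)
  have hδ1 : δ ≤ 1 / 2 := min_le_left _ _
  have hδc : δ ^ c ≤ ε * c₁ / (16 * CA) := by
    calc δ ^ c ≤ ((ε * c₁ / (16 * CA)) ^ (1 / c)) ^ c :=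
          Real.rpow_le_rpow hδ0.le (min_le_right _ _) hc0.le
      _ = ε * c₁ / (16 * CA) := by
          rw [← Real.rpow_mul (by positivity), one_div_mul_cancel hc0.ne', Real.rpow_one]
  set κ := min (c₁ / 4) (ε * c₁ / 64) with hκ
  have hκ0 : 0 < κ := lt_min (by positivity) (by positivity)
  have ht : Filter.Tendsto (fun n : ℕ => (n : ℝ) ^ (1 - σ)) Filter.atTop Filter.atTop :=
    (tendsto_rpow_atTop (by linarith)).comp tendsto_natCast_atTop_atTop
  have ht2 : Filter.Tendsto (fun n : ℕ => δ * (n : ℝ)) Filter.atTop Filter.atTop :=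
    tendsto_natCast_atTop_atTop.const_mul_atTop hδ0
  obtain ⟨n₀, hn₀⟩ := Filter.eventually_atTop.1
    ((ht.eventually_ge_atTop (8 / (δ ^ 3 * κ))).and (ht2.eventually_ge_atTop 2))
  refine ⟨n₀, fun n hn => ?_⟩
  rintro ⟨s, hs, hsT⟩
  obtain ⟨hn1, hn2⟩ := hn₀ n hn
  have hn0 : (0:ℝ) < n := by
    by_contra hcon
    have : (n : ℝ) ≤ 0 := not_lt.1 hcon
    nlinarith
  have hn3 : 2 ≤ n := by
    have h1 : (2:ℝ) ≤ n := by nlinarith
    exact_mod_cast h1
  -- extend by zero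
  set s0 : ℕ → ℂ := fun k => if k ≤ n then s k else 0 with hs0
  have hs0b : Bdd s0 σ := by
    intro k
    simp only [hs0]
    split_ifs with h
    · exact hs _ (by omega) h
    · simpa using hσ0
  have hs0T : TT s0 n = 0 := by
    rw [← hsT]
    apply TT_congr
    intro k _ hk
    simp [hs0, hk]
  set M := ⌊δ * n⌋₊ with hM
  have hM1 : (M : ℝ) ≤ δ * n := Nat.floor_le (by positivity)
  have hM2 : δ * n / 2 ≤ M := by
    have := Nat.lt_floor_add_one (δ * n)
    rw [← hM] at this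
    linarith
  have hM3 : 2 ≤ M := Nat.le_floor (by exact_mod_cast hn2)
  have hM0 : (0:ℝ) < M := by
    have : 0 < M := by omega
    exact_mod_cast this
  have hM4 : 2 * M ≤ n := by
    have : (2:ℝ) * M ≤ n := by nlinarith
    exact_mod_cast this
  set u := cutS s0 M with hu
  have hub : Bdd u σ := cutS_bdd hs0b M
  set E := EE u (rr n) with hE
  have hE0 : 0 < E := EE_pos _ _
  have hElow : (n : ℝ) ^ (-σ) ≤ E := by
    have h1 := EE_ge hub (rr_nonneg (J := n) (by omega)) (rr_lt_one (by omega))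
    rw [one_sub_rr, one_div, Real.inv_rpow hn0.le, ← Real.rpow_neg hn0.le] at h1
    exact h1
  have hV : ‖TT u n‖ ≤ ε * c₁ / 16 * E := by
    refine (hcut s0 hs0b M hM3 n hM4 hs0T).trans ?_
    apply mul_le_mul_of_nonneg_right _ hE0.le
    have h1 : ((M : ℝ) / n) ^ c ≤ δ ^ c := by
      apply Real.rpow_le_rpow (by positivity) _ hc0.le
      rw [div_le_iff₀ hn0]; exact hM1
    calc CA * ((M : ℝ) / n) ^ c ≤ CA * (ε * c₁ / (16 * CA)) :=
          mul_le_mul_of_nonneg_left (h1.trans hδc) hCA.le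
      _ = ε * c₁ / 16 := by field_simp
  have hX : (n : ℝ) ^ 2 / (M : ℝ) ^ 3 ≤ κ * E := by
    have h1 : (n : ℝ) ^ 2 / (M : ℝ) ^ 3 ≤ (n : ℝ) ^ 2 / (δ * n / 2) ^ 3 := by gcongr
    have h2 : (n : ℝ) ^ 2 / (δ * n / 2) ^ 3 = κ * ((8 / (δ ^ 3 * κ)) / n) := by
      field_simp; norm_num
    have h3 : κ * ((8 / (δ ^ 3 * κ)) / n) ≤ κ * ((n : ℝ) ^ (1 - σ) / n) := by gcongr
    have h4 : (n : ℝ) ^ (1 - σ) / n = (n : ℝ) ^ (-σ) := by
      rw [show 1 - σ = 1 + (-σ) by ring, Real.rpow_add hn0, Real.rpow_one]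
      field_simp
    rw [h4] at h3
    calc (n : ℝ) ^ 2 / (M : ℝ) ^ 3 ≤ κ * (n : ℝ) ^ (-σ) := h1.trans (h2.le.trans h3)
      _ ≤ κ * E := mul_le_mul_of_nonneg_left hElow hκ0.le
  have hlow' : c₁ * (n * E) ≤ ∑ j ∈ range (n / 2), ‖TT u j‖ := by
    have := hlow u hub n hn3
    rw [mm_eq u (by omega)] at this
    exact this
  set D₀ := ⌈(n : ℝ) / (M * (ε * c₁ / 64 * E))⌉₊ with hD₀
  refine ⟨(D₀ + 1) * n, fun N hN => ?_⟩
  have hND : D₀ + 1 ≤ N / n := (Nat.le_div_iff_mul_le (by omega)).2 hN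
  have hDD : (n : ℝ) / (M * (ε * c₁ / 64 * E)) ≤ ((N / n : ℕ) : ℝ) := by
    calc (n : ℝ) / (M * (ε * c₁ / 64 * E)) ≤ D₀ := Nat.le_ceil _
      _ ≤ _ := by
        have : D₀ ≤ N / n := by omega
        exact_mod_cast this
  have hDpos : (0:ℝ) < ((N / n : ℕ) : ℝ) := by
    have : 0 < N / n := by omega
    exact_mod_cast this
  have he3 : (n : ℝ) / (M * ((N / n : ℕ) : ℝ)) ≤ ε * c₁ / 64 * E := by
    rw [div_le_iff₀ (by positivity)] at hDD ⊢
    calc (n : ℝ) ≤ ((N / n : ℕ) : ℝ) * (M * (ε * c₁ / 64 * E)) := hDD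
      _ = _ := by ring
  have hres := transfer_step hε hσ1.le hc₁ hE0 hub (M := M) (n := n) (by omega) (by omega) hn3
    (cutS_zero s0 M) hlow' hV
    (hX.trans (mul_le_mul_of_nonneg_right (min_le_left _ _) hE0.le))
    (hX.trans (mul_le_mul_of_nonneg_right (min_le_right _ _) hE0.le))
    (D := N / n) (i := N % n) (by omega) (Nat.mod_lt _ (by omega)) he3
  rwa [Nat.div_add_mod] at hres

end Pool.Agent.Hhelper22.Turan
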