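import Mathlib
import Pool.Agent.Hhelper22.Turan.Transfer

/-!
# From vectors to sequences and back
-/

open Finset

namespace Pool.Agent.Hhelper22.Turan

section
variable {ι : Type*}

/-- power sums over a finset -/
noncomputable def psum (F : Finset ι) (z : ι → ℂ) (k : ℕ) : ℂ := ∑ j ∈ F, z j ^ k

/-- the product `∏ (1 - z_j X)` as a formal power series -/
noncomputable def ES (F : Finset ι) (z : ι → ℂ) : PowerSeries ℂ :=
  ∏ j ∈ F, (1 - PowerSeries.C (z j) * PowerSeries.X)

lemma GS_geom (z : ℂ) :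
    GS (fun k => -z ^ k) * (1 - PowerSeries.C z * PowerSeries.X) = -PowerSeries.C z := by
  ext n
  rw [mul_sub, mul_one, ← mul_assoc, mul_right_comm, map_sub]
  rcases n with _ | n
  · simp [GS]
  · simp only [PowerSeries.coeff_mul_C, PowerSeries.coeff_succ_mul_X, GS, PowerSeries.coeff_mk, map_neg,
      PowerSeries.coeff_C, Nat.succ_ne_zero, if_false]
    ring

lemma deriv_ES [DecidableEq ι] (F : Finset ι) (z : ι → ℂ) :
    PowerSeries.derivative ℂ (ES F z) = GS (fun k => -psum F z k) * ES F z := by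
  induction F using Finset.induction_on with
  | empty =>
    have : GS (fun k => -psum (∅ : Finset ι) z k) = 0 := by
      ext n; simp [GS, psum]
    rw [this]; simp [ES]
  | insert a F ha ih =>
    have h1 : ES (insert a F) z = (1 - PowerSeries.C (z a) * PowerSeries.X) * ES F z := by
      unfold ES; rw [Finset.prod_insert ha]
    have h2 : GS (fun k => -psum (insert a F) z k) = GS (fun k => -z a ^ k) + GS (fun k => -psum F z k) := by
      ext n; simp [GS, psum, Finset.sum_insert ha]; ring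
    have h3 : PowerSeries.derivative ℂ (1 - PowerSeries.C (z a) * PowerSeries.X) = -PowerSeries.C (z a) := by
      ext n
      rw [PowerSeries.coeff_derivative]
      rcases n with _ | n
      · simp [PowerSeries.coeff_C, PowerSeries.coeff_one]
      · simp [PowerSeries.coeff_one]
    rw [h1, h2, Derivation.leibniz, h3, ih, ← GS_geom (z a)]
    simp only [smul_eq_mul]
    ring

lemma coeff_ES [DecidableEq ι] (F : Finset ι) (z : ι → ℂ) (n : ℕ) : PowerSeries.coeff n (ES F z) = cc (psum F z) n := by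
  refine RS_unique (τ := fun k => -psum F z k) (N := n) ?_ (fun m _ => ?_) n le_rfl
  · rw [PowerSeries.coeff_zero_eq_constantCoeff_apply]
    simp [ES]
  · rw [deriv_ES]

/-- the product as a polynomial -/
noncomputable def EP (F : Finset ι) (z : ι → ℂ) : Polynomial ℂ :=
  ∏ j ∈ F, (1 - Polynomial.C (z j) * Polynomial.X)

lemma coe_EP [DecidableEq ι] (F : Finset ι) (z : ι → ℂ) : ((EP F z : Polynomial ℂ) : PowerSeries ℂ) = ES F z := by
  unfold EP ES
  induction F using Finset.induction_on with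
  | empty => simp
  | insert a F ha ih =>
    rw [Finset.prod_insert ha, Finset.prod_insert ha, Polynomial.coe_mul, ih]
    simp

lemma coeff_EP [DecidableEq ι] (F : Finset ι) (z : ι → ℂ) (n : ℕ) : (EP F z).coeff n = cc (psum F z) n := by
  rw [← coeff_ES, ← coe_EP, Polynomial.coeff_coe]

lemma natDegree_EP_le (F : Finset ι) (z : ι → ℂ) : (EP F z).natDegree ≤ F.card := by
  unfold EP
  refine (Polynomial.natDegree_prod_le _ _).trans ?_
  calc ∑ i ∈ F, (1 - Polynomial.C (z i) * Polynomial.X : Polynomial ℂ).natDegree ≤ ∑ i ∈ F, 1 := by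
        refine Finset.sum_le_sum (fun i _ => ?_)
        compute_degree
    _ = F.card := by simp

lemma eval_EP (F : Finset ι) (z : ι → ℂ) (x : ℂ) : (EP F z).eval x = ∏ j ∈ F, (1 - z j * x) := by
  unfold EP
  rw [Polynomial.eval_prod]
  simp

lemma TT_psum [DecidableEq ι] (F : Finset ι) (z : ι → ℂ) : TT (psum F z) F.card = ∏ j ∈ F, (1 - z j) := by
  have h1 := eval_EP F z 1
  rw [Polynomial.eval_eq_sum_range' (Nat.lt_succ_of_le (natDegree_EP_le F z))] at h1
  simp only [one_pow, mul_one] at h1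
  rw [← h1, ← sum_cc_eq]
  exact Finset.sum_congr rfl (fun i _ => (coeff_EP F z i).symm)

end

/-- equal coefficients force equal sequences -/
lemma cc_inj {s s' : ℕ → ℂ} {N : ℕ} (h : ∀ i ≤ N, cc s i = cc s' i) :
    ∀ k, 1 ≤ k → k ≤ N → s k = s' k := by
  intro k
  induction k using Nat.strong_induction_on with
  | _ k ih =>
    intro hk1 hk
    obtain ⟨n, rfl⟩ : ∃ n, k = n + 1 := ⟨k - 1, by omega⟩
    have h1 := cc_succ s n
    have h2 := cc_succ s' n
    rw [Finset.sum_range_succ, Nat.sub_self, cc_zero, mul_one] at h1 h2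
    rw [h (n + 1) hk, h2] at h1
    have h3 : ∑ i ∈ range n, s (i + 1) * cc s (n - i) = ∑ i ∈ range n, s' (i + 1) * cc s' (n - i) := by
      refine Finset.sum_congr rfl (fun i hi => ?_)
      have hi' := Finset.mem_range.1 hi
      rw [ih (i + 1) (by omega) (by omega) (by omega), h (n - i) (by omega)]
    rw [h3] at h1
    linear_combination h1

/-- factorisation: every sequence is a sequence of power sums, up to `N` -/
lemma exists_psum (s : ℕ → ℂ) (N : ℕ) :
    ∃ z : Fin N → ℂ, (∀ k, 1 ≤ k → k ≤ N → psum Finset.univ z k = s k) := by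
  set Q : Polynomial ℂ := ∑ i ∈ range (N + 1), Polynomial.C (cc s i) * Polynomial.X ^ (N - i) with hQ
  have hQdeg : Q.natDegree ≤ N := by
    rw [hQ]
    apply Polynomial.natDegree_sum_le_of_forall_le
    intro i _
    refine (Polynomial.natDegree_C_mul_X_pow_le _ _).trans (by omega)
  have hQc : Q.coeff N = 1 := by
    rw [hQ, Polynomial.finsetSum_coeff, Finset.sum_eq_single 0]
    · simp [cc_zero]
    · intro i hi hi0
      have hi' := Finset.mem_range.1 hi
      rw [Polynomial.coeff_C_mul_X_pow, if_neg (by omega)]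
    · intro h; simp at h
  have hQm : Q.Monic := Polynomial.monic_of_natDegree_le_of_coeff_eq_one N hQdeg hQc
  have hQn : Q.natDegree = N := by
    apply le_antisymm hQdeg
    apply Polynomial.le_natDegree_of_ne_zero
    rw [hQc]; exact one_ne_zero
  have hsplit := IsAlgClosed.splits Q
  have hcard : Multiset.card Q.roots = N := by
    rw [← hQn]; exact (Polynomial.splits_iff_card_roots.1 hsplit)
  have hev : ∀ x : ℂ, Q.eval x = (Q.roots.map (x - ·)).prod :=
    hsplit.eval_eq_prod_roots_of_monic hQm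
  have hlist : ∀ (l : List ℂ) (N : ℕ), l.length = N → ∃ z : Fin N → ℂ, ∀ g : ℂ → ℂ,
      (l.map g).prod = ∏ i, g (z i) := by
    rintro l _ rfl
    exact ⟨fun i => l[i.1], fun g => (Fin.prod_univ_fun_getElem l g).symm⟩
  obtain ⟨z, hz⟩ := hlist Q.roots.toList N (by rw [Multiset.length_toList, hcard])
  have hev2 : ∀ x : ℂ, Q.eval x = ∏ i, (x - z i) := by
    intro x
    rw [hev x, ← hz (fun y => x - y), ← Multiset.prod_toList]
    conv_lhs => rw [← Multiset.coe_toList Q.roots]
    rw [Multiset.map_coe, Multiset.prod_toList, Multiset.prod_coe]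
  refine ⟨z, ?_⟩
  -- compare the two polynomials
  set P : Polynomial ℂ := ∑ i ∈ range (N + 1), Polynomial.C (cc s i) * Polynomial.X ^ i with hP
  have hPE : P = EP Finset.univ z := by
    apply Polynomial.eq_of_infinite_eval_eq
    have hinf : ({0}ᶜ : Set ℂ).Infinite := by
      apply Set.Finite.infinite_compl
      exact Set.finite_singleton 0
    refine hinf.mono (fun x hx => ?_)
    have hx0 : x ≠ 0 := hx
    simp only [Set.mem_ofPred_eq]
    rw [eval_EP]
    have h1 := hev2 x⁻¹
    have h2 : x ^ N * ∏ i, (x⁻¹ - z i) = ∏ i, (1 - z i * x) := by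
      have : x ^ N = ∏ i : Fin N, x := by simp
      rw [this, ← Finset.prod_mul_distrib]
      refine Finset.prod_congr rfl (fun i _ => ?_)
      field_simp
    rw [← h2, ← h1, hP, hQ, Polynomial.eval_finsetSum, Polynomial.eval_finsetSum, Finset.mul_sum]
    refine Finset.sum_congr rfl (fun i hi => ?_)
    have hi' := Finset.mem_range.1 hi
    simp only [Polynomial.eval_mul, Polynomial.eval_C, Polynomial.eval_pow, Polynomial.eval_X]
    have e : x ^ N = x ^ (N - i) * x ^ i := by rw [← pow_add]; congr 1; omega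
    rw [e, inv_pow]
    field_simp
  have hcoef : ∀ i ≤ N, cc (psum Finset.univ z) i = cc s i := by
    intro i hi
    rw [← coeff_EP, ← hPE, hP, Polynomial.finsetSum_coeff, Finset.sum_eq_single i]
    · simp
    · intro j _ hj
      rw [Polynomial.coeff_C_mul_X_pow, if_neg (Ne.symm hj)]
    · intro h
      exact absurd (Finset.mem_range.2 (by omega)) h
  exact cc_inj hcoef

/-- from a sequence to a vector -/
theorem exists_vector {s : ℕ → ℂ} {σ : ℝ} {n : ℕ} (hs : ∀ k, 1 ≤ k → k ≤ n + 1 → ‖s k‖ ≤ σ)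
    (hT : TT s (n + 1) = 0) :
    ∃ z : Fin (n + 1) → ℂ, z 0 = 1 ∧ (∀ j, ‖z j‖ ≤ 1) ∧
      ∀ k, 1 ≤ k → k ≤ n + 1 → ‖∑ j, z j ^ k‖ ≤ σ := by
  obtain ⟨z, hz⟩ := exists_psum s (n + 1)
  have h1 : TT (psum Finset.univ z) (n + 1) = 0 := by
    rw [← hT]; exact TT_congr hz
  have h2 := TT_psum Finset.univ z
  rw [Finset.card_univ, Fintype.card_fin, h1] at h2
  obtain ⟨j0, -, hj0⟩ := Finset.prod_eq_zero_iff.1 h2.symm
  have hj0' : z j0 = 1 := by linear_combination -hj0
  obtain ⟨j1, hj1⟩ := Finite.exists_max (fun j => ‖z j‖)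
  have hR : 1 ≤ ‖z j1‖ := by
    have := hj1 j0
    rwa [hj0', norm_one] at this
  have hR0 : 0 < ‖z j1‖ := by linarith
  have hz1 : z j1 ≠ 0 := norm_pos_iff.1 hR0
  refine ⟨fun j => z (Equiv.swap 0 j1 j) / z j1, ?_, fun j => ?_, fun k hk1 hk => ?_⟩
  · simp only [Equiv.swap_apply_left]
    exact div_self hz1
  · rw [norm_div, div_le_one hR0]; exact hj1 _
  · have e : ∑ j, (z (Equiv.swap 0 j1 j) / z j1) ^ k = (∑ j, z j ^ k) / z j1 ^ k := by
      simp_rw [div_pow]
      rw [← Finset.sum_div]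
      congr 1
      exact Equiv.sum_comp (Equiv.swap 0 j1) (fun j => z j ^ k)
    rw [e, norm_div, norm_pow]
    have h3 : ∑ j, z j ^ k = s k := hz k hk1 hk
    rw [h3]
    have h4 : 1 ≤ ‖z j1‖ ^ k := one_le_pow₀ hR
    calc ‖s k‖ / ‖z j1‖ ^ k ≤ ‖s k‖ / 1 := by gcongr
      _ = ‖s k‖ := div_one _
      _ ≤ σ := hs k hk1 hk

/-- from a vector to a sequence -/
theorem vector_TT {n : ℕ} {z : Fin (n + 1) → ℂ} (h0 : z 0 = 1) :
    TT (psum Finset.univ z) (n + 1) = 0 := by
  have h2 := TT_psum Finset.univ z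
  rw [Finset.card_univ, Fintype.card_fin] at h2
  rw [h2]
  apply Finset.prod_eq_zero (Finset.mem_univ 0)
  rw [h0, sub_self]

end Pool.Agent.Hhelper22.Turan
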