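import Mathlib
import Pool.Agent.Hhelper22.Turan.Transfer

/-!
# An explicit family
-/

open Finset Filter Topology

namespace Pool.Agent.Hhelper22.Turan

/-- the constant sequence `β` -/
noncomputable def Tb (β : ℂ) : ℕ → ℂ := TT (fun _ => β)

lemma Tb_zero (β : ℂ) : Tb β 0 = 1 := TT_zero _

lemma Tb_succ (β : ℂ) (j : ℕ) : ((j : ℂ) + 1) * Tb β (j + 1) = ((j : ℂ) + 1 - β) * Tb β j := by
  have h1 : ((j : ℂ) + 1) * Tb β (j + 1) = ∑ i ∈ range (j + 1), (1 - β) * Tb β (j - i) := Rc_succ _ _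
  have h2 : (j : ℂ) * Tb β j = ∑ i ∈ range j, (1 - β) * Tb β (j - 1 - i) := Rc_rec _ _
  rw [← Finset.mul_sum, sum_reflect (Tb β)] at h1
  rw [← Finset.mul_sum, Finset.sum_range_reflect (Tb β) j] at h2
  rw [Finset.sum_range_succ] at h1
  linear_combination h1 - h2

lemma desc_succ_cast (m j : ℕ) :
    ((j.descFactorial (m + 1) : ℕ) : ℝ) = ((j : ℝ) - m) * (j.descFactorial m : ℕ) := by
  rw [Nat.descFactorial_succ]
  rcases Nat.lt_or_ge j m with h | h
  · rw [Nat.descFactorial_of_lt h]; simp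
  · rw [Nat.cast_mul, Nat.cast_sub h]

lemma desc_succ_castC (m j : ℕ) :
    ((j.descFactorial (m + 1) : ℕ) : ℂ) = ((j : ℂ) - m) * (j.descFactorial m : ℕ) := by
  have := congrArg (fun x : ℝ => (x : ℂ)) (desc_succ_cast m j)
  push_cast at this
  exact this

lemma sum_desc (β : ℂ) (m J : ℕ) :
    ((m : ℂ) + 1 - β) * ∑ j ∈ range J, (j.descFactorial m : ℕ) * Tb β j
      = (J.descFactorial (m + 1) : ℕ) * Tb β J := by
  induction J with
  | zero => simp
  | succ J ih =>
    rw [Finset.sum_range_succ, mul_add, ih, Nat.succ_descFactorial_succ, desc_succ_castC]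
    have h := Tb_succ β J
    push_cast
    linear_combination (-(J.descFactorial m : ℂ)) * h

/-- the error in the norm recursion -/
noncomputable def er (β : ℂ) (j : ℕ) : ℝ := ‖(j : ℂ) + 1 - β‖ - ((j : ℝ) + 1 - β.re)

lemma er_nonneg (β : ℂ) (j : ℕ) : 0 ≤ er β j := by
  unfold er
  have h := Complex.re_le_norm ((j : ℂ) + 1 - β)
  simp only [Complex.sub_re, Complex.add_re, Complex.natCast_re, Complex.one_re] at h
  linarith

lemma norm_Tb_succ (β : ℂ) (j : ℕ) :
    ((j : ℝ) + 1) * ‖Tb β (j + 1)‖ = ((j : ℝ) + 1 - β.re + er β j) * ‖Tb β j‖ := by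
  have h := congrArg norm (Tb_succ β j)
  rw [norm_mul, norm_mul, norm_natCast_add_one] at h
  rw [h]; unfold er; ring

lemma sum_desc_norm (β : ℂ) (m J : ℕ) :
    ∑ j ∈ range J, ((m : ℝ) + 1 - β.re + er β j) * ((j.descFactorial m : ℕ) * ‖Tb β j‖)
      = (J.descFactorial (m + 1) : ℕ) * ‖Tb β J‖ := by
  induction J with
  | zero => simp
  | succ J ih =>
    rw [Finset.sum_range_succ, ih, Nat.succ_descFactorial_succ, desc_succ_cast]
    have h := norm_Tb_succ β J
    push_cast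
    linear_combination (-(J.descFactorial m : ℝ)) * h

lemma tendsto_er (β : ℂ) : Tendsto (er β) atTop (𝓝 0) := by
  -- `er ≤ b² / (j + 1 - a)`
  have h1 : Tendsto (fun j : ℕ => β.im ^ 2 * ((j : ℝ) + 1 - β.re)⁻¹) atTop (𝓝 (β.im ^ 2 * 0)) := by
    apply Tendsto.const_mul
    apply tendsto_inv_atTop_zero.comp
    have : Tendsto (fun j : ℕ => (j : ℝ) + (1 - β.re)) atTop atTop :=
      tendsto_atTop_add_const_right _ _ tendsto_natCast_atTop_atTop
    refine this.congr (fun j => by ring)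
  rw [mul_zero] at h1
  refine tendsto_of_tendsto_of_tendsto_of_le_of_le' tendsto_const_nhds h1
    (Eventually.of_forall (er_nonneg β)) ?_
  have h2 : ∀ᶠ j : ℕ in atTop, β.re < j := tendsto_natCast_atTop_atTop.eventually_gt_atTop _
  filter_upwards [h2] with j hj
  have hx : 0 < (j : ℝ) + 1 - β.re := by linarith
  set x := (j : ℝ) + 1 - β.re with hxdef
  have hn : ‖(j : ℂ) + 1 - β‖ ^ 2 = x ^ 2 + β.im ^ 2 := by
    rw [← Complex.normSq_eq_norm_sq, Complex.normSq_apply]
    simp only [Complex.sub_re, Complex.add_re, Complex.natCast_re, Complex.one_re,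
      Complex.sub_im, Complex.add_im, Complex.natCast_im, Complex.one_im]
    rw [hxdef]; ring
  have h3 : ‖(j : ℂ) + 1 - β‖ ≤ x + β.im ^ 2 * x⁻¹ := by
    apply le_of_sq_le_sq _ (by positivity)
    rw [hn]
    have : (x + β.im ^ 2 * x⁻¹) ^ 2 = x ^ 2 + 2 * β.im ^ 2 + (β.im ^ 2 * x⁻¹) ^ 2 := by
      field_simp; ring
    rw [this]
    nlinarith [sq_nonneg (β.im ^ 2 * x⁻¹), sq_nonneg β.im]
  unfold er
  linarith

lemma norm_Tb_ge {β : ℂ} (hβ : β.re ≤ 1 / 2) (j : ℕ) : 1 / ((j : ℝ) + 1) ≤ ‖Tb β j‖ := by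
  induction j with
  | zero => simp [Tb_zero]
  | succ j ih =>
    have h := norm_Tb_succ β j
    have h1 := er_nonneg β j
    have hj : (0:ℝ) ≤ j := Nat.cast_nonneg j
    have h2 : ((j : ℝ) + 1 - β.re + er β j) * ‖Tb β j‖ ≥ ((j : ℝ) + 1 / 2) * (1 / ((j : ℝ) + 1)) := by
      apply mul_le_mul _ ih (by positivity) (by linarith)
      linarith
    rw [← h] at h2
    have h3 : ((j : ℝ) + 1) * (1 / (((j + 1 : ℕ) : ℝ) + 1)) ≤ ((j : ℝ) + 1) * ‖Tb β (j + 1)‖ := by
      refine le_trans ?_ h2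
      push_cast
      rw [mul_one_div, mul_one_div, div_le_div_iff₀ (by positivity) (by positivity)]
      nlinarith
    exact le_of_mul_le_mul_left h3 (by positivity)

lemma norm_Tb_pos {β : ℂ} (hβ : β.re ≤ 1 / 2) (j : ℕ) : 0 < ‖Tb β j‖ :=
  lt_of_lt_of_le (by positivity) (norm_Tb_ge hβ j)

/-- weighted sum of norms -/
noncomputable def Gm (β : ℂ) (m J : ℕ) : ℝ := ∑ j ∈ range J, (j.descFactorial m : ℕ) * ‖Tb β j‖

lemma Gm_nonneg (β : ℂ) (m J : ℕ) : 0 ≤ Gm β m J := Finset.sum_nonneg (fun _ _ => by positivity)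

lemma Gm_le {β : ℂ} (hβ : β.re ≤ 1 / 2) (m J : ℕ) :
    Gm β m J ≤ (J.descFactorial (m + 1) : ℕ) * ‖Tb β J‖ / ((m : ℝ) + 1 - β.re) := by
  have hm : (0:ℝ) ≤ m := Nat.cast_nonneg m
  rw [le_div_iff₀ (by linarith), ← sum_desc_norm, Gm, Finset.sum_mul]
  refine Finset.sum_le_sum (fun j _ => ?_)
  rw [mul_comm]
  apply mul_le_mul_of_nonneg_right _ (by positivity)
  linarith [er_nonneg β j]

lemma tendsto_Gm {β : ℂ} (hβ : β.re ≤ 1 / 2) (m : ℕ) :
    Tendsto (fun J => Gm β m J / ((J.descFactorial (m + 1) : ℕ) * ‖Tb β J‖)) atTop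
      (𝓝 (1 / ((m : ℝ) + 1 - β.re))) := by
  have hm : (0:ℝ) ≤ m := Nat.cast_nonneg m
  have hG : Tendsto (fun J => Gm β m J) atTop atTop := by
    have h1 : Tendsto (fun J : ℕ => ∑ i ∈ range J, (1 / ((i : ℝ) + 1)) + (-(m : ℝ))) atTop atTop :=
      tendsto_atTop_add_const_right _ _ Real.tendsto_sum_range_one_div_nat_succ_atTop
    refine tendsto_atTop_mono (fun J => ?_) h1
    have h2 : ∀ i ∈ range J, 1 / ((i : ℝ) + 1) ≤ (i.descFactorial m : ℕ) * ‖Tb β i‖
        + (if i < m then (1:ℝ) else 0) := by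
      intro i _
      split_ifs with h
      · have h3 : 1 / ((i : ℝ) + 1) ≤ 1 := by
          rw [div_le_one (by positivity)]
          linarith [Nat.cast_nonneg (α := ℝ) i]
        have : 0 ≤ ((i.descFactorial m : ℕ) : ℝ) * ‖Tb β i‖ := by positivity
        linarith
      · have h3 : (1:ℝ) ≤ ((i.descFactorial m : ℕ) : ℝ) := by
          have : 0 < i.descFactorial m := Nat.descFactorial_pos.2 (by omega)
          exact_mod_cast this
        have h4 := norm_Tb_ge hβ i
        have h5 := norm_nonneg (Tb β i)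
        nlinarith
    have h3 := Finset.sum_le_sum h2
    rw [Finset.sum_add_distrib] at h3
    have h4 : ∑ i ∈ range J, (if i < m then (1:ℝ) else 0) ≤ m := by
      rw [Finset.sum_ite, Finset.sum_const_zero, add_zero, Finset.sum_const, nsmul_eq_mul, mul_one]
      have : (Finset.filter (fun i => i < m) (range J)).card ≤ (range m).card := by
        apply Finset.card_le_card
        intro x hx
        rw [Finset.mem_filter] at hx
        exact Finset.mem_range.2 hx.2
      rw [Finset.card_range] at this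
      exact_mod_cast this
    unfold Gm
    linarith
  have hlo : (fun J => ∑ j ∈ range J, er β j * ((j.descFactorial m : ℕ) * ‖Tb β j‖))
      =o[atTop] (fun J => Gm β m J) := by
    apply Asymptotics.IsLittleO.sum_range
    · have h1 : (fun j => er β j) =o[atTop] (fun _ : ℕ => (1:ℝ)) :=
        (Asymptotics.isLittleO_one_iff ℝ).2 (tendsto_er β)
      have h2 := h1.mul_isBigO (Asymptotics.isBigO_refl
        (fun j : ℕ => ((j.descFactorial m : ℕ) : ℝ) * ‖Tb β j‖) atTop)
      simpa using h2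
    · intro j; positivity
    · exact hG
  have h1 := hlo.tendsto_div_nhds_zero
  have h2 : Tendsto (fun J => ((m : ℝ) + 1 - β.re) +
      (∑ j ∈ range J, er β j * ((j.descFactorial m : ℕ) * ‖Tb β j‖)) / Gm β m J) atTop
      (𝓝 (((m : ℝ) + 1 - β.re) + 0)) := tendsto_const_nhds.add h1
  rw [add_zero] at h2
  have h3 := h2.inv₀ (by linarith)
  rw [one_div]
  refine h3.congr' ?_
  filter_upwards [hG.eventually_gt_atTop 0] with J hJ
  have h4 := sum_desc_norm β m J
  have h5 : ∑ j ∈ range J, ((m : ℝ) + 1 - β.re + er β j) * ((j.descFactorial m : ℕ) * ‖Tb β j‖)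
      = ((m : ℝ) + 1 - β.re) * Gm β m J
        + ∑ j ∈ range J, er β j * ((j.descFactorial m : ℕ) * ‖Tb β j‖) := by
    unfold Gm
    rw [Finset.mul_sum, ← Finset.sum_add_distrib]
    exact Finset.sum_congr rfl (fun j _ => by ring)
  rw [← h4, h5, add_div' _ _ _ hJ.ne', inv_div]

lemma tendsto_desc_ratio (m : ℕ) :
    Tendsto (fun J : ℕ => ((J.descFactorial m : ℕ) : ℝ) / ((2 * J).descFactorial m : ℕ)) atTop
      (𝓝 ((1 / 2) ^ m)) := by
  induction m with
  | zero => simp
  | succ m ih =>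
    have h1 : Tendsto (fun J : ℕ => ((J : ℝ) - m) / (((2 * J : ℕ) : ℝ) - m)) atTop (𝓝 (1 / 2)) := by
      have h2 : Tendsto (fun J : ℕ => (1 - (m : ℝ) * (1 / (J : ℝ))) / (2 - (m : ℝ) * (1 / (J : ℝ))))
          atTop (𝓝 ((1 - (m : ℝ) * 0) / (2 - (m : ℝ) * 0))) := by
        apply Tendsto.div
        · exact tendsto_const_nhds.sub (tendsto_one_div_atTop_nhds_zero_nat.const_mul _)
        · exact tendsto_const_nhds.sub (tendsto_one_div_atTop_nhds_zero_nat.const_mul _)
        · norm_num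
      rw [show ((1:ℝ) - (m : ℝ) * 0) / (2 - (m : ℝ) * 0) = 1 / 2 by norm_num] at h2
      refine h2.congr' ?_
      filter_upwards [eventually_gt_atTop 0] with J hJ
      have hJ0 : (J : ℝ) ≠ 0 := by exact_mod_cast hJ.ne'
      have e1 : (1 - (m : ℝ) * (1 / (J : ℝ))) = ((J : ℝ) - m) / J := by field_simp
      have e2 : (2 - (m : ℝ) * (1 / (J : ℝ))) = (((2 * J : ℕ) : ℝ) - m) / J := by
        push_cast; field_simp
      rw [e1, e2, div_div_div_cancel_right₀ hJ0]
    have h3 := h1.mul ih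
    rw [show (1:ℝ) / 2 * (1 / 2) ^ m = (1 / 2) ^ (m + 1) by ring] at h3
    refine h3.congr (fun J => ?_)
    rw [desc_succ_cast, desc_succ_cast, div_mul_div_comm]

/-- the partial fraction identity -/
lemma frac_identity {N j : ℕ} (hj : j < N) :
    ∀ M, M ≤ N → 1 / ((N : ℝ) - j) = ∑ m ∈ range M,
      ((j.descFactorial m : ℕ) : ℝ) / (N.descFactorial (m + 1) : ℕ)
      + ((j.descFactorial M : ℕ) : ℝ) / ((N.descFactorial M : ℕ) * ((N : ℝ) - j)) := by
  intro M
  induction M with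
  | zero => intro _; simp
  | succ M ih =>
    intro hM
    rw [ih (by omega), Finset.sum_range_succ, add_assoc]
    congr 1
    have h1 : (N : ℝ) - j ≠ 0 := by
      have : (j : ℝ) < N := by exact_mod_cast hj
      linarith
    have h2 : (N : ℝ) - M ≠ 0 := by
      have : (M : ℝ) < N := by exact_mod_cast hM
      linarith
    have h3 : ((N.descFactorial M : ℕ) : ℝ) ≠ 0 := by
      have : 0 < N.descFactorial M := Nat.descFactorial_pos.2 (by omega)
      exact_mod_cast this.ne'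
    rw [desc_succ_cast, desc_succ_cast]
    field_simp
    ring

end Pool.Agent.Hhelper22.Turan
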