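import Mathlib
import Pool.Agent.Hhelper22.Turan.Explicit

/-!
# An explicit family, part 2
-/

open Finset Filter Topology

namespace Pool.Agent.Hhelper22.Turan

lemma prod_Tb (β : ℂ) (n : ℕ) :
    ∏ j ∈ range (n + 1), (-β + j) = -β * (n.factorial : ℂ) * Tb β n := by
  induction n with
  | zero => simp [Tb_zero]
  | succ n ih =>
    rw [Finset.prod_range_succ, ih, Nat.factorial_succ]
    have h := Tb_succ β n
    push_cast
    linear_combination (β * (n.factorial : ℂ)) * h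

lemma GammaSeq_Tb {β : ℂ} (hβ0 : β ≠ 0) (hβ : β.re ≤ 1 / 2) (n : ℕ) :
    Complex.GammaSeq (-β) n * (-β * Tb β n) = (n : ℂ) ^ (-β) := by
  have h1 : Tb β n ≠ 0 := norm_pos_iff.1 (norm_Tb_pos hβ n)
  have h2 : (n.factorial : ℂ) ≠ 0 := by exact_mod_cast n.factorial_ne_zero
  unfold Complex.GammaSeq
  rw [prod_Tb]
  field_simp

lemma tendsto_Tb_ratio {β : ℂ} (hβ0 : 0 < β.re) (hβ : β.re ≤ 1 / 2) :
    Tendsto (fun J : ℕ => Tb β (2 * J) / Tb β J) atTop (𝓝 ((2 : ℂ) ^ (-β))) := by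
  have hne : β ≠ 0 := by
    intro h; rw [h] at hβ0; simp at hβ0
  have hΓ : Complex.Gamma (-β) ≠ 0 := by
    apply Complex.Gamma_ne_zero
    intro m hm
    have h1 : β = m := by linear_combination -hm
    rw [h1] at hβ0 hβ
    simp only [Complex.natCast_re] at hβ0 hβ
    have h2 : 0 < m := by exact_mod_cast hβ0
    have h3 : (1:ℝ) ≤ m := by exact_mod_cast h2
    linarith
  have hG := Complex.GammaSeq_tendsto_Gamma (-β)
  have hG2 : Tendsto (fun J : ℕ => Complex.GammaSeq (-β) (2 * J)) atTop (𝓝 (Complex.Gamma (-β))) :=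
    hG.comp (tendsto_id.const_mul_atTop' (by norm_num : 0 < 2))
  have h1 := (hG.div hG2 hΓ).const_mul ((2 : ℂ) ^ (-β))
  rw [div_self hΓ, mul_one] at h1
  refine h1.congr' ?_
  filter_upwards [eventually_gt_atTop 0] with J hJ
  have e1 := GammaSeq_Tb hne hβ J
  have e2 := GammaSeq_Tb hne hβ (2 * J)
  have e3 : ((2 * J : ℕ) : ℂ) ^ (-β) = (2 : ℂ) ^ (-β) * (J : ℂ) ^ (-β) := by
    have := Complex.natCast_mul_natCast_cpow 2 J (-β)
    push_cast at this ⊢
    exact this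
  have hT : Tb β J ≠ 0 := norm_pos_iff.1 (norm_Tb_pos hβ J)
  have hGS : Complex.GammaSeq (-β) (2 * J) ≠ 0 := by
    intro h
    rw [h, zero_mul] at e2
    have : ((2 * J : ℕ) : ℂ) ^ (-β) ≠ 0 := by
      rw [Complex.cpow_ne_zero_iff]
      left
      exact_mod_cast (by omega : 2 * J ≠ 0)
    exact this e2.symm
  simp only [Pi.div_apply]
  rw [eq_div_iff hT, ← mul_div_assoc, div_mul_eq_mul_div, div_eq_iff hGS]
  rw [e3, ← e1] at e2
  have h3 : -β * ((2 : ℂ) ^ (-β) * Complex.GammaSeq (-β) J * Tb β J)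
      = -β * (Tb β (2 * J) * Complex.GammaSeq (-β) (2 * J)) := by
    linear_combination -e2
  exact mul_left_cancel₀ (neg_ne_zero.2 hne) h3

/-- the truncated sum -/
lemma sum_frac_eq (β : ℂ) {J M : ℕ} (hM : M ≤ 2 * J) :
    ∑ j ∈ range J, Tb β j / ((2 * J : ℕ) - j : ℂ)
      = ∑ m ∈ range M, (∑ j ∈ range J, (j.descFactorial m : ℕ) * Tb β j) / ((2 * J).descFactorial (m + 1) : ℕ)
        + ∑ j ∈ range J, ((j.descFactorial M : ℕ) : ℂ) /
            (((2 * J).descFactorial M : ℕ) * ((2 * J : ℕ) - j : ℂ)) * Tb β j := by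
  simp_rw [Finset.sum_div]
  rw [Finset.sum_comm, ← Finset.sum_add_distrib]
  refine Finset.sum_congr rfl (fun j hj => ?_)
  have hj' := Finset.mem_range.1 hj
  have h := congrArg (fun x : ℝ => (x : ℂ)) (frac_identity (N := 2 * J) (j := j) (by omega) M hM)
  have h2 : (1 : ℂ) / ((2 * J : ℕ) - j : ℂ) = ∑ m ∈ range M,
      ((j.descFactorial m : ℕ) : ℂ) / ((2 * J).descFactorial (m + 1) : ℕ)
      + ((j.descFactorial M : ℕ) : ℂ) / (((2 * J).descFactorial M : ℕ) * ((2 * J : ℕ) - j : ℂ)) := by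
    simpa using h
  rw [div_eq_mul_one_div, h2, mul_add, Finset.mul_sum]
  congr 1
  · refine Finset.sum_congr rfl (fun m _ => by ring)
  · ring

lemma remainder_le {β : ℂ} (hβ : β.re ≤ 1 / 2) {J M : ℕ} (hJ : 0 < J) (hM : M ≤ 2 * J) :
    ‖∑ j ∈ range J, ((j.descFactorial M : ℕ) : ℂ) /
            (((2 * J).descFactorial M : ℕ) * ((2 * J : ℕ) - j : ℂ)) * Tb β j‖
      ≤ ‖Tb β J‖ * (((J.descFactorial M : ℕ) : ℝ) / ((2 * J).descFactorial M : ℕ)
          / ((M : ℝ) + 1 - β.re)) := by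
  have hJ0 : (0:ℝ) < J := by exact_mod_cast hJ
  have hD : (0:ℝ) < ((2 * J).descFactorial M : ℕ) := by
    have : 0 < (2 * J).descFactorial M := Nat.descFactorial_pos.2 hM
    exact_mod_cast this
  have hM0 : (0:ℝ) ≤ M := Nat.cast_nonneg M
  have ha : 0 < (M : ℝ) + 1 - β.re := by linarith
  have h1 : ‖∑ j ∈ range J, ((j.descFactorial M : ℕ) : ℂ) /
            (((2 * J).descFactorial M : ℕ) * ((2 * J : ℕ) - j : ℂ)) * Tb β j‖
      ≤ ∑ j ∈ range J, (1 / (((2 * J).descFactorial M : ℕ) * (J : ℝ))) *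
        ((j.descFactorial M : ℕ) * ‖Tb β j‖) := by
    refine (norm_sum_le _ _).trans (Finset.sum_le_sum (fun j hj => ?_))
    have hj' := Finset.mem_range.1 hj
    have e : ((2 * J : ℕ) : ℂ) - j = (((2 * J - j : ℕ) : ℕ) : ℂ) := by
      rw [Nat.cast_sub (by omega)]
    rw [e, norm_mul, norm_div, norm_mul, Complex.norm_natCast, Complex.norm_natCast,
      Complex.norm_natCast]
    have h2 : (J : ℝ) ≤ ((2 * J - j : ℕ) : ℝ) := by
      have : J ≤ 2 * J - j := by omega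
      exact_mod_cast this
    calc ((j.descFactorial M : ℕ) : ℝ) / (((2 * J).descFactorial M : ℕ) * ((2 * J - j : ℕ) : ℝ)) * ‖Tb β j‖
        ≤ ((j.descFactorial M : ℕ) : ℝ) / (((2 * J).descFactorial M : ℕ) * (J : ℝ)) * ‖Tb β j‖ := by
          gcongr
      _ = _ := by ring
  refine h1.trans ?_
  rw [← Finset.mul_sum]
  have h2 := Gm_le hβ M J
  rw [Gm] at h2
  have h3 : ((J.descFactorial (M + 1) : ℕ) : ℝ) ≤ J * (J.descFactorial M : ℕ) := by
    rw [desc_succ_cast]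
    apply mul_le_mul_of_nonneg_right _ (by positivity)
    linarith
  calc 1 / (((2 * J).descFactorial M : ℕ) * (J : ℝ)) *
        ∑ j ∈ range J, ((j.descFactorial M : ℕ) : ℝ) * ‖Tb β j‖
      ≤ 1 / (((2 * J).descFactorial M : ℕ) * (J : ℝ)) *
        ((J.descFactorial (M + 1) : ℕ) * ‖Tb β J‖ / ((M : ℝ) + 1 - β.re)) := by gcongr
    _ ≤ 1 / (((2 * J).descFactorial M : ℕ) * (J : ℝ)) *
        ((J * (J.descFactorial M : ℕ)) * ‖Tb β J‖ / ((M : ℝ) + 1 - β.re)) := by gcongr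
    _ = _ := by field_simp

lemma upper_lim {β : ℂ} (hβ0 : 0 < β.re) (hβ : β.re ≤ 1 / 2) (M : ℕ) {A : ℝ}
    (hA : ‖(2 : ℂ) ^ (-β) + β * ∑ m ∈ range M, (1 / 2) ^ (m + 1) / ((m : ℂ) + 1 - β)‖
      + ‖β‖ * ((1 / 2) ^ M / ((M : ℝ) + 1 - β.re)) < A) :
    ∀ᶠ J in atTop, ‖Tb β (2 * J) + β * ∑ j ∈ range J, Tb β j / ((2 * J : ℕ) - j : ℂ)‖
      ≤ A * ‖Tb β J‖ := by
  have h1 : Tendsto (fun J : ℕ => ‖Tb β (2 * J) / Tb β J + β * ∑ m ∈ range M,
      ((((J.descFactorial (m + 1) : ℕ) : ℝ) / ((2 * J).descFactorial (m + 1) : ℕ) : ℝ) : ℂ)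
        / ((m : ℂ) + 1 - β)‖
      + ‖β‖ * (((J.descFactorial M : ℕ) : ℝ) / ((2 * J).descFactorial M : ℕ)
          / ((M : ℝ) + 1 - β.re))) atTop
      (𝓝 (‖(2 : ℂ) ^ (-β) + β * ∑ m ∈ range M, (((1 / 2 : ℝ) ^ (m + 1) : ℝ) : ℂ) / ((m : ℂ) + 1 - β)‖
      + ‖β‖ * ((1 / 2) ^ M / ((M : ℝ) + 1 - β.re)))) := by
    apply Tendsto.add
    · apply Tendsto.norm
      apply (tendsto_Tb_ratio hβ0 hβ).add
      apply Tendsto.const_mul
      apply tendsto_finsetSum
      intro m _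
      apply Tendsto.div_const
      exact (Complex.continuous_ofReal.tendsto _).comp (tendsto_desc_ratio (m + 1))
    · exact ((tendsto_desc_ratio M).div_const _).const_mul _
  have e : ‖(2 : ℂ) ^ (-β) + β * ∑ m ∈ range M, (((1 / 2 : ℝ) ^ (m + 1) : ℝ) : ℂ) / ((m : ℂ) + 1 - β)‖
      + ‖β‖ * ((1 / 2) ^ M / ((M : ℝ) + 1 - β.re))
      = ‖(2 : ℂ) ^ (-β) + β * ∑ m ∈ range M, (1 / 2) ^ (m + 1) / ((m : ℂ) + 1 - β)‖
      + ‖β‖ * ((1 / 2) ^ M / ((M : ℝ) + 1 - β.re)) := by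
    push_cast; rfl
  rw [e] at h1
  filter_upwards [h1.eventually (gt_mem_nhds hA), eventually_gt_atTop 0, eventually_ge_atTop M]
    with J hJ hJ0 hJM
  have hT : Tb β J ≠ 0 := norm_pos_iff.1 (norm_Tb_pos hβ J)
  have hnb : ∀ m : ℕ, (m : ℂ) + 1 - β ≠ 0 := by
    intro m h
    have := congrArg Complex.re h
    simp only [Complex.sub_re, Complex.add_re, Complex.natCast_re, Complex.one_re,
      Complex.zero_re] at this
    have hm : (0:ℝ) ≤ m := Nat.cast_nonneg m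
    linarith
  rw [sum_frac_eq β (show M ≤ 2 * J by omega)]
  set R := ∑ j ∈ range J, ((j.descFactorial M : ℕ) : ℂ) /
            (((2 * J).descFactorial M : ℕ) * ((2 * J : ℕ) - j : ℂ)) * Tb β j with hR
  have hRle := remainder_le hβ hJ0 (show M ≤ 2 * J by omega)
  rw [← hR] at hRle
  have e1 : Tb β (2 * J) + β * (∑ m ∈ range M, (∑ j ∈ range J, (j.descFactorial m : ℕ) * Tb β j) /
      ((2 * J).descFactorial (m + 1) : ℕ) + R)
      = Tb β J * (Tb β (2 * J) / Tb β J + β * ∑ m ∈ range M,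
      ((((J.descFactorial (m + 1) : ℕ) : ℝ) / ((2 * J).descFactorial (m + 1) : ℕ) : ℝ) : ℂ)
        / ((m : ℂ) + 1 - β)) + β * R := by
    have e2 : ∑ m ∈ range M, (∑ j ∈ range J, (j.descFactorial m : ℕ) * Tb β j) /
      ((2 * J).descFactorial (m + 1) : ℕ) = Tb β J * ∑ m ∈ range M,
      ((((J.descFactorial (m + 1) : ℕ) : ℝ) / ((2 * J).descFactorial (m + 1) : ℕ) : ℝ) : ℂ)
        / ((m : ℂ) + 1 - β) := by
      rw [Finset.mul_sum]
      refine Finset.sum_congr rfl (fun m _ => ?_)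
      have h2 := sum_desc β m J
      have h3 : ∑ j ∈ range J, ((j.descFactorial m : ℕ) : ℂ) * Tb β j
          = (J.descFactorial (m + 1) : ℕ) * Tb β J / ((m : ℂ) + 1 - β) := by
        rw [eq_div_iff (hnb m), mul_comm]; exact h2
      rw [h3]
      push_cast
      ring
    rw [e2]
    field_simp
    ring
  rw [e1]
  refine (norm_add_le _ _).trans ?_
  rw [norm_mul, norm_mul]
  have h2 : ‖β‖ * ‖R‖ ≤ ‖β‖ * (‖Tb β J‖ * (((J.descFactorial M : ℕ) : ℝ) / ((2 * J).descFactorial M : ℕ)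
          / ((M : ℝ) + 1 - β.re))) := mul_le_mul_of_nonneg_left hRle (norm_nonneg _)
  have h3 := mul_le_mul_of_nonneg_right hJ.le (norm_nonneg (Tb β J))
  refine le_trans ?_ h3
  linarith

lemma lower_lim {β : ℂ} (hβ : β.re ≤ 1 / 2) (M : ℕ) {B : ℝ}
    (hB : B < ∑ m ∈ range M, (1 / 2 : ℝ) ^ (m + 1) / ((m : ℝ) + 1 - β.re)) :
    ∀ᶠ J in atTop, B * ‖Tb β J‖ ≤ ∑ j ∈ range J, ‖Tb β j / ((2 * J : ℕ) - j : ℂ)‖ := by
  have h1 : Tendsto (fun J : ℕ => ∑ m ∈ range M,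
      (((J.descFactorial (m + 1) : ℕ) : ℝ) / ((2 * J).descFactorial (m + 1) : ℕ)) *
        (Gm β m J / ((J.descFactorial (m + 1) : ℕ) * ‖Tb β J‖))) atTop
      (𝓝 (∑ m ∈ range M, (1 / 2 : ℝ) ^ (m + 1) * (1 / ((m : ℝ) + 1 - β.re)))) := by
    apply tendsto_finsetSum
    intro m _
    exact (tendsto_desc_ratio (m + 1)).mul (tendsto_Gm hβ m)
  have e : ∑ m ∈ range M, (1 / 2 : ℝ) ^ (m + 1) * (1 / ((m : ℝ) + 1 - β.re))
      = ∑ m ∈ range M, (1 / 2 : ℝ) ^ (m + 1) / ((m : ℝ) + 1 - β.re) :=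
    Finset.sum_congr rfl (fun m _ => by ring)
  rw [e] at h1
  filter_upwards [h1.eventually (lt_mem_nhds hB), eventually_gt_atTop 0, eventually_gt_atTop M]
    with J hJ hJ0 hJM
  have hT := norm_Tb_pos hβ J
  have h2 : ∀ j ∈ range J, ∑ m ∈ range M,
      ((j.descFactorial m : ℕ) : ℝ) / ((2 * J).descFactorial (m + 1) : ℕ) * ‖Tb β j‖
      ≤ ‖Tb β j / ((2 * J : ℕ) - j : ℂ)‖ := by
    intro j hj
    have hj' := Finset.mem_range.1 hj
    have e : ((2 * J : ℕ) : ℂ) - j = (((2 * J - j : ℕ) : ℕ) : ℂ) := by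
      rw [Nat.cast_sub (by omega)]
    have h3 := frac_identity (N := 2 * J) (j := j) (by omega) M (by omega)
    have h4 : (0:ℝ) < ((2 * J : ℕ) : ℝ) - j := by
      have : (j : ℝ) < ((2 * J : ℕ) : ℝ) := by
        have : j < 2 * J := by omega
        exact_mod_cast this
      linarith
    have h5 : 0 ≤ ((j.descFactorial M : ℕ) : ℝ) / (((2 * J).descFactorial M : ℕ) * (((2 * J : ℕ) : ℝ) - j)) := by
      positivity
    rw [e, norm_div, Complex.norm_natCast, Nat.cast_sub (by omega), div_eq_mul_one_div, h3,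
      ← Finset.sum_mul, mul_comm]
    apply mul_le_mul_of_nonneg_left _ (norm_nonneg _)
    linarith
  have h3 := Finset.sum_le_sum h2
  refine le_trans ?_ h3
  rw [Finset.sum_comm]
  have h4 : ∑ m ∈ range M, ∑ j ∈ range J,
      ((j.descFactorial m : ℕ) : ℝ) / ((2 * J).descFactorial (m + 1) : ℕ) * ‖Tb β j‖
      = (∑ m ∈ range M,
      (((J.descFactorial (m + 1) : ℕ) : ℝ) / ((2 * J).descFactorial (m + 1) : ℕ)) *
        (Gm β m J / ((J.descFactorial (m + 1) : ℕ) * ‖Tb β J‖))) * ‖Tb β J‖ := by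
    rw [Finset.sum_mul]
    refine Finset.sum_congr rfl (fun m hm => ?_)
    have hm' := Finset.mem_range.1 hm
    have h5 : ((J.descFactorial (m + 1) : ℕ) : ℝ) ≠ 0 := by
      have : 0 < J.descFactorial (m + 1) := Nat.descFactorial_pos.2 (by omega)
      exact_mod_cast this.ne'
    have h6 : (((2 * J).descFactorial (m + 1) : ℕ) : ℝ) ≠ 0 := by
      have : 0 < (2 * J).descFactorial (m + 1) := Nat.descFactorial_pos.2 (by omega)
      exact_mod_cast this.ne'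
    unfold Gm
    field_simp
    rw [Finset.mul_sum]
    refine Finset.sum_congr rfl (fun j _ => by field_simp)
  rw [h4]
  exact mul_le_mul_of_nonneg_right hJ.le hT.le

/-- existence of exact solutions from the numerical inequality -/
theorem explicit_of_ineq {β : ℂ} (hβ0 : 0 < β.re) (hβ : β.re ≤ 1 / 2) {σ : ℝ} (hσ : ‖β‖ ≤ σ) (M : ℕ)
    (h : ‖(2 : ℂ) ^ (-β) + β * ∑ m ∈ range M, (1 / 2) ^ (m + 1) / ((m : ℂ) + 1 - β)‖
      + ‖β‖ * ((1 / 2) ^ M / ((M : ℝ) + 1 - β.re)) <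
      σ * ∑ m ∈ range M, (1 / 2 : ℝ) ^ (m + 1) / ((m : ℝ) + 1 - β.re)) :
    ∀ᶠ J in atTop, ∃ s : ℕ → ℂ, (∀ k, ‖s k‖ ≤ σ) ∧ TT s (2 * J) = 0 := by
  have hσ0 : 0 < σ := by
    have : 0 < ‖β‖ := norm_pos_iff.2 (by intro h; rw [h] at hβ0; simp at hβ0)
    linarith
  obtain ⟨A, hA1, hA2⟩ := exists_between h
  have hB : A / σ < ∑ m ∈ range M, (1 / 2 : ℝ) ^ (m + 1) / ((m : ℝ) + 1 - β.re) := by
    rw [div_lt_iff₀ hσ0, mul_comm]; exact hA2
  filter_upwards [upper_lim hβ0 hβ M hA1, lower_lim hβ M hB] with J h1 h2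
  have e : ∀ f : ℕ → ℂ, ∑ k ∈ Ioc (2 * J / 2) (2 * J), f k = ∑ j ∈ range J, f (2 * J - j) := by
    intro f
    apply Finset.sum_nbij' (fun k => 2 * J - k) (fun j => 2 * J - j)
    · intro k hk
      have := Finset.mem_Ioc.1 hk
      exact Finset.mem_range.2 (by omega)
    · intro j hj
      have := Finset.mem_range.1 hj
      exact Finset.mem_Ioc.2 ⟨by omega, by omega⟩
    · intro k hk
      have := Finset.mem_Ioc.1 hk
      omega
    · intro j hj
      have := Finset.mem_range.1 hj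
      omega
    · intro k hk
      have := Finset.mem_Ioc.1 hk
      congr 1; omega
  have e' : ∀ f : ℕ → ℝ, ∑ k ∈ Ioc (2 * J / 2) (2 * J), f k = ∑ j ∈ range J, f (2 * J - j) := by
    intro f
    apply Finset.sum_nbij' (fun k => 2 * J - k) (fun j => 2 * J - j)
    · intro k hk
      have := Finset.mem_Ioc.1 hk
      exact Finset.mem_range.2 (by omega)
    · intro j hj
      have := Finset.mem_range.1 hj
      exact Finset.mem_Ioc.2 ⟨by omega, by omega⟩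
    · intro k hk
      have := Finset.mem_Ioc.1 hk
      omega
    · intro j hj
      have := Finset.mem_range.1 hj
      omega
    · intro k hk
      have := Finset.mem_Ioc.1 hk
      congr 1; omega
  set Y := Tb β (2 * J) + β * ∑ j ∈ range J, Tb β j / ((2 * J : ℕ) - j : ℂ) with hY
  set w : ℕ → ℂ := fun k => Tb β (2 * J - k) / k with hw
  have hsumw : ∑ k ∈ Ioc (2 * J / 2) (2 * J), w k = ∑ j ∈ range J, Tb β j / ((2 * J : ℕ) - j : ℂ) := by
    rw [e]
    refine Finset.sum_congr rfl (fun j hj => ?_)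
    have hj' := Finset.mem_range.1 hj
    simp only [hw]
    rw [show 2 * J - (2 * J - j) = j by omega, Nat.cast_sub (by omega)]
  have hsumwn : ∑ k ∈ Ioc (2 * J / 2) (2 * J), ‖w k‖
      = ∑ j ∈ range J, ‖Tb β j / ((2 * J : ℕ) - j : ℂ)‖ := by
    rw [e']
    refine Finset.sum_congr rfl (fun j hj => ?_)
    have hj' := Finset.mem_range.1 hj
    simp only [hw]
    rw [show 2 * J - (2 * J - j) = j by omega, Nat.cast_sub (by omega)]
  have h3 : ‖Y‖ ≤ σ * ∑ k ∈ Ioc (2 * J / 2) (2 * J), ‖w k‖ := by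
    rw [hsumwn]
    calc ‖Y‖ ≤ A * ‖Tb β J‖ := h1
      _ = σ * (A / σ * ‖Tb β J‖) := by field_simp
      _ ≤ _ := mul_le_mul_of_nonneg_left h2 hσ0.le
  obtain ⟨θ, hθ1, hθ2⟩ := align (Ioc (2 * J / 2) (2 * J)) w hσ0.le h3
  refine ⟨fun k => β + (if 2 * k ≤ 2 * J then 0 else θ k - β), fun k => ?_, ?_⟩
  · simp only
    split_ifs
    · rw [add_zero]; exact hσ
    · rw [add_sub_cancel]; exact hθ1 k
  · rw [TT_pert (fun _ => β) (fun k => if 2 * k ≤ 2 * J then 0 else θ k - β) (fun k hk => if_pos hk)]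
    have h4 : ∑ k ∈ Ioc (2 * J / 2) (2 * J), (if 2 * k ≤ 2 * J then 0 else θ k - β) *
        (TT (fun _ => β) (2 * J - k) / k)
        = ∑ k ∈ Ioc (2 * J / 2) (2 * J), (θ k * w k - β * w k) := by
      refine Finset.sum_congr rfl (fun k hk => ?_)
      have := Finset.mem_Ioc.1 hk
      rw [if_neg (by omega)]
      simp only [hw, Tb]
      ring
    rw [h4, Finset.sum_sub_distrib, hθ2, ← Finset.mul_sum, hsumw, hY]
    unfold Tb
    ring

end Pool.Agent.Hhelper22.Turan
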