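import Mathlib
import Pool.Agent.Hhelper22.Turan.Explicit2

/-!
# The numerical inequality
-/

open Finset Filter Topology

namespace Pool.Agent.Hhelper22.Turan

/-- the parameter -/
noncomputable def b0 : ℂ := ⟨21 / 50, 14 / 25⟩

lemma b0_re : b0.re = 21 / 50 := rfl
lemma b0_im : b0.im = 14 / 25 := rfl

lemma norm_le_of_sq {z : ℂ} {r : ℝ} (hr : 0 ≤ r) (h : z.re ^ 2 + z.im ^ 2 ≤ r ^ 2) : ‖z‖ ≤ r := by
  apply le_of_sq_le_sq _ hr
  rw [← Complex.normSq_eq_norm_sq, Complex.normSq_apply]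
  linarith

lemma norm_b0 : ‖b0‖ ≤ 7 / 10 := by
  apply norm_le_of_sq (by norm_num)
  rw [b0_re, b0_im]; norm_num

/-- rational approximation of `log 2` -/
noncomputable def x0 : ℂ := ⟨-(21 / 50 * (6931472 / 10000000)), -(14 / 25 * (6931472 / 10000000))⟩

lemma norm_x0 : ‖x0‖ ≤ 4853 / 10000 := by
  apply norm_le_of_sq (by norm_num)
  norm_num [x0]

lemma two_cpow : (2 : ℂ) ^ (-b0) = Complex.exp (-b0 * (Real.log 2 : ℝ)) := by
  rw [Complex.cpow_def_of_ne_zero (by norm_num)]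
  congr 1
  rw [mul_comm]
  congr 1
  have := Complex.ofReal_log (x := 2) (by norm_num)
  rw [this]; norm_num

lemma norm_exp_sub : ‖(2 : ℂ) ^ (-b0) - Complex.exp x0‖ ≤ 1 / 100000 := by
  rw [two_cpow]
  set y : ℂ := -b0 * (Real.log 2 : ℝ) with hy
  have h1 : ‖y - x0‖ ≤ 1 / 1000000 := by
    have e : y - x0 = -b0 * ((Real.log 2 - 6931472 / 10000000 : ℝ) : ℂ) := by
      rw [hy]
      apply Complex.ext
      · simp [x0, b0]; ring
      · simp [x0, b0]; ring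
    rw [e, norm_mul, norm_neg, Complex.norm_real, Real.norm_eq_abs]
    have h2 : |Real.log 2 - 6931472 / 10000000| ≤ 1 / 1000000 := by
      rw [abs_le]
      have h3 := Real.log_two_gt_d9
      have h4 := Real.log_two_lt_d9
      constructor <;> norm_num at h3 h4 ⊢ <;> linarith
    calc ‖b0‖ * |Real.log 2 - 6931472 / 10000000| ≤ 7 / 10 * (1 / 1000000) := by
          gcongr; exact norm_b0
      _ ≤ 1 / 1000000 := by norm_num
  have h2 : Complex.exp y - Complex.exp x0 = Complex.exp x0 * (Complex.exp (y - x0) - 1) := by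
    rw [mul_sub, ← Complex.exp_add, mul_one]; congr 2; ring
  have h3 : ‖Complex.exp x0‖ ≤ 1 := by
    rw [Complex.norm_exp]
    apply Real.exp_le_one_iff.2
    norm_num [x0]
  have h4 := Complex.norm_exp_sub_one_le (x := y - x0) (by linarith)
  rw [h2, norm_mul]
  calc ‖Complex.exp x0‖ * ‖Complex.exp (y - x0) - 1‖ ≤ 1 * (2 * ‖y - x0‖) := by gcongr
    _ ≤ 1 * (2 * (1 / 1000000)) := by gcongr
    _ ≤ _ := by norm_num

lemma norm_exp_x0_sub : ‖Complex.exp x0 - (1 + x0 + x0 ^ 2 / 2 + x0 ^ 3 / 6)‖ ≤ 3 / 1000 := by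
  have h := Complex.exp_bound (x := x0) (norm_x0.trans (by norm_num)) (n := 4) (by norm_num)
  have e : ∑ m ∈ range 4, x0 ^ m / (m.factorial : ℂ) = 1 + x0 + x0 ^ 2 / 2 + x0 ^ 3 / 6 := by
    simp [Finset.sum_range_succ, Nat.factorial]
  rw [e] at h
  refine h.trans ?_
  have h1 : ‖x0‖ ^ 4 ≤ (4853 / 10000) ^ 4 := pow_le_pow_left₀ (norm_nonneg _) norm_x0 4
  calc ‖x0‖ ^ 4 * ((Nat.succ 4 : ℕ) * ((Nat.factorial 4 : ℕ) * (4 : ℕ) : ℝ)⁻¹)
      ≤ (4853 / 10000) ^ 4 * ((Nat.succ 4 : ℕ) * ((Nat.factorial 4 : ℕ) * (4 : ℕ) : ℝ)⁻¹) := by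
        gcongr
    _ ≤ _ := by norm_num [Nat.factorial]

lemma inv_b0 {m : ℕ} {p q : ℝ} (h1 : p * ((m : ℝ) + 1 - 21 / 50) + q * (14 / 25) = 1)
    (h2 : q * ((m : ℝ) + 1 - 21 / 50) = p * (14 / 25)) :
    ((m : ℂ) + 1 - b0)⁻¹ = ⟨p, q⟩ := by
  apply inv_eq_of_mul_eq_one_right
  apply Complex.ext
  · simp [b0]; linarith
  · simp [b0]; linarith

lemma sum_b0 : b0 * ∑ m ∈ range 5, (1 / 2) ^ (m + 1) / ((m : ℂ) + 1 - b0)
    = ⟨-76252721881 / 87599064494240, 6299631964731 / 10949883061780⟩ := by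
  have i0 := inv_b0 (m := 0) (p := 58 / 65) (q := 56 / 65) (by norm_num) (by norm_num)
  have i1 := inv_b0 (m := 1) (p := 158 / 281) (q := 56 / 281) (by norm_num) (by norm_num)
  have i2 := inv_b0 (m := 2) (p := 258 / 697) (q := 56 / 697) (by norm_num) (by norm_num)
  have i3 := inv_b0 (m := 3) (p := 358 / 1313) (q := 56 / 1313) (by norm_num) (by norm_num)
  have i4 := inv_b0 (m := 4) (p := 458 / 2129) (q := 56 / 2129) (by norm_num) (by norm_num)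
  simp only [Finset.sum_range_succ, Finset.sum_range_zero, div_eq_mul_inv, i0, i1, i2, i3, i4]
  have e : ∀ k : ℕ, ((1 : ℂ) * 2⁻¹) ^ (k + 1) = (((1 / 2 : ℝ) ^ (k + 1) : ℝ) : ℂ) := by
    intro k; push_cast; norm_num
  simp only [e]
  apply Complex.ext
  · simp only [Complex.mul_re, Complex.mul_im, Complex.add_re, Complex.add_im, Complex.ofReal_re,
      Complex.ofReal_im, Complex.zero_re, Complex.zero_im, b0]
    norm_num
  · simp only [Complex.mul_re, Complex.mul_im, Complex.add_re, Complex.add_im, Complex.ofReal_re,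
      Complex.ofReal_im, Complex.zero_re, Complex.zero_im, b0]
    norm_num

lemma norm_main : ‖(1 + x0 + x0 ^ 2 / 2 + x0 ^ 3 / 6)
    + b0 * ∑ m ∈ range 5, (1 / 2) ^ (m + 1) / ((m : ℂ) + 1 - b0)‖ ≤ 7526 / 10000 := by
  rw [sum_b0]
  have e2 : x0 ^ 2 / 2 = x0 * x0 * ((1 / 2 : ℝ) : ℂ) := by push_cast; ring
  have e3 : x0 ^ 3 / 6 = x0 * x0 * x0 * ((1 / 6 : ℝ) : ℂ) := by push_cast; ring
  rw [e2, e3]
  apply norm_le_of_sq (by norm_num)
  simp only [Complex.mul_re, Complex.mul_im, Complex.add_re, Complex.add_im, Complex.ofReal_re,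
      Complex.ofReal_im, Complex.one_re, Complex.one_im, x0]
  norm_num

/-- the numerical inequality -/
lemma num_ineq : ‖(2 : ℂ) ^ (-b0) + b0 * ∑ m ∈ range 5, (1 / 2) ^ (m + 1) / ((m : ℂ) + 1 - b0)‖
      + ‖b0‖ * ((1 / 2) ^ 5 / (((5 : ℕ) : ℝ) + 1 - b0.re)) <
      7 / 10 * ∑ m ∈ range 5, (1 / 2 : ℝ) ^ (m + 1) / ((m : ℝ) + 1 - b0.re) := by
  have h1 := norm_exp_sub
  have h2 := norm_exp_x0_sub
  have h3 := norm_main
  set S := b0 * ∑ m ∈ range 5, (1 / 2) ^ (m + 1) / ((m : ℂ) + 1 - b0) with hS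
  have h4 : ‖(2 : ℂ) ^ (-b0) + S‖ ≤ 1 / 100000 + 3 / 1000 + 7526 / 10000 := by
    have e : (2 : ℂ) ^ (-b0) + S = ((2 : ℂ) ^ (-b0) - Complex.exp x0)
      + (Complex.exp x0 - (1 + x0 + x0 ^ 2 / 2 + x0 ^ 3 / 6))
      + ((1 + x0 + x0 ^ 2 / 2 + x0 ^ 3 / 6) + S) := by ring
    rw [e]
    refine (norm_add_le _ _).trans (add_le_add ((norm_add_le _ _).trans (add_le_add h1 h2)) h3)
  have h5 : ‖b0‖ * ((1 / 2) ^ 5 / (((5 : ℕ) : ℝ) + 1 - b0.re)) ≤
      7 / 10 * ((1 / 2) ^ 5 / (((5 : ℕ) : ℝ) + 1 - 21 / 50)) := by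
    rw [b0_re]
    apply mul_le_mul_of_nonneg_right norm_b0
    norm_num
  have h6 : (1 / 100000 + 3 / 1000 + 7526 / 10000 : ℝ)
      + 7 / 10 * ((1 / 2) ^ 5 / (((5 : ℕ) : ℝ) + 1 - 21 / 50))
      < 7 / 10 * ∑ m ∈ range 5, (1 / 2 : ℝ) ^ (m + 1) / ((m : ℝ) + 1 - b0.re) := by
    rw [b0_re]
    simp only [Finset.sum_range_succ, Finset.sum_range_zero]
    norm_num
  linarith

/-- **explicit sequences of size `7/10`** -/
theorem explicit_exists :
    ∀ᶠ J in atTop, ∃ s : ℕ → ℂ, (∀ k, ‖s k‖ ≤ 7 / 10) ∧ TT s (2 * J) = 0 :=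
  explicit_of_ineq (β := b0) (by rw [b0_re]; norm_num) (by rw [b0_re]; norm_num) norm_b0 5 num_ineq

end Pool.Agent.Hhelper22.Turan
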