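import Mathlib
import Pool.Agent.Hhelper22.Turan.Alg
import Pool.Agent.Hhelper22.Turan.Numeric

/-!
# The limit exists
-/

open Finset Filter Topology

namespace Pool.Agent.Hhelper22.Turan

/-- the quantity whose limit is studied -/
noncomputable def ff (n : ℕ) : ℝ :=
  ⨅ z : {z : Fin (n + 1) → ℂ // z 0 = 1 ∧ ∀ j, ‖z j‖ ≤ 1},
    ⨆ k : Fin (n + 1), ‖∑ j, (z.1 j) ^ (k.val + 1)‖

/-- solvability -/
def Sol (σ : ℝ) (N : ℕ) : Prop := ∃ s : ℕ → ℂ, (∀ k, 1 ≤ k → k ≤ N → ‖s k‖ ≤ σ) ∧ TT s N = 0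

lemma sup_nonneg {n : ℕ} (z : Fin (n + 1) → ℂ) :
    0 ≤ ⨆ k : Fin (n + 1), ‖∑ j, (z j) ^ (k.val + 1)‖ :=
  Real.iSup_nonneg (fun _ => norm_nonneg _)

lemma ff_le {σ : ℝ} {n : ℕ} (h : Sol σ (n + 1)) : ff n ≤ σ := by
  obtain ⟨s, hs, hT⟩ := h
  obtain ⟨z, hz0, hz1, hz2⟩ := exists_vector hs hT
  have hb : BddBelow (Set.range (fun z : {z : Fin (n + 1) → ℂ // z 0 = 1 ∧ ∀ j, ‖z j‖ ≤ 1} =>
      ⨆ k : Fin (n + 1), ‖∑ j, (z.1 j) ^ (k.val + 1)‖)) := by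
    refine ⟨0, ?_⟩
    rintro _ ⟨z, rfl⟩
    exact sup_nonneg z.1
  refine (ciInf_le hb ⟨z, hz0, hz1⟩).trans ?_
  apply ciSup_le
  intro k
  exact hz2 (k.val + 1) (by omega) (by have := k.2; omega)

lemma sol_of_lt {σ : ℝ} {n : ℕ} (h : ff n < σ) : Sol σ (n + 1) := by
  have : Nonempty {z : Fin (n + 1) → ℂ // z 0 = 1 ∧ ∀ j, ‖z j‖ ≤ 1} :=
    ⟨⟨fun _ => 1, rfl, fun _ => by simp⟩⟩
  obtain ⟨z, hz⟩ := exists_lt_of_ciInf_lt h
  refine ⟨psum Finset.univ z.1, fun k hk1 hk => ?_, vector_TT z.2.1⟩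
  have hb : BddAbove (Set.range (fun k : Fin (n + 1) => ‖∑ j, (z.1 j) ^ (k.val + 1)‖)) :=
    Set.finite_range _ |>.bddAbove
  have h1 := le_ciSup hb (⟨k - 1, by omega⟩ : Fin (n + 1))
  simp only at h1
  rw [Nat.sub_add_cancel hk1] at h1
  exact h1.trans hz.le

lemma Sol.nonneg {σ : ℝ} {n : ℕ} (h : Sol σ (n + 1)) : 0 ≤ σ := by
  obtain ⟨s, hs, -⟩ := h
  exact (norm_nonneg _).trans (hs 1 le_rfl (by omega))

theorem tendsto_ff : ∃ L : ℝ, Tendsto ff atTop (𝓝 L) := by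
  set A : Set ℝ := {σ | ∃ᶠ n in atTop, Sol σ (n + 1)} with hA
  have hA7 : (7 / 10 : ℝ) ∈ A := by
    have h := explicit_exists
    rw [hA, Set.mem_ofPred_eq, Filter.frequently_atTop]
    intro a
    obtain ⟨J0, hJ0⟩ := Filter.eventually_atTop.1 h
    refine ⟨2 * (J0 + a + 1) - 1, by omega, ?_⟩
    obtain ⟨s, hs, hT⟩ := hJ0 (J0 + a + 1) (by omega)
    refine ⟨s, fun k _ _ => hs k, ?_⟩
    rw [show 2 * (J0 + a + 1) - 1 + 1 = 2 * (J0 + a + 1) by omega]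
    exact hT
  have hAb : BddBelow A := by
    refine ⟨0, fun σ hσ => ?_⟩
    obtain ⟨n, hn⟩ := Filter.Frequently.exists hσ
    exact hn.nonneg
  have hAne : A.Nonempty := ⟨_, hA7⟩
  refine ⟨sInf A, tendsto_order.2 ⟨fun a ha => ?_, fun a ha => ?_⟩⟩
  · by_contra hcon
    rw [Filter.not_eventually] at hcon
    obtain ⟨b, hb1, hb2⟩ := exists_between ha
    have : b ∈ A := by
      rw [hA, Set.mem_ofPred_eq]
      refine hcon.mono (fun n hn => ?_)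
      exact sol_of_lt ((not_lt.1 hn).trans_lt hb1)
    exact absurd (csInf_le hAb this) (not_le.2 hb2)
  · have h7 : sInf A ≤ 7 / 10 := csInf_le hAb hA7
    set b := min a (141 / 200) with hb
    have hb1 : sInf A < b := lt_min ha (by linarith)
    obtain ⟨σ, hσA, hσb⟩ := exists_lt_of_csInf_lt hAne hb1
    have hσ0 : 0 ≤ σ := by
      obtain ⟨n, hn⟩ := Filter.Frequently.exists hσA
      exact hn.nonneg
    have hσ1 : √2 * σ < 1 := by
      have h1 : σ < 141 / 200 := hσb.trans_le (min_le_right _ _)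
      have h2 : √2 < 1.4143 := by
        rw [Real.sqrt_lt' (by norm_num)]; norm_num
      have h3 : 0 < √2 := by positivity
      nlinarith
    have hε : 0 < (a - σ) / 2 := by
      have : σ < a := hσb.trans_le (min_le_left _ _)
      linarith
    obtain ⟨n₀, hn₀⟩ := transfer hσ0 hσ1 hε
    obtain ⟨n, hn, hsol⟩ := (Filter.frequently_atTop.1 hσA) n₀
    obtain ⟨N₀, hN₀⟩ := hn₀ (n + 1) (by omega) hsol
    filter_upwards [eventually_ge_atTop N₀] with N hN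
    obtain ⟨s', hs', hT'⟩ := hN₀ (N + 1) (by omega)
    have : Sol (σ + (a - σ) / 2) (N + 1) := by
      refine ⟨s', fun k hk1 _ => ?_, hT'⟩
      obtain ⟨k, rfl⟩ : ∃ j, k = j + 1 := ⟨k - 1, by omega⟩
      exact hs' k
    have h1 := ff_le this
    linarith

end Pool.Agent.Hhelper22.Turan
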